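import Pool.Agent.Lib.MP_777af9_an.Spec

/-!
# MP_777af9_an: assembly of the final theorem from the statements of the specification
-/

open MeasureTheory Set Filter Topology
open scoped ENNReal

noncomputable section

namespace Pool.Agent.MP777

theorem multCN_of (h : S_Cot) (hm : S_Mult) : MultCN := by
  intro ι _ c ν F hs hF j x
  exact (hm h ι c ν F hs hF j x).limUnder_eq

theorem phi1_pos_aux {t : ℝ} (h0 : 0 < t) (h1 : t < 1) : 0 < phi1 t := by
  unfold phi1
  refine mul_pos h0 (Real.log_pos ?_)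
  rw [lt_div_iff₀ h0]
  have := Real.add_one_lt_exp (x := 1) one_ne_zero
  linarith

theorem asm (hCot : S_Cot) (hFour : S_Four) (hMult : S_Mult) (hCNb : S_CNb) (hSub : S_Sub)
    (hQC : S_QC) (hDecA : S_DecA) (hDec : S_Dec) (hJen : S_Jen) (hChar : S_Char) (hMax : S_Max)
    (hCont : S_Cont) (hProd : S_Prod) (hPM : S_PM) (hAvg : S_Avg) (hPtS : S_PtS) (hSup : S_Sup)
    (hRevG : S_RevG) (hRev : S_Rev) (hPos : S_Pos) (hComp : S_Comp) (hFek : S_Fek) (hPhi : S_Phi)
    (hBack : S_Back) (hDich : S_Dich) (hOff : S_Off) : Final := by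
  have M : MultCN := multCN_of hCot hMult
  have CNp : CNprops := hCNb hFour M
  have CLp : CLprops := hSub CNp
  have Q : QC := hQC CLp
  have A : ClaimA := hDecA CLp
  have D := hDec CLp Q A
  have Ch : CharAdm := hChar Q hJen D
  have P : ProdAs := hProd hFour M
  have PMm := hPM hFour M
  have Pt : PtSup := hPtS P PMm.1
  have SA : SupAdd := hSup CNp CLp Pt PMm.2 hAvg
  have RI : RevIneq := hRev CNp CLp P PMm.2 hAvg (hRevG CNp)
  have Cm : Comp := hComp CLp Q RI
  have Ps : 0 < rr 2 := hPos hFour M CNp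
  have DD := hDich Ch Cm hFek SA Ps
  have incl : ∀ φ : ℝ → ℝ, LorFun φ → Adm φ → Contained φ phi1 := by
    intro φ hφ ha
    obtain ⟨⟨c, hc, hle⟩, _⟩ := DD φ hφ ha
    exact hCont phi1 φ c hc hle
  have largest : Adm phi1 → IsLargest phi1 := fun h => ⟨hPhi.1, h, incl⟩
  have logB_adm : ∀ K : ℝ, 0 < K → LogB K → Adm phi1 := hBack Q Ch Cm hPhi
  refine ⟨?_, incl, ⟨fun h => h.2.1, largest⟩, ?_, ?_⟩
  · intro hex
    obtain ⟨φ, hφ, ha, hdom⟩ := hMax Q Ch hex
    refine ⟨φ, hφ, ha, ?_⟩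
    intro φ' hφ' ha'
    obtain ⟨c, hc, hle⟩ := hdom φ' hφ' ha'
    exact hCont φ φ' c hc hle
  · by_cases hB : ∃ K : ℝ, 0 < K ∧ LogB K
    · obtain ⟨K, hK, hL⟩ := hB
      exact Or.inl (largest (logB_adm K hK hL))
    · refine Or.inr ?_
      intro φ hφ ha
      rcases (DD φ hφ ha).2 with h | h
      · exact h
      · exact absurd h hB
  · constructor
    · intro h
      have h2 := (DD phi1 h.1 h.2.1).2
      rcases h2 with h2 | ⟨K, hK, hL⟩
      · exfalso
        have h3 : Tendsto (fun t : ℝ => phi1 t / phi1 t) (𝓝[>] 0) (𝓝 1) := by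
          refine Tendsto.congr' ?_ tendsto_const_nhds
          have : Ioo (0 : ℝ) 1 ∈ 𝓝[>] (0 : ℝ) := Ioo_mem_nhdsGT one_pos
          filter_upwards [this] with t ht
          exact (div_self (phi1_pos_aux ht.1 ht.2).ne').symm
        exact not_tendsto_nhds_of_tendsto_atTop h2 1 h3
      · exact ⟨K, hK, (hOff CLp K hK).1 hL⟩
    · rintro ⟨K, hK, hO⟩
      exact largest (logB_adm K hK ((hOff CLp K hK).2 hO))

end Pool.Agent.MP777
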