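import Pool.Agent.Lib.MP_777af9_an.Spec

/-! # MP_777af9_an: averaging over the phase -/

open MeasureTheory Set Filter Topology
open scoped ENNReal

noncomputable section

namespace Pool.Agent.MP777

theorem per_lint (g : ℝ → ℝ≥0∞) (hg : Function.Periodic g 1) (c : ℝ) :
    ∫⁻ θ in Ioc (0 : ℝ) 1, g (c + θ) = ∫⁻ u in Ioc (0 : ℝ) 1, g u := by
  have h1 : ∫⁻ θ in Ioc (0 : ℝ) 1, g (c + θ) = ∫⁻ u in Ioc c (c + 1), g u := by
    rw [← (measurePreserving_add_left volume c).setLIntegral_comp_preimage_emb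
      (measurableEmbedding_addLeft c) g (Ioc c (c + 1))]
    congr 2
    ext x
    simp only [mem_Ioc, mem_preimage]
    constructor <;> rintro ⟨h1, h2⟩ <;> constructor <;> linarith
  rw [h1]
  have h2 := (isAddFundamentalDomain_Ioc (one_pos : (0 : ℝ) < 1) c).setLIntegral_eq
    (isAddFundamentalDomain_Ioc (one_pos : (0 : ℝ) < 1) 0) g (by
      rintro ⟨x, hx⟩ y
      obtain ⟨n, rfl⟩ := AddSubgroup.mem_zmultiples_iff.1 hx
      show g (n • (1 : ℝ) + y) = g y
      rw [add_comm]
      exact hg.zsmul n y)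
  simpa using h2

theorem c_Avg : S_Avg := by
  intro Φ hm hp k
  rw [lintegral_lintegral_swap]
  · refine lintegral_congr fun x => ?_
    exact per_lint (Φ x) (hp x) _
  · refine Measurable.aemeasurable ?_
    exact hm.comp (measurable_snd.prodMk ((measurable_snd.const_mul _).add measurable_fst))

end Pool.Agent.MP777
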