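import Pool.Agent.Lib.MP_777af9_an.Spec

/-!
# MP_777af9_an: a logarithmic bound gives that `L log L` is strongly admissible
-/

open MeasureTheory Set Filter Topology
open scoped ENNReal

noncomputable section

namespace Pool.Agent.MP777

theorem c_Back : S_Back := by
  intro qc ch cm ph K hK hL
  refine (ch phi1 ph.1).2 ⟨5 * K, by positivity, fun s hs => ?_⟩
  rw [aa]
  refine iSup₂_le fun h hh => ?_
  have hm0 : 0 ≤ mass h := intervalIntegral.integral_nonneg zero_le_one fun x _ => (hh.2.1 x).1
  rcases eq_or_lt_of_le hm0 with h0 | h0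
  · have hU : Unit1 0 h := ⟨hh.1, hh.2.1, h0.symm.le⟩
    have h1 : CL1 (cx h) ≤ aa 0 := by
      rw [aa]
      exact le_iSup_of_le h (le_iSup_of_le hU le_rfl)
    rw [qc.zero] at h1
    exact h1.trans zero_le
  · have h1 := cm.low s h hs.2 hh h0
    have hτ1 : mass h ≤ 1 := hh.2.2.trans hs.2
    have h8 : 1 < 8 / mass h := by
      rw [lt_div_iff₀ h0]; linarith
    have h2 := hL (8 / mass h) h8
    have h3 := ph.2 (mass h) s h0 hh.2.2 hs.2
    refine h1.trans ?_
    calc 2 * ENNReal.ofReal (mass h) * rr (8 / mass h)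
        ≤ 2 * ENNReal.ofReal (mass h) * ENNReal.ofReal (K * Real.log (8 / mass h)) := by gcongr
      _ = ENNReal.ofReal (2 * mass h * (K * Real.log (8 / mass h))) := by
          rw [ENNReal.ofReal_mul (p := 2 * mass h) (by positivity),
            ENNReal.ofReal_mul (p := 2) (q := mass h) (by norm_num), ENNReal.ofReal_ofNat]
      _ ≤ ENNReal.ofReal (5 * K * phi1 s) := by
          refine ENNReal.ofReal_le_ofReal ?_
          calc 2 * mass h * (K * Real.log (8 / mass h))
              = 2 * K * (mass h * Real.log (8 / mass h)) := by ring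
            _ ≤ 2 * K * (5 / 2 * phi1 s) := by gcongr
            _ = _ := by ring

end Pool.Agent.MP777
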