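import Pool.Agent.Lib.MP_777af9_an.Spec

/-!
# MP_777af9_an: basic properties of `CN`
-/

open MeasureTheory Set Filter Topology
open scoped ENNReal

noncomputable section

namespace Pool.Agent.MP777

namespace CNbAux

theorem norm_ee (n : ℤ) (x : ℝ) : ‖ee n x‖ = 1 := by
  unfold ee
  have : (2 * Real.pi * Complex.I * (n : ℂ) * (x : ℂ)) = ((2 * Real.pi * n * x : ℝ) : ℂ) * Complex.I := by
    push_cast; ring
  rw [this, Complex.norm_exp_ofReal_mul_I]

theorem cont_ee (n : ℤ) : Continuous (ee n) := by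
  unfold ee
  fun_prop

theorem ee_per (n : ℤ) (x : ℝ) : ee n (x + 1) = ee n x := by
  unfold ee
  have : (2 * Real.pi * Complex.I * (n : ℂ) * ((x + 1 : ℝ) : ℂ))
      = (2 * Real.pi * Complex.I * (n : ℂ) * (x : ℂ)) + n * (2 * Real.pi * Complex.I) := by
    push_cast; ring
  rw [this, Complex.exp_add, Complex.exp_int_mul_two_pi_mul_I, mul_one]

theorem norm_sgn (m : ℤ) : ‖((Int.sign m : ℤ) : ℂ)‖ ≤ 1 := by
  rcases Int.lt_trichotomy m 0 with h | h | h
  · rw [Int.sign_eq_neg_one_of_neg h]; simp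
  · rw [h]; simp
  · rw [Int.sign_eq_one_of_pos h]; simp

theorem summ (hF : S_Four) {f : ℝ → ℂ} (hf : Sm f) : Summable (fun n : ℤ => ‖co f n‖) := by
  refine Summable.of_nonneg_of_le (fun a => norm_nonneg _) (fun a => ?_) (hF f hf).1
  have : 0 ≤ |(a : ℝ)| := abs_nonneg _
  have := norm_nonneg (co f a)
  nlinarith

theorem CN_eq (hF : S_Four) (M : MultCN) {f : ℝ → ℂ} (hf : Sm f) (N : ℤ) (x : ℝ) :
    CN N f x = Complex.I * ∑' n : ℤ, co f n * ((Int.sign (N - n) : ℤ) : ℂ) * ee n x :=
  M ℤ (co f) (fun n => n) f (hF f hf).1 (hF f hf).2 N x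

theorem term_le {f : ℝ → ℂ} (N n : ℤ) (x : ℝ) :
    ‖co f n * ((Int.sign (N - n) : ℤ) : ℂ) * ee n x‖ ≤ ‖co f n‖ := by
  rw [norm_mul, norm_mul, norm_ee, mul_one]
  exact mul_le_of_le_one_right (norm_nonneg _) (norm_sgn _)

theorem summ_term (hF : S_Four) {f : ℝ → ℂ} (hf : Sm f) (N : ℤ) (x : ℝ) :
    Summable (fun n : ℤ => co f n * ((Int.sign (N - n) : ℤ) : ℂ) * ee n x) :=
  Summable.of_norm_bounded (summ hF hf) fun n => term_le N n x

theorem co_add {f g : ℝ → ℂ} (hf : Sm f) (hg : Sm g) (n : ℤ) :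
    co (fun y => f y + g y) n = co f n + co g n := by
  unfold co
  rw [← intervalIntegral.integral_add]
  · refine intervalIntegral.integral_congr fun t _ => ?_
    simp only
    ring
  · exact (hf.1.continuous.mul (cont_ee _)).intervalIntegrable _ _
  · exact (hg.1.continuous.mul (cont_ee _)).intervalIntegrable _ _

theorem co_smul {f : ℝ → ℂ} (c : ℂ) (n : ℤ) :
    co (fun y => c * f y) n = c * co f n := by
  unfold co
  rw [← intervalIntegral.integral_const_mul]
  refine intervalIntegral.integral_congr fun t _ => ?_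
  simp only
  ring

end CNbAux

open CNbAux

theorem c_CNb : S_CNb := by
  intro hF M
  refine ⟨?_, ?_, ?_, ?_, ?_, ?_⟩
  · intro N f hf
    have : CN N f = fun x => Complex.I * ∑' n : ℤ, co f n * ((Int.sign (N - n) : ℤ) : ℂ) * ee n x := by
      ext x; exact CN_eq hF M hf N x
    rw [this]
    refine continuous_const.mul (continuous_tsum (fun n => continuous_const.mul (cont_ee n))
      (summ hF hf) fun n x => term_le N n x)
  · intro N f hf x
    rw [CN_eq hF M hf, CN_eq hF M hf]
    simp only [ee_per]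
  · intro N f g hf hg x
    have hfg : Sm (fun y => f y + g y) := by
      refine ⟨hf.1.add hg.1, fun y => ?_⟩
      simp only
      rw [hf.2 y, hg.2 y]
    rw [CN_eq hF M hf, CN_eq hF M hg, CN_eq hF M hfg, ← mul_add,
      ← (summ_term hF hf N x).tsum_add (summ_term hF hg N x)]
    congr 1
    refine tsum_congr fun n => ?_
    rw [co_add hf hg]
    ring
  · intro N f c hf x
    have hcf : Sm (fun y => c * f y) := by
      refine ⟨contDiff_const.mul hf.1, fun y => ?_⟩
      simp only
      rw [hf.2 y]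
    have e : ∀ n : ℤ, co (fun y => c * f y) n * ((Int.sign (N - n) : ℤ) : ℂ) * ee n x
        = c * (co f n * ((Int.sign (N - n) : ℤ) : ℂ) * ee n x) := by
      intro n
      rw [co_smul]
      ring
    rw [CN_eq hF M hf, CN_eq hF M hcf]
    simp only [e]
    rw [tsum_mul_left]
    ring
  · intro f hf
    refine ⟨∑' n : ℤ, ‖co f n‖, fun N x => ?_⟩
    rw [CN_eq hF M hf, norm_mul, Complex.norm_I, one_mul]
    have hs : Summable (fun n : ℤ => ‖co f n * ((Int.sign (N - n) : ℤ) : ℂ) * ee n x‖) :=
      Summable.of_nonneg_of_le (fun _ => norm_nonneg _) (fun n => term_le N n x) (summ hF hf)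
    refine (norm_tsum_le_tsum_norm hs).trans ?_
    exact Summable.tsum_le_tsum (fun n => term_le N n x) hs (summ hF hf)
  · intro N f θ x
    have : trunc N (fun y => f (y + θ)) x = trunc N f (x + θ) := by
      ext ε
      unfold trunc
      refine integral_congr_ae (Eventually.of_forall fun t => ?_)
      simp only
      rw [show x - t + θ = x + θ - t by ring]
    unfold CN
    rw [this]

end Pool.Agent.MP777
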