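import Pool.Agent.Lib.MP_777af9_an.Spec

/-!
# MP_777af9_an: characterisation of strong admissibility
-/

open MeasureTheory Set Filter Topology
open scoped ENNReal

noncomputable section

namespace Pool.Agent.MP777

namespace CharAux

theorem smR_cx {h : ℝ → ℝ} (hh : SmR h) : Sm (cx h) := by
  refine ⟨?_, ?_⟩
  · exact Complex.ofRealCLM.contDiff.comp hh.1
  · intro x
    simp [cx, hh.2 x]

theorem dfn_mem (f : ℝ → ℂ) (l : ℝ) : dfn f l ∈ Icc (0 : ℝ) 1 := by
  refine ⟨ENNReal.toReal_nonneg, ?_⟩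
  unfold dfn
  have h1 : volume {x ∈ Ioc (0 : ℝ) 1 | l < ‖f x‖} ≤ volume (Ioc (0 : ℝ) 1) :=
    measure_mono fun x hx => hx.1
  have h2 : volume (Ioc (0 : ℝ) 1) = 1 := by simp
  rw [h2] at h1
  have := ENNReal.toReal_mono ENNReal.one_ne_top h1
  simpa using this

theorem mass_mem {h : ℝ → ℝ} (hh : SmR h) (h1 : ∀ x, 0 ≤ h x ∧ h x ≤ 1) :
    mass h ∈ Icc (0 : ℝ) 1 := by
  refine ⟨intervalIntegral.integral_nonneg zero_le_one fun x _ => (h1 x).1, ?_⟩
  unfold mass
  calc ∫ x in (0:ℝ)..1, h x ≤ ∫ x in (0:ℝ)..1, (1:ℝ) := by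
        refine intervalIntegral.integral_mono_on zero_le_one
          (hh.1.continuous.intervalIntegrable _ _) (by simp) fun x _ => (h1 x).2
    _ = 1 := by simp

end CharAux

open CharAux

theorem c_Char : S_Char := by
  intro qc jen dec φ hφ
  constructor
  · rintro ⟨c, hc, hle⟩
    refine ⟨c, hc, fun s hs => ?_⟩
    unfold aa
    refine iSup₂_le fun h hh => ?_
    have hm := mass_mem hh.1 hh.2.1
    have h1 := hle (cx h) (smR_cx hh.1)
    have h2 := jen φ hφ h hh.1 hh.2.1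
    refine h1.trans ?_
    rw [ENNReal.ofReal_mul hc.le]
    gcongr
    refine h2.trans (ENNReal.ofReal_le_ofReal ?_)
    exact hφ.mono hm ⟨hs.1.le, hs.2⟩ hh.2.2
  · rintro ⟨c, hc, hle⟩
    refine ⟨96 * c, by positivity, fun f hf => ?_⟩
    refine (dec f hf).trans ?_
    have h1 : ∀ l, aa (dfn f l) ≤ ENNReal.ofReal c * ENNReal.ofReal (φ (dfn f l)) := by
      intro l
      have hm := dfn_mem f l
      rw [← ENNReal.ofReal_mul hc.le]
      rcases eq_or_lt_of_le hm.1 with h0 | h0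
      · rw [← h0, qc.zero]; exact zero_le
      · exact hle _ ⟨h0, hm.2⟩
    calc 96 * ∫⁻ l in Ioi (0:ℝ), aa (dfn f l)
        ≤ 96 * ∫⁻ l in Ioi (0:ℝ), ENNReal.ofReal c * ENNReal.ofReal (φ (dfn f l)) := by
          gcongr with l
          exact h1 l
      _ = 96 * (ENNReal.ofReal c * lor φ f) := by
          rw [lintegral_const_mul' _ _ ENNReal.ofReal_ne_top]
          rfl
      _ = ENNReal.ofReal (96 * c) * lor φ f := by
          rw [ENNReal.ofReal_mul (by norm_num), ENNReal.ofReal_ofNat, mul_assoc]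

end Pool.Agent.MP777
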