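import Pool.Agent.Lib.MP_777af9_an.Spec

/-!
# MP_777af9_an: comparison of `rr` and `aa`
-/

open MeasureTheory Set Filter Topology
open scoped ENNReal

noncomputable section

namespace Pool.Agent.MP777

namespace CompAux

theorem smR_cx {h : ℝ → ℝ} (hh : SmR h) : Sm (cx h) := by
  refine ⟨?_, ?_⟩
  · exact Complex.ofRealCLM.contDiff.comp hh.1
  · intro x
    simp [cx, hh.2 x]

theorem CLm_le_Cf (L : ℕ) (f : ℝ → ℂ) (x : ℝ) : CLm L f x ≤ Cf f x := by
  unfold CLm
  refine iSup₂_le fun N hN => ?_
  rw [Finset.mem_Icc] at hN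
  unfold Cf
  exact le_iSup_of_le N (le_iSup_of_le hN.1 le_rfl)

end CompAux

open CompAux

theorem c_Comp : S_Comp := by
  intro cl qc rev
  refine ⟨?_, ?_⟩
  · intro m hm
    have m0 : 0 < m := by linarith
    unfold rr
    refine iSup_le fun h => iSup_le fun hC => iSup_le fun L => ?_
    obtain ⟨hh, h0, hH, hb⟩ := hC
    set H := mass h with hHdef
    obtain ⟨x0, hx0⟩ := (isCompact_Icc (a := (0:ℝ)) (b := 1)).exists_isMaxOn ⟨0, by simp⟩
      hh.1.continuous.continuousOn
    have hmax : ∀ x, h x ≤ h x0 := by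
      intro x
      obtain ⟨y, hy, hxy⟩ := hh.2.exists_mem_Ico₀ one_pos x
      rw [hxy]
      exact hx0.2 ⟨hy.1, hy.2.le⟩
    set b := h x0 with hbdef
    have hHb : H ≤ b := by
      rw [hHdef]
      unfold mass
      calc ∫ x in (0:ℝ)..1, h x ≤ ∫ x in (0:ℝ)..1, b := by
            refine intervalIntegral.integral_mono_on zero_le_one
              (hh.1.continuous.intervalIntegrable _ _) (by simp) fun x _ => hmax x
        _ = b := by simp
    have b0 : 0 < b := hH.trans_le hHb
    have hbm : b < m * H := hb x0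
    set u := H / b with hu
    have u0 : 0 < u := by positivity
    have hub : b * u = H := by rw [hu]; field_simp
    have hu1 : 1 / m ≤ u := by
      rw [hu, div_le_div_iff₀ m0 b0]
      linarith
    have hU : Unit1 u (fun x => b⁻¹ * h x) := by
      refine ⟨⟨contDiff_const.mul hh.1, fun x => ?_⟩, fun x => ⟨?_, ?_⟩, ?_⟩
      · simp only
        rw [hh.2 x]
      · exact mul_nonneg (by positivity) (h0 x)
      · rw [inv_mul_le_iff₀ b0, mul_one]; exact hmax x
      · unfold mass
        rw [intervalIntegral.integral_const_mul]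
        rw [hu, div_eq_inv_mul]
        exact le_rfl
    have e1 : cx h = fun y => ((b : ℝ) : ℂ) * cx (fun x => b⁻¹ * h x) y := by
      ext y
      simp only [cx]
      push_cast
      have : (b : ℂ) ≠ 0 := by exact_mod_cast b0.ne'
      field_simp
    have h1 : CL1 (cx h) ≤ ENNReal.ofReal b * aa u := by
      rw [e1, cl.smul _ _ (smR_cx hU.1), ← ofReal_norm, Complex.norm_real,
        Real.norm_of_nonneg b0.le]
      gcongr
      unfold aa
      exact le_iSup_of_le _ (le_iSup_of_le hU le_rfl)
    have h2 : ∫⁻ x in zer h, CLm L (cx h) x ≤ CL1 (cx h) := by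
      unfold CL1
      refine (lintegral_mono_set (fun x hx => hx.1)).trans ?_
      exact lintegral_mono fun x => CLm_le_Cf L _ x
    have h3 := qc.star (1 / m) u (by positivity) hu1
    have h4 : aa u ≤ ENNReal.ofReal (u * m) * aa (1 / m) := by
      have h5 : ENNReal.ofReal (u * m) * (ENNReal.ofReal (1 / m / u) * aa u) = aa u := by
        rw [← mul_assoc, ← ENNReal.ofReal_mul (by positivity)]
        have : u * m * (1 / m / u) = 1 := by field_simp
        rw [this, ENNReal.ofReal_one, one_mul]
      rw [← h5]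
      gcongr
    rw [ENNReal.div_le_iff (by simpa using hH) ENNReal.ofReal_ne_top]
    calc ∫⁻ x in zer h, CLm L (cx h) x ≤ ENNReal.ofReal b * aa u := h2.trans h1
      _ ≤ ENNReal.ofReal b * (ENNReal.ofReal (u * m) * aa (1 / m)) := by gcongr
      _ = ENNReal.ofReal m * aa (1 / m) * ENNReal.ofReal H := by
          rw [← mul_assoc, ← ENNReal.ofReal_mul b0.le, ← hub,
            show b * (u * m) = m * (b * u) by ring, ENNReal.ofReal_mul m0.le]
          ring
  · intro s h hs hU hpos
    obtain ⟨hh, h01, hms⟩ := hU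
    set τ := mass h with hτ
    have hC : Cls (2 / τ) h := by
      refine ⟨hh, fun x => (h01 x).1, hpos, fun x => ?_⟩
      have : 2 / τ * mass h = 2 := by rw [← hτ]; field_simp
      rw [this]
      have := (h01 x).2
      linarith
    have h1 := rev (2 / τ) h (by positivity) hC
    have : 4 * (2 / τ) = 8 / τ := by ring
    rw [this] at h1
    exact h1

end Pool.Agent.MP777
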