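import Pool.Agent.Lib.MP_777af9_an.Spec

/-!
# MP_777af9_an: inclusion of spaces and the Stieltjes form of the norm (helper18)
-/

open MeasureTheory Set Filter Topology
open scoped ENNReal

noncomputable section

namespace Pool.Agent.MP777

namespace ContStjAux

theorem dfn_set_le (f : ℝ → ℂ) (l : ℝ) : volume {x ∈ Ioc (0 : ℝ) 1 | l < ‖f x‖} ≤ 1 := by
  refine (measure_mono (fun x hx => hx.1)).trans ?_
  rw [Real.volume_Ioc]
  simp

theorem dfn_nonneg (f : ℝ → ℂ) (l : ℝ) : 0 ≤ dfn f l := ENNReal.toReal_nonneg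

theorem dfn_le_one (f : ℝ → ℂ) (l : ℝ) : dfn f l ≤ 1 := by
  unfold dfn
  have := ENNReal.toReal_mono ENNReal.one_ne_top (dfn_set_le f l)
  simpa using this

theorem dfn_antitone (f : ℝ → ℂ) : Antitone (dfn f) := by
  intro l l' h
  unfold dfn
  refine ENNReal.toReal_mono ((dfn_set_le f l).trans_lt ENNReal.one_lt_top).ne
    (measure_mono fun x hx => ⟨hx.1, h.trans_lt hx.2⟩)

/-- the decreasing rearrangement as the length of an interval -/
theorem rea_eq (f : ℝ → ℂ) (s : ℝ) :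
    rea f s = ∫⁻ l in Ioi (0 : ℝ), {l : ℝ | s < dfn f l}.indicator 1 l := by
  have hm : MeasurableSet {l : ℝ | s < dfn f l} :=
    measurableSet_lt measurable_const (dfn_antitone f).measurable
  rw [lintegral_indicator_one hm, Measure.restrict_apply hm]
  apply le_antisymm
  · refine le_of_forall_lt_imp_le_of_dense fun c hc => ?_
    have hct : c ≠ ⊤ := hc.ne_top
    have hcr : ENNReal.ofReal c.toReal = c := ENNReal.ofReal_toReal hct
    have hsub : Ioc 0 c.toReal ⊆ {l : ℝ | s < dfn f l} ∩ Ioi 0 := by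
      rintro l ⟨hl0, hl⟩
      refine ⟨?_, hl0⟩
      by_contra hcon
      have hcon' : dfn f l ≤ s := not_lt.1 hcon
      have h1 : rea f s ≤ ENNReal.ofReal l := iInf₂_le l ⟨hl0.le, hcon'⟩
      have h2 : ENNReal.ofReal l ≤ c := by
        rw [← hcr]
        exact ENNReal.ofReal_le_ofReal hl
      exact absurd (h1.trans h2) (not_le.2 hc)
    calc c = volume (Ioc 0 c.toReal) := by rw [Real.volume_Ioc, sub_zero, hcr]
      _ ≤ _ := measure_mono hsub
  · refine le_iInf₂ fun l hl => ?_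
    have hsub : {l : ℝ | s < dfn f l} ∩ Ioi 0 ⊆ Ioo 0 l := by
      rintro l' ⟨h1, h2⟩
      refine ⟨h2, ?_⟩
      by_contra hcon
      have h3 := dfn_antitone f (not_lt.1 hcon)
      exact absurd (h3.trans hl.2) (not_le.2 h1)
    refine (measure_mono hsub).trans ?_
    rw [Real.volume_Ioo, sub_zero]

end ContStjAux

open ContStjAux

/-- **Cont**: domination of functions gives inclusion of spaces. -/
theorem c_Cont : S_Cont := by
  intro φ φ' c hc h f _ _ hf
  have h1 : lor φ f ≤ ENNReal.ofReal c * lor φ' f := by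
    unfold lor
    rw [← lintegral_const_mul' _ _ ENNReal.ofReal_ne_top]
    refine lintegral_mono fun l => ?_
    rw [← ENNReal.ofReal_mul hc.le]
    exact ENNReal.ofReal_le_ofReal (h _ ⟨dfn_nonneg f l, dfn_le_one f l⟩)
  exact h1.trans_lt (ENNReal.mul_lt_top ENNReal.ofReal_lt_top hf)

/-- **Stj**: the layer cake norm is the integral of the decreasing rearrangement. -/
theorem c_Stj : S_Stj := by
  intro φ f μ hφ hμ
  have hfin : IsFiniteMeasure (μ.restrict (Ico 0 1)) := ⟨by
    rw [Measure.restrict_apply_univ, hμ 1 ⟨one_pos, le_rfl⟩]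
    exact ENNReal.ofReal_lt_top⟩
  have hm : MeasurableSet {p : ℝ × ℝ | p.1 < dfn f p.2} :=
    measurableSet_lt measurable_fst ((dfn_antitone f).measurable.comp measurable_snd)
  have h1 : ∫⁻ s in Ico (0 : ℝ) 1, rea f s ∂μ = ∫⁻ s in Ico (0 : ℝ) 1, ∫⁻ l in Ioi (0 : ℝ),
      {p : ℝ × ℝ | p.1 < dfn f p.2}.indicator 1 (s, l) ∂volume ∂μ := by
    refine lintegral_congr fun s => ?_
    rw [rea_eq]
    rfl
  have h2 : AEMeasurable (Function.uncurry fun s l : ℝ =>
      {p : ℝ × ℝ | p.1 < dfn f p.2}.indicator (1 : ℝ × ℝ → ℝ≥0∞) (s, l))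
      ((μ.restrict (Ico 0 1)).prod (volume.restrict (Ioi 0))) :=
    (measurable_one.indicator hm).aemeasurable
  rw [h1, lintegral_lintegral_swap h2]
  unfold lor
  refine lintegral_congr fun l => ?_
  have hml : MeasurableSet {s : ℝ | s < dfn f l} := measurableSet_lt measurable_id measurable_const
  have h3 : ∫⁻ s in Ico (0 : ℝ) 1, {p : ℝ × ℝ | p.1 < dfn f p.2}.indicator 1 (s, l) ∂μ =
      ∫⁻ s in Ico (0 : ℝ) 1, {s : ℝ | s < dfn f l}.indicator 1 s ∂μ := by
    refine lintegral_congr fun s => ?_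
    rfl
  rw [h3, lintegral_indicator_one hml, Measure.restrict_apply hml]
  have h4 : {s : ℝ | s < dfn f l} ∩ Ico 0 1 = Ico 0 (dfn f l) := by
    ext s
    constructor
    · rintro ⟨h5, h6, -⟩
      exact ⟨h6, h5⟩
    · rintro ⟨h5, h6⟩
      exact ⟨h6, h5, h6.trans_le (dfn_le_one f l)⟩
  rw [h4]
  rcases (dfn_nonneg f l).eq_or_lt with h5 | h5
  · rw [← h5, hφ.zero, Ico_self]
    simp
  · rw [hμ _ ⟨h5, dfn_le_one f l⟩]

end Pool.Agent.MP777
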