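import Pool.Agent.Lib.MP_777af9_an.Spec

/-! # MP_777af9_an: truncated cotangent integrals -/

open MeasureTheory Set Filter Topology
open scoped ENNReal

noncomputable section

namespace Pool.Agent.MP777

theorem ee_eq (m : ℤ) (t : ℝ) : ee m t =
    ((Real.cos (2 * Real.pi * m * t) : ℝ) : ℂ) + Complex.I * ((Real.sin (2 * Real.pi * m * t) : ℝ) : ℂ) := by
  unfold ee
  rw [show 2 * (Real.pi : ℂ) * Complex.I * (m : ℂ) * (t : ℂ) =
    ((2 * Real.pi * m * t : ℝ) : ℂ) * Complex.I by push_cast; ring, Complex.exp_mul_I, Complex.ofReal_cos,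
    Complex.ofReal_sin]
  ring

namespace CotAux

/-- the trigonometric polynomial -/
def E (m : ℕ) (t : ℝ) : ℝ :=
  ∑ l ∈ Finset.range m, (Real.cos (2 * Real.pi * l * t) + Real.cos (2 * Real.pi * (l + 1) * t))

theorem D_eq (m : ℕ) (t : ℝ) (hs : Real.sin (Real.pi * t) ≠ 0) :
    Real.cot (Real.pi * t) * Real.sin (2 * Real.pi * m * t) = E m t := by
  induction m with
  | zero => simp [E]
  | succ m ih =>
    unfold E at ih ⊢
    rw [Finset.sum_range_succ, ← ih, Real.cot_eq_cos_div_sin]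
    have h1 : 2 * Real.pi * ((m + 1 : ℕ) : ℝ) * t = (2 * Real.pi * m * t + Real.pi * t) + Real.pi * t := by
      push_cast; ring
    have h2 : 2 * Real.pi * (m : ℝ) * t = (2 * Real.pi * m * t + Real.pi * t) - Real.pi * t := by ring
    have h3 : 2 * Real.pi * ((m : ℝ) + 1) * t = (2 * Real.pi * m * t + Real.pi * t) + Real.pi * t := by ring
    rw [h1, h3]
    nth_rw 2 [h2]
    nth_rw 3 [h2]
    rw [Real.sin_add, Real.sin_sub, Real.cos_add (2 * Real.pi * m * t + Real.pi * t), Real.cos_sub]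
    field_simp
    ring

theorem E_cont (m : ℕ) : Continuous (E m) := by
  unfold E
  fun_prop

theorem E_bound (m : ℕ) (t : ℝ) : |E m t| ≤ 2 * m := by
  unfold E
  refine (Finset.abs_sum_le_sum_abs _ _).trans ?_
  refine (Finset.sum_le_card_nsmul _ _ 2 fun l _ => ?_).trans ?_
  · refine (abs_add_le _ _).trans ?_
    have h1 := Real.abs_cos_le_one (2 * Real.pi * l * t)
    have h2 := Real.abs_cos_le_one (2 * Real.pi * (l + 1) * t)
    linarith
  · simp [mul_comm]

theorem int_cos (l : ℕ) (hl : 1 ≤ l) : ∫ t in (-(1 / 2 : ℝ))..(1 / 2), Real.cos (2 * Real.pi * l * t) = 0 := by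
  have hne : 2 * Real.pi * (l : ℝ) ≠ 0 := by
    have : (0 : ℝ) < l := by exact_mod_cast hl
    positivity
  rw [intervalIntegral.integral_comp_mul_left (fun x => Real.cos x) hne, integral_cos]
  have h1 : 2 * Real.pi * (l : ℝ) * (1 / 2) = l * Real.pi := by ring
  have h2 : 2 * Real.pi * (l : ℝ) * (-(1 / 2)) = -(l * Real.pi) := by ring
  rw [h1, h2, Real.sin_neg, Real.sin_nat_mul_pi]
  simp

theorem int_E (m : ℕ) (hm : 1 ≤ m) : ∫ t in (-(1 / 2 : ℝ))..(1 / 2), E m t = 1 := by
  unfold E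
  rw [intervalIntegral.integral_finset_sum (fun l _ => (by fun_prop : Continuous _).intervalIntegrable _ _)]
  have h1 : ∀ l ∈ Finset.range m, ∫ t in (-(1 / 2 : ℝ))..(1 / 2),
      (Real.cos (2 * Real.pi * l * t) + Real.cos (2 * Real.pi * (l + 1) * t)) = if l = 0 then 1 else 0 := by
    intro l _
    rw [intervalIntegral.integral_add ((by fun_prop : Continuous _).intervalIntegrable _ _)
      ((by fun_prop : Continuous _).intervalIntegrable _ _)]
    have h2 := int_cos (l + 1) (by omega)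
    push_cast at h2
    rw [h2, add_zero]
    by_cases hl : l = 0
    · subst hl
      simp
      norm_num
    · rw [int_cos l (by omega), if_neg hl]
  rw [Finset.sum_congr rfl h1, Finset.sum_ite_eq' (Finset.range m) 0 (fun _ => (1 : ℝ)),
    if_pos (Finset.mem_range.2 (by omega))]

/-- the domain of integration -/
def AA (ε : ℝ) : Set ℝ := {t : ℝ | ε < |t| ∧ |t| ≤ 1 / 2}

theorem AA_eq {ε : ℝ} : AA ε = Icc (-(1 / 2 : ℝ)) (1 / 2) \ Icc (-ε) ε := by
  ext t
  simp only [AA, mem_setOf_eq, Set.mem_sdiff, mem_Icc, ← abs_le, not_le]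
  exact and_comm

theorem AA_meas (ε : ℝ) : MeasurableSet (AA ε) := by
  rw [AA_eq]
  exact measurableSet_Icc.diff measurableSet_Icc

theorem sin_ne {ε t : ℝ} (hε : 0 < ε) (ht : t ∈ AA ε) : Real.sin (Real.pi * t) ≠ 0 := by
  obtain ⟨h1, h2⟩ := ht
  have hpi := Real.pi_pos
  rcases lt_or_ge 0 t with h | h
  · rw [abs_of_pos h] at h1 h2
    refine (Real.sin_pos_of_pos_of_lt_pi (by positivity) ?_).ne'
    nlinarith
  · rw [abs_of_nonpos h] at h1 h2
    have h3 : 0 < Real.sin (Real.pi * (-t)) := by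
      refine Real.sin_pos_of_pos_of_lt_pi (by nlinarith) ?_
      nlinarith
    rw [mul_neg, Real.sin_neg] at h3
    intro h4
    linarith

theorem int_AA {ε : ℝ} (hε : 0 < ε) (hε2 : ε < 1 / 2) (m : ℕ) (hm : 1 ≤ m) :
    |(∫ t in AA ε, E m t) - 1| ≤ 4 * m * ε := by
  have hsub : Icc (-ε) ε ⊆ Icc (-(1 / 2 : ℝ)) (1 / 2) := Icc_subset_Icc (by linarith) hε2.le
  have h1 : ∫ t in AA ε, E m t = (∫ t in Icc (-(1 / 2 : ℝ)) (1 / 2), E m t) - ∫ t in Icc (-ε) ε, E m t := by
    rw [AA_eq]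
    exact setIntegral_sdiff measurableSet_Icc ((E_cont m).continuousOn.integrableOn_compact isCompact_Icc) hsub
  have h2 : ∫ t in Icc (-(1 / 2 : ℝ)) (1 / 2), E m t = 1 := by
    rw [integral_Icc_eq_integral_Ioc, ← intervalIntegral.integral_of_le (by norm_num)]
    exact int_E m hm
  have h3 : ‖∫ t in Icc (-ε) ε, E m t‖ ≤ 2 * m * (2 * ε) := by
    have h4 := norm_setIntegral_le_of_norm_le_const (μ := volume) (s := Icc (-ε) ε) (f := E m)
      (C := 2 * m) (by rw [Real.volume_Icc]; exact ENNReal.ofReal_lt_top) (fun t _ => E_bound m t)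
    refine h4.trans (le_of_eq ?_)
    rw [Measure.real, Real.volume_Icc, ENNReal.toReal_ofReal (by linarith)]
    ring
  rw [h1, h2]
  have : (1 - ∫ t in Icc (-ε) ε, E m t) - 1 = -∫ t in Icc (-ε) ε, E m t := by ring
  rw [this, abs_neg, ← Real.norm_eq_abs]
  linarith

theorem int_D {ε : ℝ} (hε : 0 < ε) (hε2 : ε < 1 / 2) (m : ℤ) :
    |(∫ t in AA ε, Real.cot (Real.pi * t) * Real.sin (2 * Real.pi * m * t)) - (Int.sign m : ℤ)| ≤
      4 * |(m : ℝ)| * ε := by
  have key : ∀ m : ℕ, |(∫ t in AA ε, Real.cot (Real.pi * t) * Real.sin (2 * Real.pi * (m : ℤ) * t))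
      - (Int.sign (m : ℤ) : ℤ)| ≤ 4 * |((m : ℤ) : ℝ)| * ε := by
    intro m
    rcases Nat.eq_zero_or_pos m with rfl | hm
    · simp
    · have h1 : ∫ t in AA ε, Real.cot (Real.pi * t) * Real.sin (2 * Real.pi * (m : ℤ) * t) =
          ∫ t in AA ε, E m t := by
        refine setIntegral_congr_fun (AA_meas ε) fun t ht => ?_
        have := D_eq m t (sin_ne hε ht)
        simpa using this
      rw [h1, Int.sign_eq_one_of_pos (by exact_mod_cast hm)]
      have h2 := int_AA hε hε2 m hm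
      rw [Int.cast_natCast, Nat.abs_cast]
      simpa using h2
  obtain ⟨n, rfl | rfl⟩ := m.eq_nat_or_neg
  · exact key n
  · have h1 : (∫ t in AA ε, Real.cot (Real.pi * t) * Real.sin (2 * Real.pi * ((-(n : ℤ) : ℤ) : ℝ) * t)) =
        -∫ t in AA ε, Real.cot (Real.pi * t) * Real.sin (2 * Real.pi * (n : ℤ) * t) := by
      rw [← integral_neg]
      congr 1
      ext t
      push_cast
      rw [show 2 * Real.pi * (-(n : ℝ)) * t = -(2 * Real.pi * n * t) by ring, Real.sin_neg]
      ring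
    rw [h1, Int.sign_neg]
    have h2 := key n
    rw [← abs_neg] at h2
    have h3 : |(((-(n : ℤ)) : ℤ) : ℝ)| = |((n : ℤ) : ℝ)| := by
      push_cast
      exact abs_neg _
    rw [h3]
    refine le_trans (le_of_eq ?_) h2
    congr 1
    push_cast
    ring

theorem int_C (ε : ℝ) (m : ℤ) :
    ∫ t in AA ε, Real.cot (Real.pi * t) * Real.cos (2 * Real.pi * m * t) = 0 := by
  rw [← integral_indicator (AA_meas ε)]
  have h1 := integral_neg_eq_self ((AA ε).indicator fun t => Real.cot (Real.pi * t) *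
    Real.cos (2 * Real.pi * m * t)) volume
  have h2 : (fun t : ℝ => (AA ε).indicator (fun t => Real.cot (Real.pi * t) *
      Real.cos (2 * Real.pi * m * t)) (-t)) = fun t => -((AA ε).indicator (fun t =>
        Real.cot (Real.pi * t) * Real.cos (2 * Real.pi * m * t)) t) := by
    ext t
    have h3 : -t ∈ AA ε ↔ t ∈ AA ε := by simp [AA]
    by_cases h4 : t ∈ AA ε
    · rw [indicator_of_mem h4, indicator_of_mem (h3.2 h4), Real.cot_eq_cos_div_sin,
        Real.cot_eq_cos_div_sin, mul_neg, mul_neg, Real.cos_neg, Real.cos_neg, Real.sin_neg]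
      ring
    · rw [indicator_of_notMem h4, indicator_of_notMem (fun h => h4 (h3.1 h)), neg_zero]
  rw [h2, integral_neg] at h1
  linarith

theorem cot_contOn {ε : ℝ} (hε : 0 < ε) :
    ContinuousOn (fun t : ℝ => Real.cot (Real.pi * t)) (Icc (-(1 / 2 : ℝ)) (-ε) ∪ Icc ε (1 / 2)) := by
  have : (fun t : ℝ => Real.cot (Real.pi * t)) = fun t => Real.cos (Real.pi * t) / Real.sin (Real.pi * t) := by
    ext t
    exact Real.cot_eq_cos_div_sin _
  rw [this]
  refine ContinuousOn.div (by fun_prop) (by fun_prop) fun t ht => ?_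
  refine sin_ne (ε := ε / 2) (by linarith) ?_
  rcases ht with ht | ht
  · refine ⟨?_, ?_⟩
    · rw [abs_of_nonpos (by linarith [ht.2])]
      linarith [ht.2]
    · rw [abs_of_nonpos (by linarith [ht.2])]
      linarith [ht.1]
  · refine ⟨?_, ?_⟩
    · rw [abs_of_nonneg (by linarith [ht.1])]
      linarith [ht.1]
    · rw [abs_of_nonneg (by linarith [ht.1])]
      linarith [ht.2]

/-- integrability on `AA ε` of `cot` times a continuous function -/
theorem integrableOn_cot {ε : ℝ} (hε : 0 < ε) {g : ℝ → ℂ} (hg : Continuous g) :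
    IntegrableOn (fun t : ℝ => ((Real.cot (Real.pi * t) : ℝ) : ℂ) * g t) (AA ε) := by
  have h1 : IntegrableOn (fun t : ℝ => ((Real.cot (Real.pi * t) : ℝ) : ℂ) * g t)
      (Icc (-(1 / 2 : ℝ)) (-ε) ∪ Icc ε (1 / 2)) := by
    refine ContinuousOn.integrableOn_compact (isCompact_Icc.union isCompact_Icc) ?_
    exact (Complex.continuous_ofReal.comp_continuousOn (cot_contOn hε)).mul hg.continuousOn
  refine h1.mono_set ?_
  rintro t ⟨h2, h3⟩
  rcases le_or_gt 0 t with h | h
  · right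
    rw [abs_of_nonneg h] at h2 h3
    exact ⟨h2.le, h3⟩
  · left
    rw [abs_of_neg h] at h2 h3
    exact ⟨by linarith, by linarith⟩

end CotAux

open CotAux in
theorem c_Cot : S_Cot := by
  intro m ε hε hε2
  have e : ∫ t in {t : ℝ | ε < |t| ∧ |t| ≤ 1 / 2}, ((Real.cot (Real.pi * t) : ℝ) : ℂ) * ee m t =
      Complex.I * ((∫ t in AA ε, Real.cot (Real.pi * t) * Real.sin (2 * Real.pi * m * t) : ℝ) : ℂ) := by
    change ∫ t in AA ε, ((Real.cot (Real.pi * t) : ℝ) : ℂ) * ee m t = _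
    have h1 : ∀ t : ℝ, ((Real.cot (Real.pi * t) : ℝ) : ℂ) * ee m t =
        (((Real.cot (Real.pi * t) : ℝ) : ℂ) * ((Real.cos (2 * Real.pi * m * t) : ℝ) : ℂ)) +
        Complex.I * (((Real.cot (Real.pi * t) : ℝ) : ℂ) * ((Real.sin (2 * Real.pi * m * t) : ℝ) : ℂ)) := by
      intro t
      rw [ee_eq]
      ring
    simp_rw [h1]
    have i1 : IntegrableOn (fun t : ℝ => ((Real.cot (Real.pi * t) : ℝ) : ℂ) *
        ((Real.cos (2 * Real.pi * m * t) : ℝ) : ℂ)) (AA ε) := integrableOn_cot hε (by fun_prop)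
    have i2 : IntegrableOn (fun t : ℝ => ((Real.cot (Real.pi * t) : ℝ) : ℂ) *
        ((Real.sin (2 * Real.pi * m * t) : ℝ) : ℂ)) (AA ε) := integrableOn_cot hε (by fun_prop)
    rw [integral_add i1 (i2.const_mul _), integral_const_mul]
    simp_rw [← Complex.ofReal_mul]
    rw [integral_complex_ofReal, integral_complex_ofReal, int_C, Complex.ofReal_zero, zero_add]
  rw [e, ← mul_sub, norm_mul, Complex.norm_I, one_mul]
  have h := int_D hε hε2 m
  rw [← Complex.ofReal_intCast, ← Complex.ofReal_sub, Complex.norm_real, Real.norm_eq_abs]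
  exact h

end Pool.Agent.MP777
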