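import Pool.Agent.Lib.MP_777af9_an.Spec

/-! # MP_777af9_an: smooth layer decomposition -/

open MeasureTheory Set Filter Topology
open scoped ENNReal

noncomputable section

namespace Pool.Agent.MP777

namespace DecAux

/-- the smooth cut-off at the level `b` -/
def T (f : ℝ → ℂ) (b : ℝ) (x : ℝ) : ℝ := Real.smoothTransition ((4 * (‖f x‖ ^ 2 / b ^ 2) - 1) / 3)

theorem T_smooth {f : ℝ → ℂ} (hf : Sm f) (b : ℝ) : SmR (T f b) := by
  refine ⟨?_, fun x => ?_⟩
  · have h1 : ContDiff ℝ (⊤ : ℕ∞) (fun x => ‖f x‖ ^ 2) := hf.1.norm_sq ℝ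
    exact Real.smoothTransition.contDiff.comp
      ((((h1.div_const _).const_smul (4 : ℝ)).sub contDiff_const).div_const 3)
  · unfold T
    rw [hf.2 x]

theorem T_unit (f : ℝ → ℂ) (b x : ℝ) : 0 ≤ T f b x ∧ T f b x ≤ 1 :=
  ⟨Real.smoothTransition.nonneg _, Real.smoothTransition.le_one _⟩

theorem T_one {f : ℝ → ℂ} {b x : ℝ} (hb : 0 < b) (h : b ≤ ‖f x‖) : T f b x = 1 := by
  refine Real.smoothTransition.one_of_one_le ?_
  have h1 : 1 ≤ ‖f x‖ ^ 2 / b ^ 2 := by
    rw [one_le_div (by positivity)]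
    exact pow_le_pow_left₀ hb.le h 2
  linarith

theorem T_zero {f : ℝ → ℂ} {b x : ℝ} (hb : 0 < b) (h : ‖f x‖ ≤ b / 2) : T f b x = 0 := by
  refine Real.smoothTransition.zero_of_nonpos ?_
  have h1 : ‖f x‖ ^ 2 / b ^ 2 ≤ 1 / 4 := by
    rw [div_le_iff₀ (by positivity)]
    have := pow_le_pow_left₀ (norm_nonneg _) h 2
    nlinarith
  linarith

theorem sm_mulR {f : ℝ → ℂ} (hf : Sm f) {h : ℝ → ℝ} (hh : SmR h) : Sm (fun x => f x * ((h x : ℝ) : ℂ)) :=
  ⟨hf.1.mul (Complex.ofRealCLM.contDiff.comp hh.1), fun x => by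
    show f (x + 1) * ((h (x + 1) : ℝ) : ℂ) = _
    rw [hf.2 x, hh.2 x]⟩

theorem smR_sub {g h : ℝ → ℝ} (hg : SmR g) (hh : SmR h) : SmR (fun x => g x - h x) :=
  ⟨hg.1.sub hh.1, fun x => by
    show g (x + 1) - h (x + 1) = _
    rw [hg.2 x, hh.2 x]⟩

theorem smR_const (c : ℝ) : SmR (fun _ => c) := ⟨contDiff_const, fun _ => rfl⟩

/-- the layer `f (T b - T (2 b))` -/
def lay (f : ℝ → ℂ) (b : ℝ) : ℝ → ℂ := fun x => f x * ((T f b x - T f (2 * b) x : ℝ) : ℂ)

theorem meas_mono {A B : Set ℝ} (h : ∀ x, x ∈ A → x ∈ B) :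
    (volume {x ∈ Ioc (0 : ℝ) 1 | x ∈ A}).toReal ≤ (volume {x ∈ Ioc (0 : ℝ) 1 | x ∈ B}).toReal := by
  refine ENNReal.toReal_mono ?_ (measure_mono fun x hx => ⟨hx.1, h x hx.2⟩)
  refine ne_top_of_le_ne_top ?_ (measure_mono (sep_subset _ _))
  rw [Real.volume_Ioc]
  exact ENNReal.ofReal_ne_top

theorem dfn_anti (f : ℝ → ℂ) {l l' : ℝ} (h : l ≤ l') : dfn f l' ≤ dfn f l :=
  meas_mono (A := {x | l' < ‖f x‖}) (B := {x | l < ‖f x‖}) fun _ hx => lt_of_le_of_lt h hx

/-- the estimate of one layer -/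
theorem lay_bound (hQ : QC) (hA : ClaimA) {f : ℝ → ℂ} (hf : Sm f) {b : ℝ} (hb : 0 < b) :
    CL1 (lay f b) ≤ 96 * ∫⁻ l in Ioc (b / 8) (b / 4), aa (dfn f l) := by
  have h1 := hA (lay f b) (T f (b / 2)) (2 * b) (sm_mulR hf (smR_sub (T_smooth hf b) (T_smooth hf (2 * b))))
    (T_smooth hf _) (by positivity) (T_unit f _) (fun x hx => by
      refine T_one (by positivity) ?_
      by_contra hlt
      rw [not_le] at hlt
      apply hx
      unfold lay
      rw [T_zero hb hlt.le, T_zero (by positivity) (by linarith)]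
      simp) (fun x => by
      unfold lay
      rw [norm_mul, Complex.norm_real, Real.norm_eq_abs]
      by_cases h : 2 * b ≤ ‖f x‖
      · rw [T_one (by positivity) h, T_one hb (by linarith)]
        simp
        positivity
      · have h2 : |T f b x - T f (2 * b) x| ≤ 1 := by
          have h3 := T_unit f b x
          have h4 := T_unit f (2 * b) x
          rw [abs_le]
          constructor <;> linarith
        calc ‖f x‖ * |T f b x - T f (2 * b) x| ≤ (2 * b) * 1 :=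
            mul_le_mul (by linarith) h2 (abs_nonneg _) (by positivity)
          _ = _ := mul_one _)
  have h2 : aa (volume {x ∈ Ioc (0 : ℝ) 1 | T f (b / 2) x ≠ 0}).toReal ≤ aa (dfn f (b / 4)) := by
    refine hQ.mono _ _ (meas_mono (A := {x | T f (b / 2) x ≠ 0}) (B := {x | b / 4 < ‖f x‖}) fun x hx => ?_)
    by_contra hlt
    exact hx (T_zero (by positivity) (by
      have : ‖f x‖ ≤ b / 4 := not_lt.1 hlt
      linarith))
  have h3 : ENNReal.ofReal (b / 8) * aa (dfn f (b / 4)) ≤ ∫⁻ l in Ioc (b / 8) (b / 4), aa (dfn f l) := by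
    calc ENNReal.ofReal (b / 8) * aa (dfn f (b / 4))
        = ∫⁻ _ in Ioc (b / 8) (b / 4), aa (dfn f (b / 4)) := by
          rw [setLIntegral_const, Real.volume_Ioc, mul_comm]
          congr 2
          ring
      _ ≤ _ := by
          refine setLIntegral_mono_ae' measurableSet_Ioc (Eventually.of_forall fun l hl => ?_)
          exact hQ.mono _ _ (dfn_anti f hl.2)
  calc CL1 (lay f b) ≤ 6 * ENNReal.ofReal (2 * b) *
        aa (volume {x ∈ Ioc (0 : ℝ) 1 | T f (b / 2) x ≠ 0}).toReal := h1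
    _ ≤ 6 * ENNReal.ofReal (2 * b) * aa (dfn f (b / 4)) := by gcongr
    _ = 96 * (ENNReal.ofReal (b / 8) * aa (dfn f (b / 4))) := by
        rw [show 2 * b = 16 * (b / 8) by ring, ENNReal.ofReal_mul (by norm_num)]
        rw [show ENNReal.ofReal 16 = 16 by norm_num]
        ring
    _ ≤ _ := by gcongr

/-- the bottom part -/
theorem bot_bound (hA : ClaimA) {f : ℝ → ℂ} (hf : Sm f) {b : ℝ} (hb : 0 < b) :
    CL1 (fun x => f x * ((1 - T f b x : ℝ) : ℂ)) ≤ 6 * ENNReal.ofReal b * aa 1 := by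
  have h1 := hA (fun x => f x * ((1 - T f b x : ℝ) : ℂ)) (fun _ => 1) b
    (sm_mulR hf (smR_sub (smR_const 1) (T_smooth hf b))) (smR_const 1) hb (fun _ => ⟨zero_le_one, le_rfl⟩)
    (fun _ _ => rfl) (fun x => by
      rw [norm_mul, Complex.norm_real, Real.norm_eq_abs]
      by_cases h : b ≤ ‖f x‖
      · rw [T_one hb h]
        simp
        exact hb.le
      · have h2 : |1 - T f b x| ≤ 1 := by
          have h3 := T_unit f b x
          rw [abs_le]
          constructor <;> linarith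
        calc ‖f x‖ * |1 - T f b x| ≤ b * 1 :=
            mul_le_mul (by linarith) h2 (abs_nonneg _) hb.le
          _ = _ := mul_one _)
  have h2 : {x ∈ Ioc (0 : ℝ) 1 | (1 : ℝ) ≠ 0} = Ioc 0 1 := by
    ext x
    simp
  rw [h2, Real.volume_Ioc] at h1
  simpa using h1

theorem sum_int (F : ℝ → ℝ≥0∞) {L : ℝ} (hL : 0 < L) (n : ℕ) :
    ∑ i ∈ Finset.range n, ∫⁻ l in Ioc (L / 2 ^ (i + 1) / 8) (L / 2 ^ (i + 1) / 4), F l ≤
      ∫⁻ l in Ioi (0 : ℝ), F l := by
  have key : ∑ i ∈ Finset.range n, ∫⁻ l in Ioc (L / 2 ^ (i + 1) / 8) (L / 2 ^ (i + 1) / 4), F l ≤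
      ∫⁻ l in Ioc (L / 2 ^ (n + 1) / 4) (L / 2 / 4), F l := by
    induction n with
    | zero => simp
    | succ n ih =>
      rw [Finset.sum_range_succ]
      have h1 : L / 2 ^ (n + 1 + 1) / 4 = L / 2 ^ (n + 1) / 8 := by
        rw [pow_succ (2 : ℝ) (n + 1)]
        field_simp
        norm_num
      have h2 : Ioc (L / 2 ^ (n + 1 + 1) / 4) (L / 2 / 4) =
          Ioc (L / 2 ^ (n + 1) / 4) (L / 2 / 4) ∪ Ioc (L / 2 ^ (n + 1) / 8) (L / 2 ^ (n + 1) / 4) := by
        rw [h1, union_comm, Ioc_union_Ioc_eq_Ioc]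
        · have : 0 < L / 2 ^ (n + 1) := by positivity
          linarith
        · have h3 : L / 2 ^ (n + 1) ≤ L / 2 := by
            refine div_le_div_of_nonneg_left hL.le (by norm_num) ?_
            calc (2 : ℝ) = 2 ^ 1 := by norm_num
              _ ≤ 2 ^ (n + 1) := pow_le_pow_right₀ (by norm_num) (by omega)
          linarith
      rw [h2, lintegral_union measurableSet_Ioc]
      · gcongr
      · rw [disjoint_left]
        rintro x hx hx'
        exact absurd hx.1 (not_lt.2 hx'.2)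
  refine key.trans (lintegral_mono_set fun x hx => ?_)
  exact lt_trans (by positivity) hx.1

theorem dfn_pos {f : ℝ → ℂ} (hf : Sm f) {x₀ l : ℝ} (h : l < ‖f x₀‖) : 0 < dfn f l := by
  have h1 : l < ‖f (Int.fract x₀)‖ := by
    have : f (Int.fract x₀) = f x₀ := by
      rw [Int.fract]
      simpa using hf.2.sub_zsmul_eq (x := x₀) ⌊x₀⌋
    rwa [this]
  have hopen : IsOpen {x | l < ‖f x‖} := isOpen_lt continuous_const hf.1.continuous.norm
  obtain ⟨ε, hε, hball⟩ := Metric.isOpen_iff.1 hopen (Int.fract x₀) h1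
  have h0 := Int.fract_nonneg x₀
  have h2 := Int.fract_lt_one x₀
  have hsub : Ioo (Int.fract x₀) (min (Int.fract x₀ + ε) 1) ⊆ {x ∈ Ioc (0 : ℝ) 1 | l < ‖f x‖} := by
    intro y hy
    have hy1 := hy.1
    have hy2 := lt_min_iff.1 hy.2
    refine ⟨⟨by linarith, hy2.2.le⟩, hball ?_⟩
    rw [Metric.mem_ball, Real.dist_eq, abs_of_pos (by linarith)]
    linarith
  refine ENNReal.toReal_pos ?_ ?_
  · refine (lt_of_lt_of_le ?_ (measure_mono hsub)).ne'
    rw [Real.volume_Ioo, ENNReal.ofReal_pos, sub_pos]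
    exact lt_min (by linarith) h2
  · refine ne_top_of_le_ne_top ?_ (measure_mono (sep_subset _ _))
    rw [Real.volume_Ioc]
    exact ENNReal.ofReal_ne_top

theorem dfn_le_one (f : ℝ → ℂ) (l : ℝ) : dfn f l ≤ 1 := by
  unfold dfn
  refine ENNReal.toReal_le_of_le_ofReal zero_le_one ?_
  refine (measure_mono (sep_subset _ _)).trans ?_
  rw [Real.volume_Ioc]
  norm_num

end DecAux

open DecAux in
theorem c_Dec : S_Dec := by
  intro hC hQ hA f hf
  -- the decomposition
  obtain ⟨M, hM⟩ := isCompact_Icc.exists_bound_of_continuousOn (s := Icc (0 : ℝ) 1)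
    hf.1.continuous.continuousOn
  have hM' : ∀ x, ‖f x‖ ≤ M := fun x => by
    have : f (Int.fract x) = f x := by
      rw [Int.fract]
      simpa using hf.2.sub_zsmul_eq (x := x) ⌊x⌋
    rw [← this]
    exact hM _ ⟨Int.fract_nonneg x, (Int.fract_lt_one x).le⟩
  have hM0 : 0 ≤ M := (norm_nonneg _).trans (hM' 0)
  obtain ⟨L, hL⟩ : ∃ L : ℝ, L = 2 * (M + 1) := ⟨_, rfl⟩
  have hL0 : 0 < L := by linarith
  have hdec : ∀ n : ℕ, CL1 f ≤ CL1 (fun x => f x * ((1 - T f (L / 2 ^ n) x : ℝ) : ℂ)) +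
      ∑ i ∈ Finset.range n, CL1 (lay f (L / 2 ^ (i + 1))) := by
    intro n
    induction n with
    | zero =>
      simp only [Finset.range_zero, Finset.sum_empty, add_zero, pow_zero, div_one]
      refine le_of_eq ?_
      congr 1
      ext x
      rw [T_zero hL0 (by linarith [hM' x])]
      simp
    | succ n ih =>
      refine ih.trans ?_
      rw [Finset.sum_range_succ, add_comm (∑ i ∈ Finset.range n, CL1 (lay f (L / 2 ^ (i + 1)))),
        ← add_assoc]
      gcongr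
      have h1 := hC.add (fun x => f x * ((1 - T f (L / 2 ^ (n + 1)) x : ℝ) : ℂ))
        (lay f (L / 2 ^ (n + 1))) (sm_mulR hf (smR_sub (smR_const 1) (T_smooth hf _)))
        (sm_mulR hf (smR_sub (T_smooth hf _) (T_smooth hf _)))
      refine le_trans (le_of_eq ?_) h1
      congr 1
      ext x
      unfold lay
      rw [show 2 * (L / 2 ^ (n + 1)) = L / 2 ^ n by
        rw [pow_succ]
        field_simp]
      push_cast
      ring
  have hb : ∀ n : ℕ, CL1 f ≤ 6 * ENNReal.ofReal (L / 2 ^ n) * aa 1 +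
      96 * ∫⁻ l in Ioi (0 : ℝ), aa (dfn f l) := by
    intro n
    refine (hdec n).trans (add_le_add (bot_bound hA hf (by positivity)) ?_)
    calc ∑ i ∈ Finset.range n, CL1 (lay f (L / 2 ^ (i + 1)))
        ≤ ∑ i ∈ Finset.range n, 96 * ∫⁻ l in Ioc (L / 2 ^ (i + 1) / 8) (L / 2 ^ (i + 1) / 4),
            aa (dfn f l) := Finset.sum_le_sum fun i _ => lay_bound hQ hA hf (by positivity)
      _ = 96 * ∑ i ∈ Finset.range n, ∫⁻ l in Ioc (L / 2 ^ (i + 1) / 8) (L / 2 ^ (i + 1) / 4),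
            aa (dfn f l) := by rw [Finset.mul_sum]
      _ ≤ _ := by
          gcongr
          exact sum_int _ hL0 n
  by_cases h1 : aa 1 = ⊤
  · by_cases hz : ∃ x₀, f x₀ ≠ 0
    · obtain ⟨x₀, hx₀⟩ := hz
      have hn : 0 < ‖f x₀‖ := norm_pos_iff.2 hx₀
      have h2 : ∀ l ∈ Ioo (0 : ℝ) ‖f x₀‖, aa (dfn f l) = ⊤ := by
        intro l hl
        have h3 := dfn_pos hf hl.2
        have h4 := hQ.star (dfn f l) 1 h3 (dfn_le_one f l)
        rw [h1, div_one, ENNReal.mul_top (by rwa [Ne, ENNReal.ofReal_eq_zero, not_le])] at h4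
        exact top_le_iff.1 h4
      have h3 : ∫⁻ l in Ioi (0 : ℝ), aa (dfn f l) = ⊤ := by
        rw [← top_le_iff]
        calc (⊤ : ℝ≥0∞) = ∫⁻ _ in Ioo (0 : ℝ) ‖f x₀‖, ⊤ := by
              rw [setLIntegral_const, Real.volume_Ioo, sub_zero, ENNReal.top_mul]
              rwa [Ne, ENNReal.ofReal_eq_zero, not_le]
          _ ≤ ∫⁻ l in Ioo (0 : ℝ) ‖f x₀‖, aa (dfn f l) :=
              setLIntegral_mono_ae' measurableSet_Ioo (Eventually.of_forall fun l hl => (h2 l hl).ge)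
          _ ≤ _ := lintegral_mono_set Ioo_subset_Ioi_self
      rw [h3, ENNReal.mul_top (by norm_num)]
      exact le_top
    · push Not at hz
      have h2 := hC.smul f 0 hf
      have h3 : (fun y => (0 : ℂ) * f y) = f := by
        ext y
        rw [hz y, mul_zero]
      rw [h3, enorm_zero, zero_mul] at h2
      rw [h2]
      exact zero_le
  · have hlim : Tendsto (fun n : ℕ => 6 * ENNReal.ofReal (L / 2 ^ n) * aa 1 +
        96 * ∫⁻ l in Ioi (0 : ℝ), aa (dfn f l)) atTop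
        (𝓝 (6 * ENNReal.ofReal 0 * aa 1 + 96 * ∫⁻ l in Ioi (0 : ℝ), aa (dfn f l))) := by
      refine Tendsto.add_const _ ?_
      refine ENNReal.Tendsto.mul_const (ENNReal.Tendsto.const_mul ?_ (Or.inr (by norm_num))) (Or.inr h1)
      refine ENNReal.tendsto_ofReal ?_
      have h2 : Tendsto (fun n : ℕ => L * (1 / 2 : ℝ) ^ n) atTop (𝓝 (L * 0)) :=
        (tendsto_pow_atTop_nhds_zero_of_lt_one (by norm_num) (by norm_num)).const_mul L
      rw [mul_zero] at h2
      refine h2.congr fun n => ?_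
      rw [one_div, inv_pow]
      rfl
    have h2 := ge_of_tendsto' hlim hb
    simpa using h2

end Pool.Agent.MP777
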