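import Pool.Agent.Lib.MP_777af9_an.Spec

/-! The bound for one layer. -/

open MeasureTheory Set Filter Topology
open scoped ENNReal

noncomputable section

namespace Pool.Agent.MP777

namespace DecAAux

lemma mass_le {g ζ : ℝ → ℝ} (hg : SmR g) (hζ : SmR ζ) (h01 : ∀ x, 0 ≤ g x ∧ g x ≤ 1)
    (h0 : ∀ x, ζ x = 0 → g x = 0) :
    mass g ≤ (volume {x ∈ Ioc (0 : ℝ) 1 | ζ x ≠ 0}).toReal := by
  have hm : MeasurableSet {x : ℝ | ζ x ≠ 0} := by
    have h1 : IsOpen {x : ℝ | ζ x ≠ 0} := isOpen_ne_fun hζ.1.continuous continuous_const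
    exact h1.measurableSet
  unfold mass
  rw [intervalIntegral.integral_of_le zero_le_one]
  have h1 : ∫ x in Ioc (0 : ℝ) 1, g x ≤
      ∫ x in Ioc (0 : ℝ) 1, ({x : ℝ | ζ x ≠ 0}.indicator (fun _ => (1 : ℝ))) x := by
    apply integral_mono
    · exact (hg.1.continuous.integrableOn_Icc (a := 0) (b := 1)).mono_set Ioc_subset_Icc_self
    · exact (integrable_const (1 : ℝ)).indicator hm
    · intro x
      by_cases hx : ζ x = 0
      · beta_reduce
        rw [h0 x hx]
        exact Set.indicator_nonneg (fun _ _ => zero_le_one) _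
      · have h2 : x ∈ {x : ℝ | ζ x ≠ 0} := hx
        beta_reduce
        rw [Set.indicator_of_mem h2]
        exact (h01 x).2
  rw [setIntegral_indicator hm, setIntegral_const, smul_eq_mul, mul_one] at h1
  exact h1

lemma real_part (hC : CLprops) {v ζ : ℝ → ℝ} {b : ℝ} (hv : SmR v) (hζ : SmR ζ) (hb : 0 < b)
    (h01 : ∀ x, 0 ≤ ζ x ∧ ζ x ≤ 1) (hvb : ∀ x, |v x| ≤ b * ζ x) :
    CL1 (cx v) ≤ 3 * ENNReal.ofReal b * aa (volume {x ∈ Ioc (0 : ℝ) 1 | ζ x ≠ 0}).toReal := by
  obtain ⟨s, hs⟩ : ∃ s, s = (volume {x ∈ Ioc (0 : ℝ) 1 | ζ x ≠ 0}).toReal := ⟨_, rfl⟩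
  obtain ⟨g, hg⟩ : ∃ g : ℝ → ℝ, g = fun x => (v x + b * ζ x) / (2 * b) := ⟨_, rfl⟩
  have hgS : SmR g := by
    rw [hg]
    constructor
    · exact (hv.1.add (contDiff_const.mul hζ.1)).div_const _
    · intro x
      beta_reduce
      rw [hv.2 x, hζ.2 x]
  have hg01 : ∀ x, 0 ≤ g x ∧ g x ≤ 1 := by
    intro x
    have h1 := abs_le.1 (hvb x)
    have h2 := h01 x
    rw [hg]
    constructor
    · apply div_nonneg _ (by linarith)
      linarith [h1.1]
    · beta_reduce
      rw [div_le_one (by linarith)]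
      nlinarith [h1.2, h2.2]
  have hg0 : ∀ x, ζ x = 0 → g x = 0 := by
    intro x hx
    have h1 := hvb x
    rw [hx, mul_zero] at h1
    have h2 : v x = 0 := abs_nonpos_iff.1 h1
    rw [hg]
    beta_reduce
    rw [h2, hx, mul_zero, add_zero, zero_div]
  have m1 : Unit1 s g := ⟨hgS, hg01, by rw [hs]; exact mass_le hgS hζ hg01 hg0⟩
  have m2 : Unit1 s ζ := ⟨hζ, h01, by rw [hs]; exact mass_le hζ hζ h01 (fun _ h => h)⟩
  have a1 : CL1 (cx g) ≤ aa s := le_iSup₂_of_le g m1 le_rfl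
  have a2 : CL1 (cx ζ) ≤ aa s := le_iSup₂_of_le ζ m2 le_rfl
  have smcx : ∀ f : ℝ → ℝ, SmR f → Sm (cx f) := by
    intro f hf
    constructor
    · exact Complex.ofRealCLM.contDiff.comp hf.1
    · intro x
      unfold cx
      rw [hf.2 x]
  have smmul : ∀ (f : ℝ → ℂ) (c : ℂ), Sm f → Sm (fun y => c * f y) := by
    intro f c hf
    constructor
    · exact contDiff_const.mul hf.1
    · intro x
      beta_reduce
      rw [hf.2 x]
  have e1 : cx v = fun y => ((2 * b : ℝ) : ℂ) * cx g y + ((-b : ℝ) : ℂ) * cx ζ y := by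
    funext y
    unfold cx
    rw [hg]
    beta_reduce
    rw [← Complex.ofReal_mul, ← Complex.ofReal_mul, ← Complex.ofReal_add]
    congr 1
    field_simp
    ring
  rw [e1]
  refine (hC.add _ _ (smmul _ _ (smcx g hgS)) (smmul _ _ (smcx ζ hζ))).trans ?_
  rw [hC.smul _ _ (smcx g hgS), hC.smul _ _ (smcx ζ hζ)]
  have n1 : ‖((2 * b : ℝ) : ℂ)‖ₑ = 2 * ENNReal.ofReal b := by
    rw [← ofReal_norm, Complex.norm_real, Real.norm_eq_abs, abs_of_pos (by linarith),
      ENNReal.ofReal_mul (by norm_num), ENNReal.ofReal_ofNat]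
  have n2 : ‖((-b : ℝ) : ℂ)‖ₑ = ENNReal.ofReal b := by
    rw [← ofReal_norm, Complex.norm_real, Real.norm_eq_abs, abs_neg, abs_of_pos hb]
  rw [n1, n2, ← hs]
  calc 2 * ENNReal.ofReal b * CL1 (cx g) + ENNReal.ofReal b * CL1 (cx ζ)
      ≤ 2 * ENNReal.ofReal b * aa s + ENNReal.ofReal b * aa s :=
        add_le_add (mul_le_mul_right a1 _) (mul_le_mul_right a2 _)
    _ = 3 * ENNReal.ofReal b * aa s := by ring

end DecAAux

open DecAAux in
theorem c_DecA : S_DecA := by
  intro hC u ζ b hu hζ hb h01 hsupp hbd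
  obtain ⟨s, hs⟩ : ∃ s, s = (volume {x ∈ Ioc (0 : ℝ) 1 | ζ x ≠ 0}).toReal := ⟨_, rfl⟩
  have hub : ∀ x, ‖u x‖ ≤ b * ζ x := by
    intro x
    by_cases hx : u x = 0
    · rw [hx, norm_zero]
      exact mul_nonneg hb.le (h01 x).1
    · rw [hsupp x hx, mul_one]
      exact hbd x
  have hR : SmR (fun x => (u x).re) := by
    constructor
    · exact Complex.reCLM.contDiff.comp hu.1
    · intro x
      beta_reduce
      rw [hu.2 x]
  have hI : SmR (fun x => (u x).im) := by
    constructor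
    · exact Complex.imCLM.contDiff.comp hu.1
    · intro x
      beta_reduce
      rw [hu.2 x]
  have r1 := real_part hC hR hζ hb h01 (fun x => (Complex.abs_re_le_norm (u x)).trans (hub x))
  have r2 := real_part hC hI hζ hb h01 (fun x => (Complex.abs_im_le_norm (u x)).trans (hub x))
  have smR : Sm (cx fun x => (u x).re) := by
    constructor
    · exact Complex.ofRealCLM.contDiff.comp hR.1
    · intro x
      unfold cx
      beta_reduce
      rw [hu.2 x]
  have smI : Sm (cx fun x => (u x).im) := by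
    constructor
    · exact Complex.ofRealCLM.contDiff.comp hI.1
    · intro x
      unfold cx
      beta_reduce
      rw [hu.2 x]
  have e1 : u = fun y => cx (fun x => (u x).re) y + Complex.I * cx (fun x => (u x).im) y := by
    funext y
    unfold cx
    rw [mul_comm]
    exact (Complex.re_add_im (u y)).symm
  have e2 : CL1 u ≤ CL1 (cx fun x => (u x).re) + CL1 (fun y => Complex.I * cx (fun x => (u x).im) y) := by
    conv_lhs => rw [e1]
    apply hC.add _ _ smR
    constructor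
    · exact contDiff_const.mul smI.1
    · intro x
      beta_reduce
      rw [smI.2 x]
  rw [hC.smul _ _ smI] at e2
  have n1 : ‖Complex.I‖ₑ = 1 := by
    rw [← ofReal_norm, Complex.norm_I, ENNReal.ofReal_one]
  rw [n1, one_mul] at e2
  calc CL1 u ≤ _ := e2
    _ ≤ _ := add_le_add r1 r2
    _ = _ := by ring

end Pool.Agent.MP777
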