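import Mathlib

/-!
# MP_777af9_an: definitions

Carleson operator on smooth functions of period one, Lorentz spaces on the circle.
-/

open MeasureTheory Set Filter Topology
open scoped ENNReal

noncomputable section

namespace Pool.Agent.MP777

/-- `ee n x = exp (2 π i n x)`. -/
def ee (n : ℤ) (x : ℝ) : ℂ := Complex.exp (2 * Real.pi * Complex.I * (n : ℂ) * (x : ℂ))

/-- Smooth complex functions on the circle (functions on the line of period one). -/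
def Sm (f : ℝ → ℂ) : Prop := ContDiff ℝ (⊤ : ℕ∞) f ∧ Function.Periodic f 1

/-- Smooth real functions on the circle. -/
def SmR (h : ℝ → ℝ) : Prop := ContDiff ℝ (⊤ : ℕ∞) h ∧ Function.Periodic h 1

/-- A real function seen as a complex function. -/
def cx (h : ℝ → ℝ) : ℝ → ℂ := fun x => ((h x : ℝ) : ℂ)

/-- The truncated integral
`∫_{ε < |t| ≤ 1/2} cot (π t) exp (2 π i N t) f (x - t) dt`
(substitute `y = x - t` in the integral of the problem; everything has period one). -/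
def trunc (N : ℤ) (f : ℝ → ℂ) (x ε : ℝ) : ℂ :=
  ∫ t in {t : ℝ | ε < |t| ∧ |t| ≤ 1 / 2}, ((Real.cot (Real.pi * t) : ℝ) : ℂ) * ee N t * f (x - t)

/-- The principal value integral `p.v. ∫ cot (π (x - y)) exp (2 π i N (x - y)) f y dy`. -/
def CN (N : ℤ) (f : ℝ → ℂ) (x : ℝ) : ℂ := limUnder (𝓝[>] (0 : ℝ)) (trunc N f x)

/-- The Carleson operator, supremum over all positive integers `N`. -/
def Cf (f : ℝ → ℂ) (x : ℝ) : ℝ≥0∞ := ⨆ (N : ℕ) (_ : 1 ≤ N), ‖CN (N : ℤ) f x‖ₑ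

/-- The `L¹` norm of the Carleson operator applied to `f`. -/
def CL1 (f : ℝ → ℂ) : ℝ≥0∞ := ∫⁻ x in Ioc (0 : ℝ) 1, Cf f x

/-- The functions which define Lorentz spaces: nondecreasing, concave on `[0,1]`, zero at zero. -/
structure LorFun (φ : ℝ → ℝ) : Prop where
  mono : MonotoneOn φ (Icc 0 1)
  conc : ConcaveOn ℝ (Icc 0 1) φ
  zero : φ 0 = 0

/-- Distribution function `|{x ∈ (0,1] : |f x| > l}|`. -/
def dfn (f : ℝ → ℂ) (l : ℝ) : ℝ := (volume {x ∈ Ioc (0 : ℝ) 1 | l < ‖f x‖}).toReal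

/-- Decreasing rearrangement of `|f|`. -/
def rea (f : ℝ → ℂ) (s : ℝ) : ℝ≥0∞ := ⨅ (l : ℝ) (_ : 0 ≤ l ∧ dfn f l ≤ s), ENNReal.ofReal l

/-- The Lorentz norm `∫₀¹ f* dφ`, written with the layer cake formula `∫₀^∞ φ (dfn f l) dl`
(the equality of both expressions is the statement `S_Stj`). -/
def lor (φ : ℝ → ℝ) (f : ℝ → ℂ) : ℝ≥0∞ := ∫⁻ l in Ioi (0 : ℝ), ENNReal.ofReal (φ (dfn f l))

/-- Strongly admissible: `‖C f‖_{L¹} ≤ c ‖f‖` for all smooth `f`. -/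
def Adm (φ : ℝ → ℝ) : Prop :=
  ∃ c : ℝ, 0 < c ∧ ∀ f : ℝ → ℂ, Sm f → CL1 f ≤ ENNReal.ofReal c * lor φ f

/-- The Lorentz space of `φ'` is contained in the Lorentz space of `φ`. -/
def Contained (φ' φ : ℝ → ℝ) : Prop :=
  ∀ f : ℝ → ℂ, Measurable f → Function.Periodic f 1 → lor φ' f < ⊤ → lor φ f < ⊤

/-- `φ` gives the largest strongly admissible Lorentz space. -/
def IsLargest (φ : ℝ → ℝ) : Prop :=
  LorFun φ ∧ Adm φ ∧ ∀ φ' : ℝ → ℝ, LorFun φ' → Adm φ' → Contained φ' φ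

/-- The function of `L log L`: `φ(t) = t log (e/t)`. -/
def phi1 (t : ℝ) : ℝ := t * Real.log (Real.exp 1 / t)

/-- Fourier coefficients. -/
def co (f : ℝ → ℂ) (n : ℤ) : ℂ := ∫ t in (0 : ℝ)..1, f t * ee (-n) t

/-- Mass `∫₀¹ h`. -/
def mass (h : ℝ → ℝ) : ℝ := ∫ x in (0 : ℝ)..1, h x

/-- Zero set of `h` in one period. -/
def zer (h : ℝ → ℝ) : Set ℝ := {x ∈ Ioc (0 : ℝ) 1 | h x = 0}

/-- Carleson operator with frequencies `1 ≤ N ≤ L`. -/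
def CLm (L : ℕ) (f : ℝ → ℂ) (x : ℝ) : ℝ≥0∞ := ⨆ N ∈ Finset.Icc 1 L, ‖CN ((N : ℕ) : ℤ) f x‖ₑ

/-- `0 ≤ h ≤ 1`, smooth, `∫ h ≤ s`. -/
def Unit1 (s : ℝ) (h : ℝ → ℝ) : Prop := SmR h ∧ (∀ x, 0 ≤ h x ∧ h x ≤ 1) ∧ mass h ≤ s

/-- `aa s = sup { ‖C h‖_{L¹} : 0 ≤ h ≤ 1 smooth, ∫ h ≤ s }`. -/
def aa (s : ℝ) : ℝ≥0∞ := ⨆ (h : ℝ → ℝ) (_ : Unit1 s h), CL1 (cx h)

/-- `h ≥ 0` smooth, not zero, and `sup h < m ∫ h`. -/
def Cls (m : ℝ) (h : ℝ → ℝ) : Prop :=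
  SmR h ∧ (∀ x, 0 ≤ h x) ∧ 0 < mass h ∧ ∀ x, h x < m * mass h

/-- `rr m = sup { ∫_{h = 0} C h / ∫ h : h ≥ 0 smooth, sup h < m ∫ h }`. -/
def rr (m : ℝ) : ℝ≥0∞ :=
  ⨆ (h : ℝ → ℝ) (_ : Cls m h) (L : ℕ),
    (∫⁻ x in zer h, CLm L (cx h) x) / ENNReal.ofReal (mass h)

/-- The tensor product `h(x) g(k x + θ)`. -/
def tens (h g : ℝ → ℝ) (k : ℕ) (θ : ℝ) : ℝ → ℝ := fun x => h x * g ((k : ℝ) * x + θ)

end Pool.Agent.MP777
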