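import Pool.Agent.Lib.MP_777af9_an.Spec

/-!
# MP_777af9_an: the dichotomy and the inclusion in `L log L`
-/

open MeasureTheory Set Filter Topology
open scoped ENNReal

noncomputable section

namespace Pool.Agent.MP777

namespace DichAux

theorem phi1_eq {t : ℝ} (ht : 0 < t) : phi1 t = t * (1 + Real.log t⁻¹) := by
  unfold phi1
  rw [div_eq_mul_inv, Real.log_mul (Real.exp_ne_zero 1) (inv_ne_zero ht.ne'), Real.log_exp]

theorem phi1_pos {t : ℝ} (ht : 0 < t) (h1 : t ≤ 1) : 0 < phi1 t := by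
  rw [phi1_eq ht]
  have : 0 ≤ Real.log t⁻¹ := Real.log_nonneg ((one_le_inv₀ ht).mpr h1)
  positivity

theorem phi1_le_one {t : ℝ} (ht : 0 < t) : phi1 t ≤ 1 := by
  rw [phi1_eq ht]
  have h1 : Real.log t⁻¹ ≤ t⁻¹ - 1 := Real.log_le_sub_one_of_pos (inv_pos.mpr ht)
  have h2 : t * (1 + Real.log t⁻¹) ≤ t * t⁻¹ := by
    apply mul_le_mul_of_nonneg_left _ ht.le
    linarith
  rwa [mul_inv_cancel₀ ht.ne'] at h2

theorem phi1_zero : phi1 0 = 0 := by
  unfold phi1
  rw [zero_mul]

end DichAux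

open DichAux in
/-- **Dich.** -/
theorem c_Dich : S_Dich := by
  intro hCA hComp hFek hSup hpos φ hφ hA
  obtain ⟨c, hc, hcs⟩ := (hCA φ hφ).1 hA
  have hφ0 : ∀ t ∈ Icc (0 : ℝ) 1, 0 ≤ φ t := by
    intro t ht
    have := hφ.mono (left_mem_Icc.mpr zero_le_one) ht ht.1
    rwa [hφ.zero] at this
  have hrr : ∀ t : ℝ, 0 < t → t < 1 → rr t⁻¹ ≤ ENNReal.ofReal (t⁻¹ * (c * φ t)) := by
    intro t ht ht1
    have h1 : 1 < t⁻¹ := (one_lt_inv₀ ht).mpr ht1
    refine (hComp.up t⁻¹ h1).trans ?_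
    rw [one_div, inv_inv, ENNReal.ofReal_mul (inv_pos.mpr ht).le]
    exact mul_le_mul_right (hcs t ⟨ht, ht1.le⟩) _
  obtain ⟨hF1, hF2⟩ := hFek rr hSup
  refine ⟨?_, ?_⟩
  · obtain ⟨c₀, hc₀, hM⟩ := hF2 hpos
    have hhalf : ∀ t : ℝ, 0 < t → t ≤ 1 / 2 → phi1 t ≤ 3 * c / c₀ * φ t := by
      intro t ht ht2
      have hM2 : 2 ≤ t⁻¹ := by
        rw [le_inv_comm₀ two_pos ht]
        linarith
      have h1 := (hM t⁻¹ hM2).trans (hrr t ht (by linarith))
      have hlog2 : Real.log 2 ≤ Real.log t⁻¹ := Real.log_le_log two_pos hM2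
      have hl2 : (1 : ℝ) / 2 ≤ Real.log 2 := by
        have := Real.log_two_gt_d9
        linarith
      have hlpos : 0 < Real.log t⁻¹ := by linarith
      have h2 : c₀ * Real.log t⁻¹ ≤ t⁻¹ * (c * φ t) := by
        rcases ENNReal.ofReal_le_ofReal_iff'.mp h1 with h | h
        · exact h
        · exfalso
          have : 0 < c₀ * Real.log t⁻¹ := mul_pos hc₀ hlpos
          linarith
      have h3 : c₀ * (t * Real.log t⁻¹) ≤ c * φ t := by
        have := mul_le_mul_of_nonneg_left h2 ht.le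
        rw [← mul_assoc t t⁻¹, mul_inv_cancel₀ ht.ne', one_mul] at this
        calc c₀ * (t * Real.log t⁻¹) = t * (c₀ * Real.log t⁻¹) := by ring
          _ ≤ _ := this
      rw [phi1_eq ht]
      have h4 : t * (1 + Real.log t⁻¹) ≤ 3 * (t * Real.log t⁻¹) := by
        have : t * (1 + Real.log t⁻¹) ≤ t * (3 * Real.log t⁻¹) := by
          apply mul_le_mul_of_nonneg_left _ ht.le
          linarith
        calc t * (1 + Real.log t⁻¹) ≤ _ := this
          _ = _ := by ring
      refine h4.trans ?_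
      have h5 : t * Real.log t⁻¹ ≤ c / c₀ * φ t := by
        rw [div_mul_eq_mul_div, le_div_iff₀ hc₀]
        linarith
      calc 3 * (t * Real.log t⁻¹) ≤ 3 * (c / c₀ * φ t) := by linarith
        _ = 3 * c / c₀ * φ t := by ring
    refine ⟨6 * c / c₀, by positivity, ?_⟩
    intro t ht
    rcases eq_or_lt_of_le ht.1 with h0 | h0
    · rw [← h0, phi1_zero, hφ.zero, mul_zero]
    rcases le_total t (1 / 2) with h2 | h2
    · refine (hhalf t h0 h2).trans ?_
      apply mul_le_mul_of_nonneg_right _ (hφ0 t ht)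
      apply div_le_div_of_nonneg_right _ hc₀.le
      linarith
    · have h3 := hhalf (1 / 2) (by norm_num) le_rfl
      have h4 : φ (1 / 2) ≤ φ t := hφ.mono ⟨by norm_num, by norm_num⟩ ht h2
      have h5 : 1 / 2 ≤ phi1 (1 / 2) := by
        rw [phi1_eq (by norm_num)]
        have : 0 ≤ Real.log (1 / 2 : ℝ)⁻¹ := Real.log_nonneg (by norm_num)
        linarith
      have h6 : phi1 t ≤ 1 := phi1_le_one h0
      have h7 : 3 * c / c₀ * φ (1 / 2) ≤ 3 * c / c₀ * φ t :=
        mul_le_mul_of_nonneg_left h4 (by positivity)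
      have h8 : 6 * c / c₀ * φ t = 2 * (3 * c / c₀ * φ t) := by ring
      rw [h8]
      linarith
  · by_cases hT : Tendsto (fun t => φ t / phi1 t) (𝓝[>] 0) atTop
    · exact Or.inl hT
    · right
      rw [tendsto_atTop] at hT
      push Not at hT
      obtain ⟨b, hb⟩ := hT
      set K : ℝ := max b 1 with hK
      have hK1 : 0 < K := lt_of_lt_of_le one_pos (le_max_right _ _)
      refine ⟨c * K, mul_pos hc hK1, ?_⟩
      apply hF1 (c * K) (mul_pos hc hK1)
      refine (tendsto_inv_nhdsGT_zero (𝕜 := ℝ)).frequently ?_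
      have hev : ∀ᶠ t : ℝ in 𝓝[>] 0, t ∈ Ioo (0 : ℝ) 1 := Ioo_mem_nhdsGT one_pos
      have hb' : ∃ᶠ t : ℝ in 𝓝[>] 0, φ t / phi1 t < b := by
        simpa [Filter.not_eventually] using hb
      refine (hb'.and_eventually hev).mono ?_
      rintro t ⟨h1, h2⟩
      have hp := phi1_pos h2.1 h2.2.le
      have h3 : φ t ≤ K * phi1 t := by
        rw [div_lt_iff₀ hp] at h1
        refine h1.le.trans ?_
        exact mul_le_mul_of_nonneg_right (le_max_left _ _) hp.le
      refine (hrr t h2.1 h2.2).trans (ENNReal.ofReal_le_ofReal ?_)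
      calc t⁻¹ * (c * φ t) ≤ t⁻¹ * (c * (K * phi1 t)) := by
            apply mul_le_mul_of_nonneg_left _ (inv_pos.mpr h2.1).le
            exact mul_le_mul_of_nonneg_left h3 hc.le
        _ = c * K * (1 + Real.log t⁻¹) := by
            rw [phi1_eq h2.1]
            have := h2.1.ne'
            field_simp

end Pool.Agent.MP777
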