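import Pool.Agent.Lib.MP_777af9_an.Spec

/-! # MP_777af9_an: Fekete argument -/

open MeasureTheory Set Filter Topology
open scoped ENNReal

noncomputable section

namespace Pool.Agent.MP777

theorem c_Fek : S_Fek := by
  intro ρ hρ
  have hpow : ∀ m : ℝ, 1 < m → ∀ k : ℕ, ((k + 1 : ℕ) : ℝ≥0∞) * ρ m ≤ ρ (m ^ (k + 1)) := by
    intro m hm k
    induction k with
    | zero => simp
    | succ k ih =>
      have h1 : (1 : ℝ) < m ^ (k + 1) := one_lt_pow₀ hm (by omega)
      have h2 := hρ _ _ h1 hm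
      rw [← pow_succ] at h2
      refine le_trans ?_ h2
      rw [Nat.cast_succ, add_mul, one_mul]
      gcongr
  have hmono : ∀ m m' : ℝ, 1 < m → m ≤ m' → ρ m ≤ ρ m' := by
    intro m m' hm hmm
    rcases hmm.eq_or_lt with rfl | h
    · exact le_rfl
    · have h1 : 1 < m' / m := by rwa [one_lt_div (by linarith)]
      have h2 := hρ _ _ hm h1
      rw [mul_div_cancel₀ _ (by linarith : m ≠ 0)] at h2
      exact le_self_add.trans h2
  have hmain : ∀ m M : ℝ, 1 < m → m ≤ M → 1 ≤ ⌊Real.log M / Real.log m⌋₊ ∧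
      (⌊Real.log M / Real.log m⌋₊ : ℝ≥0∞) * ρ m ≤ ρ M := by
    intro m M hm hmM
    have hL : 0 < Real.log m := Real.log_pos hm
    have hlog : Real.log m ≤ Real.log M := Real.log_le_log (by linarith) hmM
    have h1 : 1 ≤ ⌊Real.log M / Real.log m⌋₊ := by
      rw [Nat.one_le_floor_iff]
      rwa [one_le_div hL]
    refine ⟨h1, ?_⟩
    obtain ⟨k, hk⟩ : ∃ k, ⌊Real.log M / Real.log m⌋₊ = k + 1 := ⟨_, (Nat.succ_pred_eq_of_pos h1).symm⟩
    have h2 : ((k + 1 : ℕ) : ℝ) ≤ Real.log M / Real.log m := by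
      rw [← hk]
      exact Nat.floor_le (div_nonneg (by linarith) hL.le)
    rw [le_div_iff₀ hL] at h2
    have h3 : m ^ (k + 1) ≤ M := by
      rw [← Real.log_le_log_iff (by positivity) (by linarith), Real.log_pow]
      exact h2
    rw [hk]
    exact (hpow m hm k).trans (hmono _ _ (one_lt_pow₀ hm (by omega)) h3)
  constructor
  · intro K hK hfr m hm
    have hL : 0 < Real.log m := Real.log_pos hm
    refine ENNReal.le_of_forall_pos_le_add fun ε hε _ => ?_
    have hε' : (0 : ℝ) < ε := hε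
    have hev : ∀ᶠ M : ℝ in atTop, m ≤ M ∧
        Real.log m * (K + K * Real.log m + ε) / ε ≤ Real.log M :=
      (eventually_ge_atTop m).and (Real.tendsto_log_atTop.eventually_ge_atTop _)
    obtain ⟨M, hM, hmM, hlM⟩ := (hfr.and_eventually hev).exists
    obtain ⟨h1, h2⟩ := hmain m M hm hmM
    have h3 : (⌊Real.log M / Real.log m⌋₊ : ℝ≥0∞) * ρ m ≤ ENNReal.ofReal (K * (1 + Real.log M)) :=
      h2.trans hM
    have hk1 : Real.log M / Real.log m - 1 < (⌊Real.log M / Real.log m⌋₊ : ℝ) := by
      have := Nat.lt_floor_add_one (Real.log M / Real.log m)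
      linarith
    have h4 : K * (1 + Real.log M) ≤ (⌊Real.log M / Real.log m⌋₊ : ℝ) * (K * Real.log m + ε) := by
      have h5 : K * (1 + Real.log M) ≤ (Real.log M / Real.log m - 1) * (K * Real.log m + ε) := by
        have h6 : Real.log m * (K + K * Real.log m + ε) ≤ Real.log M * ε := by
          rwa [div_le_iff₀ hε'] at hlM
        have h7 : (Real.log M / Real.log m - 1) * (K * Real.log m + ε) - K * (1 + Real.log M) =
            (Real.log M * ε - Real.log m * (K + K * Real.log m + ε)) / Real.log m := by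
          field_simp
          ring
        have h8 : 0 ≤ (Real.log M * ε - Real.log m * (K + K * Real.log m + ε)) / Real.log m :=
          div_nonneg (by linarith) hL.le
        linarith
      have h6 : 0 ≤ K * Real.log m + ε := by positivity
      exact h5.trans (mul_le_mul_of_nonneg_right hk1.le h6)
    have h5 : (⌊Real.log M / Real.log m⌋₊ : ℝ≥0∞) * ρ m ≤
        (⌊Real.log M / Real.log m⌋₊ : ℝ≥0∞) * (ENNReal.ofReal (K * Real.log m) + ε) := by
      refine h3.trans ?_
      have h6 : ENNReal.ofReal (K * Real.log m) + ε = ENNReal.ofReal (K * Real.log m + ε) := by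
        rw [ENNReal.ofReal_add (by positivity) hε'.le, ENNReal.ofReal_coe_nnreal]
      rw [h6, ← ENNReal.ofReal_natCast, ← ENNReal.ofReal_mul (by positivity)]
      exact ENNReal.ofReal_le_ofReal h4
    have h0 : (⌊Real.log M / Real.log m⌋₊ : ℝ≥0∞) ≠ 0 := by
      rw [Nat.cast_ne_zero]
      omega
    exact (ENNReal.mul_le_mul_iff_right h0 (ENNReal.natCast_ne_top _)).1 h5
  · intro h2
    have hc0 : min (ρ 2) 1 ≠ 0 := (lt_min h2 one_pos).ne'
    have hct : min (ρ 2) 1 ≠ ⊤ := ne_top_of_le_ne_top ENNReal.one_ne_top (min_le_right _ _)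
    have hc : 0 < (min (ρ 2) 1).toReal := ENNReal.toReal_pos hc0 hct
    refine ⟨(min (ρ 2) 1).toReal / 2, by positivity, fun M hM => ?_⟩
    obtain ⟨h3, h4⟩ := hmain 2 M (by norm_num) hM
    refine le_trans ?_ h4
    have hlog2 : Real.log 2 < 1 := by
      have := Real.log_two_lt_d9
      linarith
    have hlog2' : 0 < Real.log 2 := Real.log_pos (by norm_num)
    have hlogM : 0 ≤ Real.log M := Real.log_nonneg (by linarith)
    have hk : Real.log M / 2 ≤ (⌊Real.log M / Real.log 2⌋₊ : ℝ) := by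
      have h5 := Nat.lt_floor_add_one (Real.log M / Real.log 2)
      have h6 : (1 : ℝ) ≤ (⌊Real.log M / Real.log 2⌋₊ : ℝ) := by exact_mod_cast h3
      have h7 : Real.log M ≤ Real.log M / Real.log 2 := by
        rw [le_div_iff₀ hlog2']
        nlinarith
      by_cases h8 : Real.log M ≤ 2
      · linarith
      · linarith
    calc ENNReal.ofReal ((min (ρ 2) 1).toReal / 2 * Real.log M)
        = ENNReal.ofReal (Real.log M / 2 * (min (ρ 2) 1).toReal) := by ring_nf
      _ ≤ ENNReal.ofReal ((⌊Real.log M / Real.log 2⌋₊ : ℝ) * (min (ρ 2) 1).toReal) :=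
        ENNReal.ofReal_le_ofReal (mul_le_mul_of_nonneg_right hk hc.le)
      _ = (⌊Real.log M / Real.log 2⌋₊ : ℝ≥0∞) * min (ρ 2) 1 := by
        rw [ENNReal.ofReal_mul (by positivity), ENNReal.ofReal_natCast, ENNReal.ofReal_toReal hct]
      _ ≤ _ := by
        gcongr
        exact min_le_left _ _

end Pool.Agent.MP777
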