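import Pool.Agent.Lib.MP_777af9_an.Spec

/-! # MP_777af9_an: Fourier series of smooth functions -/

open MeasureTheory Set Filter Topology
open scoped ENNReal ContDiff

noncomputable section

namespace Pool.Agent.MP777

namespace FourAux

theorem Sm.deriv' {f : ℝ → ℂ} (hf : Sm f) : Sm (deriv f) := by
  obtain ⟨h1, h2⟩ := hf
  refine ⟨(contDiff_infty_iff_deriv.1 h1).2, fun x => ?_⟩
  rw [← deriv_comp_add_const]
  congr 1
  ext y
  exact h2 y

theorem ee_deriv (n : ℤ) (x : ℝ) : HasDerivAt (ee n) (2 * Real.pi * Complex.I * n * ee n x) x := by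
  have h1 : HasDerivAt (fun y : ℝ => 2 * (Real.pi : ℂ) * Complex.I * (n : ℂ) * (y : ℂ))
      (2 * Real.pi * Complex.I * n * 1) x :=
    (Complex.ofRealCLM.hasDerivAt (x := x)).const_mul _
  have h2 := h1.cexp
  unfold ee
  convert h2 using 1
  ring

theorem ee_cont (n : ℤ) : Continuous (ee n) := by
  unfold ee
  fun_prop

theorem ee_one (n : ℤ) : ee n 1 = 1 := by
  unfold ee
  rw [show 2 * (Real.pi : ℂ) * Complex.I * (n : ℂ) * ((1 : ℝ) : ℂ) = n * (2 * Real.pi * Complex.I) by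
    push_cast; ring]
  exact Complex.exp_int_mul_two_pi_mul_I n

theorem ee_zero (n : ℤ) : ee n 0 = 1 := by
  unfold ee
  simp

theorem ee_norm (n : ℤ) (x : ℝ) : ‖ee n x‖ = 1 := by
  unfold ee
  rw [show 2 * (Real.pi : ℂ) * Complex.I * (n : ℂ) * (x : ℂ) = ((2 * Real.pi * n * x : ℝ) : ℂ) * Complex.I
    by push_cast; ring]
  exact Complex.norm_exp_ofReal_mul_I _

theorem co_deriv {f : ℝ → ℂ} (hf : Sm f) (n : ℤ) :
    co (deriv f) n = 2 * Real.pi * Complex.I * n * co f n := by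
  have hd : ∀ x, HasDerivAt f (deriv f x) x := fun x =>
    ((contDiff_infty_iff_deriv.1 hf.1).1 x).hasDerivAt
  have hc : Continuous (deriv f) := (Sm.deriv' hf).1.continuous
  have h1 := intervalIntegral.integral_mul_deriv_eq_deriv_mul (a := 0) (b := 1) (u := f) (v := ee (-n))
    (u' := deriv f) (v' := fun x => 2 * Real.pi * Complex.I * ((-n : ℤ) : ℂ) * ee (-n) x)
    (fun x _ => hd x) (fun x _ => ee_deriv (-n) x) (hc.intervalIntegrable _ _)
    ((continuous_const.mul (ee_cont (-n))).intervalIntegrable _ _)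
  have h2 : f 1 = f 0 := by
    have := hf.2 0
    rwa [zero_add] at this
  rw [ee_one, ee_zero, h2, sub_self, zero_sub] at h1
  have h3 : ∫ x in (0 : ℝ)..1, f x * (2 * Real.pi * Complex.I * ((-n : ℤ) : ℂ) * ee (-n) x) =
      (2 * Real.pi * Complex.I * ((-n : ℤ) : ℂ)) * co f n := by
    unfold co
    rw [← intervalIntegral.integral_const_mul]
    congr 1
    ext x
    ring
  rw [h3] at h1
  have h4 : co (deriv f) n = ∫ x in (0 : ℝ)..1, deriv f x * ee (-n) x := rfl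
  rw [h4]
  push_cast at h1
  linear_combination h1

theorem co_bound {f : ℝ → ℂ} (hf : Sm f) : ∃ M : ℝ, ∀ n : ℤ, ‖co f n‖ ≤ M := by
  obtain ⟨M, hM⟩ := isCompact_Icc.exists_bound_of_continuousOn (s := Icc (0 : ℝ) 1)
    hf.1.continuous.continuousOn
  refine ⟨M, fun n => ?_⟩
  have h1 := intervalIntegral.norm_integral_le_of_norm_le_const (a := 0) (b := 1) (C := M)
    (f := fun t => f t * ee (-n) t) (fun x hx => by
      rw [uIoc_of_le zero_le_one] at hx
      rw [norm_mul, ee_norm, mul_one]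
      exact hM x ⟨hx.1.le, hx.2⟩)
  simpa [co] using h1

theorem co_decay {f : ℝ → ℂ} (hf : Sm f) : ∃ M : ℝ, 0 ≤ M ∧ ∀ n : ℤ, n ≠ 0 →
    (1 + |(n : ℝ)|) * ‖co f n‖ ≤ M * (1 / (n : ℝ) ^ 2) := by
  obtain ⟨M, hM⟩ := co_bound (Sm.deriv' (Sm.deriv' (Sm.deriv' hf)))
  have hM0 : 0 ≤ M := (norm_nonneg _).trans (hM 0)
  refine ⟨M, hM0, fun n hn => ?_⟩
  have h1 := hM n
  rw [co_deriv (Sm.deriv' (Sm.deriv' hf)), co_deriv (Sm.deriv' hf), co_deriv hf] at h1
  have h2 : ‖(2 * Real.pi * Complex.I * n * (2 * Real.pi * Complex.I * n *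
      (2 * Real.pi * Complex.I * n * co f n)) : ℂ)‖ = (2 * Real.pi) ^ 3 * |(n : ℝ)| ^ 3 * ‖co f n‖ := by
    simp only [norm_mul, Complex.norm_I, Complex.norm_ofNat, Complex.norm_real, Real.norm_eq_abs,
      abs_of_pos Real.pi_pos, Complex.norm_intCast]
    ring
  rw [h2] at h1
  have hn1 : (1 : ℝ) ≤ |(n : ℝ)| := by
    rw [← Int.cast_abs]
    exact_mod_cast Int.one_le_abs hn
  have hpi := Real.pi_gt_three
  have h3 : (2 : ℝ) ≤ (2 * Real.pi) ^ 3 := by
    calc (2 : ℝ) ≤ 6 ^ 3 := by norm_num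
      _ ≤ _ := pow_le_pow_left₀ (by norm_num) (by linarith) 3
  have h4 : (1 + |(n : ℝ)|) * ‖co f n‖ * |(n : ℝ)| ^ 2 ≤ M := by
    refine le_trans ?_ h1
    have h5 : (1 + |(n : ℝ)|) * |(n : ℝ)| ^ 2 ≤ (2 * Real.pi) ^ 3 * |(n : ℝ)| ^ 3 := by
      calc (1 + |(n : ℝ)|) * |(n : ℝ)| ^ 2 ≤ (2 * |(n : ℝ)|) * |(n : ℝ)| ^ 2 := by
            gcongr; linarith
        _ = 2 * |(n : ℝ)| ^ 3 := by ring
        _ ≤ _ := by gcongr
    calc (1 + |(n : ℝ)|) * ‖co f n‖ * |(n : ℝ)| ^ 2 = ((1 + |(n : ℝ)|) * |(n : ℝ)| ^ 2) * ‖co f n‖ := by ring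
      _ ≤ _ := mul_le_mul_of_nonneg_right h5 (norm_nonneg _)
  rw [mul_one_div, le_div_iff₀ (by positivity), ← sq_abs]
  exact h4

theorem summ {f : ℝ → ℂ} (hf : Sm f) : Summable (fun n : ℤ => (1 + |(n : ℝ)|) * ‖co f n‖) := by
  obtain ⟨M, hM0, hM⟩ := co_decay hf
  have h1 : Summable (fun n : ℤ => M * (1 / (n : ℝ) ^ 2)) :=
    (Real.summable_one_div_int_pow.2 (by norm_num : 1 < 2)).mul_left M
  refine h1.of_norm_bounded_eventually ?_
  have h2 : ∀ᶠ n : ℤ in cofinite, n ≠ 0 := by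
    rw [eventually_cofinite]
    simp
  filter_upwards [h2] with n hn
  rw [Real.norm_of_nonneg (by positivity)]
  exact hM n hn

end FourAux

open FourAux in
theorem c_Four : S_Four := by
  intro f hf
  refine ⟨summ hf, ?_⟩
  have hlc : Continuous hf.2.lift := continuous_coinduced_dom.2 hf.1.continuous
  let F : C(AddCircle (1 : ℝ), ℂ) := ⟨hf.2.lift, hlc⟩
  have hF : ∀ x : ℝ, F (x : AddCircle (1 : ℝ)) = f x := fun x => rfl
  have hfo : ∀ (n : ℤ) (x : ℝ), fourier n (x : AddCircle (1 : ℝ)) = ee n x := by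
    intro n x
    rw [fourier_coe_apply]
    unfold ee
    simp
  have hco : ∀ n : ℤ, fourierCoeff F n = co f n := by
    intro n
    rw [fourierCoeff_eq_intervalIntegral F n 0]
    simp only [div_one, one_smul, zero_add, smul_eq_mul]
    unfold co
    congr 1
    ext x
    rw [hF, hfo, mul_comm]
  have hs : Summable (fourierCoeff F) := by
    refine Summable.of_norm ?_
    refine (summ hf).of_nonneg_of_le (fun n => norm_nonneg _) fun n => ?_
    rw [hco]
    have : 0 ≤ |(n : ℝ)| * ‖co f n‖ := by positivity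
    linarith
  intro x
  have h := has_pointwise_sum_fourier_series_of_summable hs (x : AddCircle (1 : ℝ))
  rw [hF] at h
  convert h using 1
  ext n
  rw [hco, hfo, smul_eq_mul]

end Pool.Agent.MP777
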