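import Pool.Agent.Lib.MP_777af9_an.Spec

/-!
# MP_777af9_an, task Jen: Jensen inequality for the Lorentz norm
-/

open MeasureTheory Set Filter Topology
open scoped ENNReal

noncomputable section

namespace Pool.Agent.MP777

/-- a supporting line of a nondecreasing concave function on `[0,1]` at a point `s > 0` -/
private theorem support {φ : ℝ → ℝ} (hφ : LorFun φ) {s : ℝ} (hs : 0 < s) (hs1 : s ≤ 1) :
    ∃ p : ℝ, ∀ t ∈ Icc (0 : ℝ) 1, φ t ≤ φ s + p * (t - s) := by
  rcases eq_or_lt_of_le hs1 with h1 | h1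
  · refine ⟨0, fun t ht => ?_⟩
    rw [zero_mul, add_zero]
    exact hφ.mono ht ⟨hs.le, hs1⟩ (h1 ▸ ht.2)
  · have hne : ((fun t => (φ s - φ t) / (s - t)) '' Ico 0 s).Nonempty :=
      ⟨_, 0, ⟨le_rfl, hs⟩, rfl⟩
    have hbelow : ∀ z, s < z → z ≤ 1 → ∀ y ∈ (fun t => (φ s - φ t) / (s - t)) '' Ico 0 s,
        (φ z - φ s) / (z - s) ≤ y := by
      rintro z hz hz1 _ ⟨t, ht, rfl⟩
      exact hφ.conc.slope_anti_adjacent ⟨ht.1, ht.2.le.trans hs1⟩ ⟨hs.le.trans hz.le, hz1⟩ ht.2 hz
    have hbdd : BddBelow ((fun t => (φ s - φ t) / (s - t)) '' Ico 0 s) :=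
      ⟨_, fun y hy => hbelow 1 h1 le_rfl y hy⟩
    refine ⟨sInf ((fun t => (φ s - φ t) / (s - t)) '' Ico 0 s), fun t ht => ?_⟩
    rcases lt_trichotomy t s with h | h | h
    · have h2 : sInf ((fun t => (φ s - φ t) / (s - t)) '' Ico 0 s) ≤ (φ s - φ t) / (s - t) :=
        csInf_le hbdd ⟨t, ⟨ht.1, h⟩, rfl⟩
      rw [le_div_iff₀ (by linarith)] at h2
      nlinarith
    · rw [h]; simp
    · have h2 : (φ t - φ s) / (t - s) ≤ sInf ((fun t => (φ s - φ t) / (s - t)) '' Ico 0 s) :=
        le_csInf hne (hbelow t h ht.2)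
      rw [div_le_iff₀ (by linarith)] at h2
      linarith

theorem c_Jen : S_Jen := by
  intro φ hφ h hh h01
  have hc : Continuous h := hh.1.continuous
  have hint : Integrable h (volume.restrict (Ioc (0 : ℝ) 1)) := hc.integrableOn_Ioc
  have hmass : mass h = ∫ x, h x ∂(volume.restrict (Ioc (0 : ℝ) 1)) := by
    unfold mass
    rw [intervalIntegral.integral_of_le zero_le_one]
  have hd : ∀ l, dfn (cx h) l = (volume.restrict (Ioc (0 : ℝ) 1)).real {a | l < h a} := by
    intro l
    unfold dfn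
    rw [measureReal_restrict_apply (measurableSet_lt measurable_const hc.measurable), Measure.real]
    congr 2
    ext x
    have hx : ‖cx h x‖ = h x := by
      rw [cx, Complex.norm_real, Real.norm_eq_abs, abs_of_nonneg (h01 x).1]
    show (x ∈ Ioc (0 : ℝ) 1 ∧ l < ‖cx h x‖) ↔ (l < h x ∧ x ∈ Ioc (0 : ℝ) 1)
    rw [hx]
    exact and_comm
  have lc : mass h = ∫ t in Ioi 0, dfn (cx h) t := by
    rw [hmass, hint.integral_eq_integral_meas_lt (ae_of_all _ fun x => (h01 x).1)]
    exact integral_congr_ae (ae_of_all _ fun l => (hd l).symm)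
  have hd0 : ∀ l, 1 ≤ l → dfn (cx h) l = 0 := by
    intro l hl
    rw [hd]
    have : {a | l < h a} = ∅ := by
      ext a
      simp only [mem_empty_iff_false, iff_false]
      exact fun ha => absurd ((h01 a).2.trans hl) (not_le.2 ha)
    rw [this, measureReal_empty]
  have hdI : ∀ l, dfn (cx h) l ∈ Icc (0 : ℝ) 1 := by
    intro l
    rw [hd]
    refine ⟨measureReal_nonneg, ?_⟩
    calc (volume.restrict (Ioc (0 : ℝ) 1)).real {a | l < h a}
        ≤ (volume.restrict (Ioc (0 : ℝ) 1)).real univ := measureReal_mono (subset_univ _)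
      _ = 1 := by simp [Measure.real]
  have hanti : Antitone (dfn (cx h)) := by
    intro a b hab
    rw [hd, hd]
    exact measureReal_mono fun x hx => lt_of_le_of_lt hab hx
  have hI : IntegrableOn (dfn (cx h)) (Ioc 0 1) := by
    refine Measure.integrableOn_of_bounded (M := 1) (by simp) hanti.measurable.aestronglyMeasurable
      (ae_of_all _ fun l => ?_)
    rw [Real.norm_eq_abs, abs_of_nonneg (hdI l).1]
    exact (hdI l).2
  have lc' : ∫ t in Ioc 0 1, dfn (cx h) t = mass h := by
    rw [lc]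
    symm
    refine setIntegral_eq_of_subset_of_forall_sdiff_eq_zero measurableSet_Ioi
      (fun x hx => hx.1) fun x hx => hd0 x ?_
    by_contra hx'
    exact hx.2 ⟨hx.1, (not_le.1 hx').le⟩
  have hφ0 : ∀ t ∈ Icc (0 : ℝ) 1, 0 ≤ φ t := fun t ht => by
    rw [← hφ.zero]
    exact hφ.mono ⟨le_rfl, zero_le_one⟩ ht ht.1
  have hlor : lor φ (cx h) = ∫⁻ l in Ioc (0 : ℝ) 1, ENNReal.ofReal (φ (dfn (cx h) l)) := by
    unfold lor
    rw [← Ioc_union_Ioi_eq_Ioi (zero_le_one : (0 : ℝ) ≤ 1),
      lintegral_union measurableSet_Ioi (Ioc_disjoint_Ioi le_rfl)]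
    have h2 : ∀ l ∈ Ioi (1 : ℝ), ENNReal.ofReal (φ (dfn (cx h) l)) = 0 := fun l hl => by
      rw [hd0 l (le_of_lt hl), hφ.zero, ENNReal.ofReal_zero]
    rw [setLIntegral_congr_fun (g := fun _ => 0) measurableSet_Ioi h2]
    simp
  have hs0 : 0 ≤ mass h := by
    rw [hmass]
    exact integral_nonneg fun x => (h01 x).1
  have hs1 : mass h ≤ 1 := by
    rw [← lc']
    calc ∫ t in Ioc (0 : ℝ) 1, dfn (cx h) t ≤ ∫ t in Ioc (0 : ℝ) 1, (1 : ℝ) :=
          setIntegral_mono hI (by simp) fun t => (hdI t).2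
      _ = 1 := by simp
  rcases eq_or_lt_of_le hs0 with hs | hs
  · -- the mass is zero
    have h1 : h =ᵐ[volume.restrict (Ioc (0 : ℝ) 1)] 0 := by
      rw [← integral_eq_zero_iff_of_nonneg (fun x => (h01 x).1) hint, ← hmass, ← hs]
    rw [hlor]
    have h2 : ∀ l ∈ Ioc (0 : ℝ) 1, ENNReal.ofReal (φ (dfn (cx h) l)) = 0 := by
      intro l hl
      have h3 : dfn (cx h) l = 0 := by
        rw [hd, Measure.real]
        have : (volume.restrict (Ioc (0 : ℝ) 1)) {a | l < h a} = 0 := by
          refine measure_mono_null (fun x hx => ?_) h1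
          show ¬ h x = (0 : ℝ → ℝ) x
          have hx' : l < h x := hx
          intro h4
          rw [h4] at hx'
          exact absurd hx' (not_lt.2 hl.1.le)
        rw [this, ENNReal.toReal_zero]
      rw [h3, hφ.zero, ENNReal.ofReal_zero]
    rw [setLIntegral_congr_fun measurableSet_Ioc h2]
    simp
  · obtain ⟨p, hp⟩ := support hφ hs hs1
    rw [hlor]
    have hint2 : Integrable (fun l => φ (mass h) + p * (dfn (cx h) l - mass h))
        (volume.restrict (Ioc (0 : ℝ) 1)) := by
      refine (integrable_const _).add ?_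
      exact (hI.sub (integrable_const _)).const_mul p
    calc ∫⁻ l in Ioc (0 : ℝ) 1, ENNReal.ofReal (φ (dfn (cx h) l))
        ≤ ∫⁻ l in Ioc (0 : ℝ) 1, ENNReal.ofReal (φ (mass h) + p * (dfn (cx h) l - mass h)) :=
          lintegral_mono fun l => ENNReal.ofReal_le_ofReal (hp _ (hdI l))
      _ = ENNReal.ofReal (∫ l in Ioc (0 : ℝ) 1, (φ (mass h) + p * (dfn (cx h) l - mass h))) := by
          rw [ofReal_integral_eq_lintegral_ofReal hint2]
          exact ae_of_all _ fun l => (hφ0 _ (hdI l)).trans (hp _ (hdI l))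
      _ = ENNReal.ofReal (φ (mass h)) := by
          congr 1
          have e1 : ∫ l in Ioc (0 : ℝ) 1, (dfn (cx h) l - mass h) = 0 := by
            rw [integral_sub hI (integrable_const _), lc']
            simp
          have e2 : ∫ l in Ioc (0 : ℝ) 1, p * (dfn (cx h) l - mass h) = 0 := by
            rw [integral_const_mul, e1, mul_zero]
          have e3 : Integrable (fun l => p * (dfn (cx h) l - mass h))
              (volume.restrict (Ioc (0 : ℝ) 1)) := (hI.sub (integrable_const _)).const_mul p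
          rw [integral_add (integrable_const _) e3, e2]
          simp

end Pool.Agent.MP777
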