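import Pool.Agent.Lib.MP_777af9_an.Spec

/-! # MP_777af9_an: the largest Lorentz function -/

open MeasureTheory Set Filter Topology
open scoped ENNReal

noncomputable section

namespace Pool.Agent.MP777

theorem LorFun.nonneg {φ : ℝ → ℝ} (h : LorFun φ) {t : ℝ} (ht : t ∈ Icc (0 : ℝ) 1) : 0 ≤ φ t := by
  have := h.mono ⟨le_rfl, zero_le_one⟩ ht ht.1
  rwa [h.zero] at this

theorem c_Max : S_Max := by
  rintro hQ hC ⟨φ₀, hφ₀, hA₀⟩
  obtain ⟨c₀, hc₀, hb₀⟩ := (hC φ₀ hφ₀).1 hA₀
  have hfin : ∀ u ∈ Ioc (0 : ℝ) 1, aa u ≠ ⊤ := fun u hu =>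
    ne_top_of_le_ne_top ENNReal.ofReal_ne_top (hb₀ u hu)
  let α : ℝ → ℝ := fun u => (aa u).toReal
  have hα0 : ∀ u, 0 ≤ α u := fun u => ENNReal.toReal_nonneg
  have hαm : ∀ s u, 0 < s → s ≤ u → u ≤ 1 → α s ≤ α u := fun s u hs hsu hu =>
    ENNReal.toReal_mono (hfin u ⟨by linarith, hu⟩) (hQ.mono s u hsu)
  have hαs : ∀ s u, 0 < s → s ≤ u → u ≤ 1 → α u ≤ u / s * α s := by
    intro s u hs hsu hu
    have h1 := ENNReal.toReal_mono (hfin s ⟨hs, by linarith⟩) (hQ.star s u hs hsu)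
    have hu0 : 0 < u := by linarith
    rw [ENNReal.toReal_mul, ENNReal.toReal_ofReal (by positivity)] at h1
    have h2 : u / s * (s / u * (aa u).toReal) ≤ u / s * (aa s).toReal :=
      mul_le_mul_of_nonneg_left h1 (by positivity)
    have h3 : u / s * (s / u * (aa u).toReal) = (aa u).toReal := by
      field_simp
    rwa [h3] at h2
  let φ : ℝ → ℝ := fun t => if t ≤ 0 then 0 else ⨅ u : Ioc (0 : ℝ) 1, (1 + t / u) * α u
  have hne : Nonempty (Ioc (0 : ℝ) 1) := ⟨⟨1, by norm_num, le_rfl⟩⟩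
  have hterm : ∀ t, 0 ≤ t → ∀ u : Ioc (0 : ℝ) 1, 0 ≤ (1 + t / u) * α u := by
    intro t ht u
    have : 0 < (u : ℝ) := u.2.1
    exact mul_nonneg (by positivity) (hα0 _)
  have hbdd : ∀ t, 0 ≤ t → BddBelow (range fun u : Ioc (0 : ℝ) 1 => (1 + t / u) * α u) := by
    intro t ht
    refine ⟨0, ?_⟩
    rintro _ ⟨u, rfl⟩
    exact hterm t ht u
  have hle : ∀ t, 0 ≤ t → ∀ u : Ioc (0 : ℝ) 1, φ t ≤ (1 + t / u) * α u := by
    intro t ht u
    by_cases h : t ≤ 0
    · simp only [φ, if_pos h]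
      exact hterm t ht u
    · simp only [φ, if_neg h]
      exact ciInf_le (hbdd t ht) u
  have hge : ∀ t, 0 < t → ∀ y, (∀ u : Ioc (0 : ℝ) 1, y ≤ (1 + t / u) * α u) → y ≤ φ t := by
    intro t ht y hy
    simp only [φ, if_neg (not_le.2 ht)]
    exact le_ciInf hy
  have hφ0 : φ 0 = 0 := by simp [φ]
  have hφnn : ∀ t, 0 ≤ t → 0 ≤ φ t := by
    intro t ht
    rcases ht.eq_or_lt with rfl | h
    · exact hφ0.ge
    · exact hge t h 0 (hterm t ht)
  have hφα : ∀ t ∈ Ioc (0 : ℝ) 1, α t ≤ φ t := by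
    intro t ht
    refine hge t ht.1 _ fun u => ?_
    have hu0 : 0 < (u : ℝ) := u.2.1
    by_cases h : t ≤ u
    · have h1 := hαm t u ht.1 h u.2.2
      have h2 : 0 ≤ t / u * α u := mul_nonneg (div_nonneg ht.1.le hu0.le) (hα0 _)
      linarith
    · have h1 := hαs u t hu0 (by linarith) ht.2
      have h2 := hα0 u
      linarith
  have hφ2 : ∀ t ∈ Ioc (0 : ℝ) 1, φ t ≤ 2 * α t := by
    intro t ht
    have h1 := hle t ht.1.le ⟨t, ht⟩
    have h2 : (1 + t / t) = 2 := by
      rw [div_self ht.1.ne']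
      norm_num
    simpa [h2] using h1
  have hL : LorFun φ := by
    refine ⟨?_, ⟨convex_Icc 0 1, ?_⟩, hφ0⟩
    · intro s hs t ht hst
      rcases hs.1.eq_or_lt with h | h
      · rw [← h, hφ0]
        exact hφnn t ht.1
      · refine hge t (by linarith) _ fun u => ?_
        refine (hle s hs.1 u).trans ?_
        have hu0 : 0 < (u : ℝ) := u.2.1
        exact mul_le_mul_of_nonneg_right (by gcongr) (hα0 _)
    · intro x hx y hy a b ha hb hab
      simp only [smul_eq_mul]
      by_cases hz : 0 < a * x + b * y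
      · refine hge _ hz _ fun u => ?_
        have h1 := mul_le_mul_of_nonneg_left (hle x hx.1 u) ha
        have h2 := mul_le_mul_of_nonneg_left (hle y hy.1 u) hb
        have hu0 : 0 < (u : ℝ) := u.2.1
        have h3 : (1 + (a * x + b * y) / u) * α u = a * ((1 + x / u) * α u) + b * ((1 + y / u) * α u) := by
          have : (1 : ℝ) = a + b := hab.symm
          field_simp
          rw [show b = 1 - a by linarith]
          ring
        rw [h3]
        linarith
      · have hx0 : a * x = 0 := by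
          have h1 := mul_nonneg ha hx.1
          have h2 := mul_nonneg hb hy.1
          linarith
        have hy0 : b * y = 0 := by
          have h1 := mul_nonneg ha hx.1
          have h2 := mul_nonneg hb hy.1
          linarith
        have h1 : a * φ x = 0 := by
          rcases mul_eq_zero.1 hx0 with h | h
          · rw [h, zero_mul]
          · rw [h, hφ0, mul_zero]
        have h2 : b * φ y = 0 := by
          rcases mul_eq_zero.1 hy0 with h | h
          · rw [h, zero_mul]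
          · rw [h, hφ0, mul_zero]
        rw [h1, h2, hx0, hy0, add_zero, hφ0]
  refine ⟨φ, hL, (hC φ hL).2 ⟨1, one_pos, fun s hs => ?_⟩, fun φ' hφ' hA' => ?_⟩
  · rw [one_mul, ← ENNReal.ofReal_toReal (hfin s hs)]
    exact ENNReal.ofReal_le_ofReal (hφα s hs)
  · obtain ⟨c, hc, hb⟩ := (hC φ' hφ').1 hA'
    refine ⟨2 * c, by positivity, fun t ht => ?_⟩
    rcases ht.1.eq_or_lt with h | h
    · rw [← h, hφ0, hφ'.zero, mul_zero]
    · have h1 := hφ2 t ⟨h, ht.2⟩
      have h2 := hb t ⟨h, ht.2⟩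
      have h3 : α t ≤ c * φ' t := ENNReal.toReal_le_of_le_ofReal (mul_nonneg hc.le (hφ'.nonneg ht)) h2
      linarith

end Pool.Agent.MP777
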