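import Pool.Agent.Lib.MP_777af9_an.Spec

/-!
# MP_777af9_an: the multiplier formula
-/

open MeasureTheory Set Filter Topology
open scoped ENNReal

noncomputable section

namespace Pool.Agent.MP777

namespace MultAux

theorem norm_ee (n : ℤ) (x : ℝ) : ‖ee n x‖ = 1 := by
  unfold ee
  have : (2 * Real.pi * Complex.I * (n : ℂ) * (x : ℂ)) = ((2 * Real.pi * n * x : ℝ) : ℂ) * Complex.I := by
    push_cast; ring
  rw [this, Complex.norm_exp_ofReal_mul_I]

theorem ee_mul (j n : ℤ) (x t : ℝ) : ee j t * ee n (x - t) = ee n x * ee (j - n) t := by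
  unfold ee
  rw [← Complex.exp_add, ← Complex.exp_add]
  congr 1
  push_cast
  ring

theorem cont_ee (n : ℤ) : Continuous (ee n) := by
  unfold ee
  fun_prop

/-- the region of integration -/
def RA (ε : ℝ) : Set ℝ := {t : ℝ | ε < |t| ∧ |t| ≤ 1 / 2}

theorem RA_meas (ε : ℝ) : MeasurableSet (RA ε) := by
  have : RA ε = {t : ℝ | ε < |t|} ∩ {t : ℝ | |t| ≤ 1 / 2} := rfl
  rw [this]
  exact (measurableSet_lt measurable_const continuous_abs.measurable).inter
    (measurableSet_le continuous_abs.measurable measurable_const)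

theorem RA_fin (ε : ℝ) : volume (RA ε) < ⊤ := by
  have : RA ε ⊆ Icc (-(1/2)) (1/2) := fun t ht => abs_le.1 ht.2
  exact (measure_mono this).trans_lt (by simp)

theorem cot_bound {ε : ℝ} (h0 : 0 < ε) {t : ℝ} (ht : t ∈ RA ε) :
    |Real.cot (Real.pi * t)| ≤ 1 / Real.sin (Real.pi * ε) := by
  obtain ⟨h1, h2⟩ := ht
  have hpi := Real.pi_pos
  have hε : 0 < Real.sin (Real.pi * ε) := by
    apply Real.sin_pos_of_pos_of_lt_pi
    · positivity
    · nlinarith
  rw [Real.cot_eq_cos_div_sin, abs_div]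
  have hs : Real.sin (Real.pi * ε) ≤ |Real.sin (Real.pi * t)| := by
    have e1 : |Real.sin (Real.pi * t)| = Real.sin (Real.pi * |t|) := by
      rcases le_or_gt 0 t with h | h
      · rw [abs_of_nonneg h, abs_of_nonneg]
        apply Real.sin_nonneg_of_nonneg_of_le_pi
        · positivity
        · rw [abs_of_nonneg h] at h2; nlinarith
      · rw [abs_of_neg h]
        have h3 : Real.pi * -t = -(Real.pi * t) := by ring
        rw [h3, Real.sin_neg, abs_of_nonpos]
        have h4 : 0 ≤ Real.sin (Real.pi * -t) := by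
          apply Real.sin_nonneg_of_nonneg_of_le_pi
          · nlinarith
          · rw [abs_of_neg h] at h2; nlinarith
        rw [h3, Real.sin_neg] at h4
        linarith
    rw [e1]
    apply Real.sin_le_sin_of_le_of_le_pi_div_two
    · nlinarith
    · nlinarith
    · nlinarith
  have hc : |Real.cos (Real.pi * t)| ≤ 1 := Real.abs_cos_le_one _
  gcongr

theorem cot_meas : Measurable (fun t : ℝ => ((Real.cot (Real.pi * t) : ℝ) : ℂ)) := by
  have : (fun t : ℝ => ((Real.cot (Real.pi * t) : ℝ) : ℂ))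
      = fun t : ℝ => ((Real.cos (Real.pi * t) / Real.sin (Real.pi * t) : ℝ) : ℂ) := by
    ext t; rw [Real.cot_eq_cos_div_sin]
  rw [this]
  fun_prop

theorem int_term {ε : ℝ} (h0 : 0 < ε) (m : ℤ) :
    IntegrableOn (fun t : ℝ => ((Real.cot (Real.pi * t) : ℝ) : ℂ) * ee m t) (RA ε) := by
  refine Integrable.mono' (g := fun _ => 1 / Real.sin (Real.pi * ε)) ?_ ?_ ?_
  · exact integrableOn_const (RA_fin ε).ne
  · exact (cot_meas.mul (cont_ee m).measurable).aestronglyMeasurable
  · rw [ae_restrict_iff' (RA_meas ε)]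
    refine Eventually.of_forall fun t ht => ?_
    rw [norm_mul, norm_ee, mul_one, Complex.norm_real, Real.norm_eq_abs]
    exact cot_bound h0 ht

end MultAux

open MultAux

theorem c_Mult : S_Mult := by
  intro hcot ι _ c ν F hs hF j x
  set J : ℤ → ℝ → ℂ := fun m ε => ∫ t in RA ε, ((Real.cot (Real.pi * t) : ℝ) : ℂ) * ee m t with hJ
  have hs0 : Summable (fun a => ‖c a‖) := by
    refine Summable.of_nonneg_of_le (fun a => norm_nonneg _) (fun a => ?_) hs
    have : 0 ≤ |(ν a : ℝ)| := abs_nonneg _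
    have := norm_nonneg (c a)
    nlinarith
  have hexp : ∀ ε : ℝ, 0 < ε → ε < 1 / 2 →
      HasSum (fun a => c a * ee (ν a) x * J (j - ν a) ε) (trunc j F x ε) := by
    intro ε h0 h1
    have hsin : 0 ≤ 1 / Real.sin (Real.pi * ε) := by
      have : 0 < Real.sin (Real.pi * ε) := by
        apply Real.sin_pos_of_pos_of_lt_pi
        · have := Real.pi_pos; positivity
        · have := Real.pi_pos; nlinarith
      positivity
    have key := hasSum_integral_of_summable_integral_norm (μ := volume.restrict (RA ε))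
      (F := fun a t => (c a * ee (ν a) x) * (((Real.cot (Real.pi * t) : ℝ) : ℂ) * ee (j - ν a) t))
      (fun a => (int_term h0 (j - ν a)).const_mul _) ?_
    · have e1 : (fun a => ∫ t in RA ε, (c a * ee (ν a) x) *
          (((Real.cot (Real.pi * t) : ℝ) : ℂ) * ee (j - ν a) t))
          = fun a => c a * ee (ν a) x * J (j - ν a) ε := by
        ext a
        rw [integral_const_mul]
      rw [e1] at key
      have e2 : trunc j F x ε = ∫ t in RA ε, ∑' a, (c a * ee (ν a) x) *
          (((Real.cot (Real.pi * t) : ℝ) : ℂ) * ee (j - ν a) t) := ?_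
      · rw [e2]; exact key
      unfold trunc
      refine integral_congr_ae ?_
      refine Eventually.of_forall fun t => ?_
      simp only
      have h2 := (hF (x - t)).mul_left (((Real.cot (Real.pi * t) : ℝ) : ℂ) * ee j t)
      rw [← h2.tsum_eq]
      refine tsum_congr fun a => ?_
      have h3 := ee_mul j (ν a) x t
      calc ((Real.cot (Real.pi * t) : ℝ) : ℂ) * ee j t * (c a * ee (ν a) (x - t))
          = c a * ((Real.cot (Real.pi * t) : ℝ) : ℂ) * (ee j t * ee (ν a) (x - t)) := by ring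
        _ = _ := by rw [h3]; ring
    · refine Summable.of_nonneg_of_le (fun a => integral_nonneg fun t => norm_nonneg _)
        (fun a => ?_) (hs0.mul_right ((1 / Real.sin (Real.pi * ε)) * (volume (RA ε)).toReal))
      have h4 : ∀ t ∈ RA ε, ‖(c a * ee (ν a) x) *
          (((Real.cot (Real.pi * t) : ℝ) : ℂ) * ee (j - ν a) t)‖
          ≤ ‖c a‖ * (1 / Real.sin (Real.pi * ε)) := by
        intro t ht
        rw [norm_mul, norm_mul, norm_mul, norm_ee, norm_ee, mul_one, mul_one, Complex.norm_real,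
          Real.norm_eq_abs]
        gcongr
        exact cot_bound h0 ht
      calc ∫ t in RA ε, ‖(c a * ee (ν a) x) *
            (((Real.cot (Real.pi * t) : ℝ) : ℂ) * ee (j - ν a) t)‖
          ≤ ∫ t in RA ε, ‖c a‖ * (1 / Real.sin (Real.pi * ε)) := by
            refine setIntegral_mono_on ?_ ?_ (RA_meas ε) h4
            · exact ((int_term h0 (j - ν a)).const_mul _).norm
            · exact integrableOn_const (RA_fin ε).ne
        _ = _ := by
            rw [setIntegral_const, smul_eq_mul, Measure.real]; ring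
  set S : ℂ := Complex.I * ∑' a, c a * ((Int.sign (j - ν a) : ℤ) : ℂ) * ee (ν a) x with hS
  have hsgn : ∀ m : ℤ, ‖((Int.sign m : ℤ) : ℂ)‖ ≤ 1 := by
    intro m
    rcases Int.lt_trichotomy m 0 with h | h | h
    · rw [Int.sign_eq_neg_one_of_neg h]; simp
    · rw [h]; simp
    · rw [Int.sign_eq_one_of_pos h]; simp
  have hsumS : Summable (fun a => c a * ((Int.sign (j - ν a) : ℤ) : ℂ) * ee (ν a) x) := by
    refine Summable.of_norm_bounded hs0 fun a => ?_
    rw [norm_mul, norm_mul, norm_ee, mul_one]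
    exact mul_le_of_le_one_right (norm_nonneg _) (hsgn _)
  have hSsum : HasSum (fun a => Complex.I * (c a * ((Int.sign (j - ν a) : ℤ) : ℂ) * ee (ν a) x)) S :=
    hsumS.hasSum.mul_left Complex.I
  set T : ℝ := ∑' a, (1 + |(ν a : ℝ)|) * ‖c a‖ with hT
  have hbound : ∀ ε : ℝ, 0 < ε → ε < 1 / 2 →
      ‖trunc j F x ε - S‖ ≤ 4 * ε * (1 + |(j : ℝ)|) * T := by
    intro ε h0 h1
    have h2 := (hexp ε h0 h1).sub hSsum
    have h3 : ∀ a, ‖c a * ee (ν a) x * J (j - ν a) ε -
        Complex.I * (c a * ((Int.sign (j - ν a) : ℤ) : ℂ) * ee (ν a) x)‖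
        ≤ 4 * ε * (1 + |(j : ℝ)|) * ((1 + |(ν a : ℝ)|) * ‖c a‖) := by
      intro a
      have e1 : c a * ee (ν a) x * J (j - ν a) ε -
          Complex.I * (c a * ((Int.sign (j - ν a) : ℤ) : ℂ) * ee (ν a) x)
          = c a * ee (ν a) x * (J (j - ν a) ε - Complex.I * ((Int.sign (j - ν a) : ℤ) : ℂ)) := by
        ring
      rw [e1, norm_mul, norm_mul, norm_ee, mul_one]
      have h4 := hcot (j - ν a) ε h0 h1
      have h5 : |((j - ν a : ℤ) : ℝ)| ≤ (1 + |(j : ℝ)|) * (1 + |(ν a : ℝ)|) := by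
        push_cast
        have h6 := abs_sub (j : ℝ) (ν a : ℝ)
        have h7 := abs_nonneg (j : ℝ)
        have h8 := abs_nonneg (ν a : ℝ)
        nlinarith
      calc ‖c a‖ * ‖J (j - ν a) ε - Complex.I * ((Int.sign (j - ν a) : ℤ) : ℂ)‖
          ≤ ‖c a‖ * (4 * |((j - ν a : ℤ) : ℝ)| * ε) := by
            gcongr
            exact h4
        _ ≤ ‖c a‖ * (4 * ((1 + |(j : ℝ)|) * (1 + |(ν a : ℝ)|)) * ε) := by gcongr
        _ = _ := by ring
    have h9 := hs.hasSum.mul_left (4 * ε * (1 + |(j : ℝ)|))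
    rw [← h2.tsum_eq]
    refine (norm_tsum_le_tsum_norm (Summable.of_nonneg_of_le (fun a => norm_nonneg _) h3
      h9.summable)).trans ?_
    rw [← h9.tsum_eq]
    exact Summable.tsum_le_tsum h3 (Summable.of_nonneg_of_le (fun a => norm_nonneg _) h3
      h9.summable) h9.summable
  rw [tendsto_iff_norm_sub_tendsto_zero]
  have hlim : Tendsto (fun ε : ℝ => 4 * ε * (1 + |(j : ℝ)|) * T) (𝓝[>] 0) (𝓝 0) := by
    have : Tendsto (fun ε : ℝ => 4 * ε * (1 + |(j : ℝ)|) * T) (𝓝 0)
        (𝓝 (4 * 0 * (1 + |(j : ℝ)|) * T)) := by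
      exact (((continuous_const.mul continuous_id).mul continuous_const).mul
        continuous_const).tendsto 0
    rw [mul_zero, zero_mul, zero_mul] at this
    exact this.mono_left nhdsWithin_le_nhds
  refine squeeze_zero' (Eventually.of_forall fun ε => norm_nonneg _) ?_ hlim
  have : Ioo (0 : ℝ) (1 / 2) ∈ 𝓝[>] (0 : ℝ) := Ioo_mem_nhdsGT (by norm_num)
  filter_upwards [this] with ε hε
  exact hbound ε hε.1 hε.2

end Pool.Agent.MP777
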