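import Pool.Agent.Lib.MP_777af9_an.Spec

/-! The logarithmic bound is the same as the off-support inequality. -/

open MeasureTheory Set Filter Topology
open scoped ENNReal

noncomputable section

namespace Pool.Agent.MP777

namespace OffAux

lemma CLm_mono (f : ℝ → ℂ) {L L' : ℕ} (h : L ≤ L') (x : ℝ) : CLm L f x ≤ CLm L' f x := by
  unfold CLm
  apply iSup₂_le
  intro N hN
  have h1 : N ∈ Finset.Icc 1 L' := Finset.Icc_subset_Icc_right h hN
  exact le_iSup₂_of_le N h1 le_rfl

lemma Cf_eq (f : ℝ → ℂ) (x : ℝ) : Cf f x = ⨆ L : ℕ, CLm L f x := by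
  apply le_antisymm
  · unfold Cf
    apply iSup₂_le
    intro N hN
    refine le_iSup_of_le N ?_
    unfold CLm
    exact le_iSup₂_of_le N (Finset.mem_Icc.2 ⟨hN, le_rfl⟩) le_rfl
  · apply iSup_le
    intro L
    unfold CLm Cf
    apply iSup₂_le
    intro N hN
    exact le_iSup₂_of_le N (Finset.mem_Icc.1 hN).1 le_rfl

lemma sm_cx {h : ℝ → ℝ} (hh : SmR h) : Sm (cx h) := by
  constructor
  · exact Complex.ofRealCLM.contDiff.comp hh.1
  · intro x
    unfold cx
    rw [hh.2 x]

lemma lint_Cf (hC : CLprops) {h : ℝ → ℝ} (hh : SmR h) :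
    ∫⁻ x in zer h, Cf (cx h) x = ⨆ L : ℕ, ∫⁻ x in zer h, CLm L (cx h) x := by
  rw [← lintegral_iSup (fun L => hC.measL L _ (sm_cx hh)) (fun L L' hL x => CLm_mono _ hL x)]
  apply lintegral_congr
  intro x
  exact Cf_eq _ x

lemma mass_le {h : ℝ → ℝ} {M : ℝ} (hh : SmR h) (hM : ∀ x, h x ≤ M) : mass h ≤ M := by
  unfold mass
  have h1 : ∫ x in (0 : ℝ)..1, h x ≤ ∫ _x in (0 : ℝ)..1, M := by
    apply intervalIntegral.integral_mono_on zero_le_one
    · exact hh.1.continuous.intervalIntegrable _ _
    · exact intervalIntegrable_const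
    · intro x _
      exact hM x
  rw [intervalIntegral.integral_const, sub_zero, one_smul] at h1
  exact h1

end OffAux

open OffAux in
theorem c_Off : S_Off := by
  intro hC K hK
  constructor
  · intro hlog h M hh h0 hH hM
    have hHM : mass h ≤ M := mass_le hh hM
    have hMp : 0 < M := lt_of_lt_of_le hH hHM
    have key : ∀ m : ℝ, M / mass h < m →
        ∫⁻ x in zer h, Cf (cx h) x ≤ ENNReal.ofReal (K * mass h * Real.log m) := by
      intro m hm
      have hm1 : 1 < m := lt_of_le_of_lt ((one_le_div hH).2 hHM) hm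
      have hcls : Cls m h := by
        refine ⟨hh, h0, hH, ?_⟩
        intro x
        refine lt_of_le_of_lt (hM x) ?_
        exact (div_lt_iff₀ hH).1 hm
      rw [lint_Cf hC hh]
      apply iSup_le
      intro L
      have h1 : (∫⁻ x in zer h, CLm L (cx h) x) / ENNReal.ofReal (mass h) ≤ rr m := by
        unfold rr
        exact le_iSup_of_le h (le_iSup_of_le hcls (le_iSup_of_le L le_rfl))
      have h2 := h1.trans (hlog m hm1)
      rw [ENNReal.div_le_iff (by simpa using hH) ENNReal.ofReal_ne_top] at h2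
      refine h2.trans (le_of_eq ?_)
      rw [← ENNReal.ofReal_mul (mul_nonneg hK.le (Real.log_nonneg hm1.le))]
      congr 1
      ring
    have hdiv : 0 < M / mass h := div_pos hMp hH
    have ht : Tendsto (fun m : ℝ => ENNReal.ofReal (K * mass h * Real.log m)) (𝓝[>] (M / mass h))
        (𝓝 (ENNReal.ofReal (K * mass h * Real.log (M / mass h)))) := by
      apply (ENNReal.continuous_ofReal.tendsto _).comp
      apply Tendsto.mono_left _ nhdsWithin_le_nhds
      exact ((Real.continuousAt_log hdiv.ne').tendsto).const_mul _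
    refine ge_of_tendsto ht ?_
    filter_upwards [self_mem_nhdsWithin] with m hm
    exact key m hm
  · intro hoff m hm
    unfold rr
    apply iSup_le
    intro h
    apply iSup_le
    intro hcls
    apply iSup_le
    intro L
    obtain ⟨hh, h0, hH, hlt⟩ := hcls
    have h1 := hoff h (m * mass h) hh h0 hH (fun x => (hlt x).le)
    rw [mul_div_cancel_right₀ _ hH.ne'] at h1
    rw [ENNReal.div_le_iff (by simpa using hH) ENNReal.ofReal_ne_top]
    have h2 : ∫⁻ x in zer h, CLm L (cx h) x ≤ ∫⁻ x in zer h, Cf (cx h) x := by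
      rw [lint_Cf hC hh]
      exact le_iSup (fun L : ℕ => ∫⁻ x in zer h, CLm L (cx h) x) L
    refine h2.trans (h1.trans (le_of_eq ?_))
    rw [← ENNReal.ofReal_mul (mul_nonneg hK.le (Real.log_nonneg hm.le))]
    congr 1
    ring

end Pool.Agent.MP777
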