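import Pool.Agent.Lib.MP_777af9_an.Spec

/-!
# MP_777af9_an: large frequencies and the mass of tensor products
-/

open MeasureTheory Set Filter Topology
open scoped ENNReal

noncomputable section

namespace Pool.Agent.MP777

namespace PMassAux

theorem sm_cx {h : ℝ → ℝ} (hh : SmR h) : Sm (cx h) := by
  refine ⟨?_, ?_⟩
  · exact Complex.ofRealCLM.contDiff.comp hh.1
  · intro x
    unfold cx
    rw [hh.2 x]

theorem norm_ee (n : ℤ) (x : ℝ) : ‖ee n x‖ = 1 := by
  unfold ee
  have : (2 * Real.pi * Complex.I * (n : ℂ) * (x : ℂ)) = ((2 * Real.pi * n * x : ℝ) : ℂ) * Complex.I := by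
    push_cast; ring
  rw [this, Complex.norm_exp_ofReal_mul_I]

theorem ee_add (m : ℤ) (x y : ℝ) : ee m (x + y) = ee m x * ee m y := by
  unfold ee
  rw [← Complex.exp_add]
  congr 1
  push_cast; ring

theorem ee_mul (m : ℤ) (k : ℕ) (x : ℝ) : ee m ((k : ℝ) * x) = ee ((k : ℤ) * m) x := by
  unfold ee
  congr 1
  push_cast; ring

theorem ee_zero (x : ℝ) : ee 0 x = 1 := by
  unfold ee
  simp

theorem continuous_ee (n : ℤ) : Continuous (ee n) := by
  unfold ee
  fun_prop

theorem co_zero (g : ℝ → ℝ) : co (cx g) 0 = ((mass g : ℝ) : ℂ) := by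
  unfold co mass cx
  simp only [neg_zero, ee_zero, mul_one]
  exact intervalIntegral.integral_ofReal

theorem pm (h4 : S_Four) (hM : MultCN) : PM := by
  intro h hh η hη
  obtain ⟨hs, hsum⟩ := h4 (cx h) (sm_cx hh)
  set S : ℝ := ∑' n : ℤ, (1 + |(n : ℝ)|) * ‖co (cx h) n‖ with hS
  obtain ⟨R0, hR0⟩ := exists_nat_ge (2 * S / η)
  refine ⟨R0, fun R hR x => ?_⟩
  have hform := hM ℤ (co (cx h)) id (cx h) hs hsum
  rw [hform R x, hform (-R) x, ← mul_add]
  have hbd : ∀ (j : ℤ) (n : ℤ), ‖co (cx h) n * ((Int.sign (j - id n) : ℤ) : ℂ) * ee (id n) x‖ ≤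
      (1 + |(n : ℝ)|) * ‖co (cx h) n‖ := by
    intro j n
    rw [norm_mul, norm_mul, norm_ee, mul_one]
    have h1 : ‖((Int.sign (j - id n) : ℤ) : ℂ)‖ ≤ 1 := by
      rcases Int.sign_trichotomy (j - id n) with h | h | h <;> rw [h] <;> simp
    calc ‖co (cx h) n‖ * ‖((Int.sign (j - id n) : ℤ) : ℂ)‖ ≤ ‖co (cx h) n‖ * 1 :=
          mul_le_mul_of_nonneg_left h1 (norm_nonneg _)
      _ = 1 * ‖co (cx h) n‖ := by ring
      _ ≤ _ := by
        apply mul_le_mul_of_nonneg_right _ (norm_nonneg _)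
        have := abs_nonneg (n : ℝ)
        linarith
  have hsm : ∀ j : ℤ, Summable (fun n : ℤ => co (cx h) n * ((Int.sign (j - id n) : ℤ) : ℂ) *
      ee (id n) x) := fun j => Summable.of_norm_bounded hs (hbd j)
  rw [← (hsm R).tsum_add (hsm (-R))]
  rw [norm_mul, Complex.norm_I, one_mul]
  have hRpos : (0 : ℝ) < 1 + R := by positivity
  have hterm : ∀ n : ℤ, ‖co (cx h) n * ((Int.sign ((R : ℤ) - id n) : ℤ) : ℂ) * ee (id n) x +
      co (cx h) n * ((Int.sign (-(R : ℤ) - id n) : ℤ) : ℂ) * ee (id n) x‖ ≤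
      2 / (1 + R) * ((1 + |(n : ℝ)|) * ‖co (cx h) n‖) := by
    intro n
    have e : co (cx h) n * ((Int.sign ((R : ℤ) - id n) : ℤ) : ℂ) * ee (id n) x +
      co (cx h) n * ((Int.sign (-(R : ℤ) - id n) : ℤ) : ℂ) * ee (id n) x =
      co (cx h) n * ((Int.sign ((R : ℤ) - n) + Int.sign (-(R : ℤ) - n) : ℤ) : ℂ) * ee n x := by
      push_cast
      simp only [id]
      ring
    rw [e, norm_mul, norm_mul, norm_ee, mul_one]
    by_cases hn : |n| < (R : ℤ)
    · rw [abs_lt] at hn
      have h1 : Int.sign ((R : ℤ) - n) = 1 := Int.sign_eq_one_of_pos (by omega)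
      have h2 : Int.sign (-(R : ℤ) - n) = -1 := Int.sign_eq_neg_one_of_neg (by omega)
      rw [h1, h2]
      simp only [add_neg_cancel, Int.cast_zero, norm_zero, mul_zero]
      positivity
    · push Not at hn
      have h3 : ‖((Int.sign ((R : ℤ) - n) + Int.sign (-(R : ℤ) - n) : ℤ) : ℂ)‖ ≤ 2 := by
        rcases Int.sign_trichotomy ((R : ℤ) - n) with h | h | h <;>
          rcases Int.sign_trichotomy (-(R : ℤ) - n) with h' | h' | h' <;> rw [h, h'] <;> norm_num
      have h4 : (1 + (R : ℝ)) ≤ 1 + |(n : ℝ)| := by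
        have : ((R : ℤ) : ℝ) ≤ ((|n| : ℤ) : ℝ) := by exact_mod_cast hn
        rw [Int.cast_abs, Int.cast_natCast] at this
        linarith
      calc ‖co (cx h) n‖ * ‖((Int.sign ((R : ℤ) - n) + Int.sign (-(R : ℤ) - n) : ℤ) : ℂ)‖
          ≤ ‖co (cx h) n‖ * 2 := mul_le_mul_of_nonneg_left h3 (norm_nonneg _)
        _ = 2 / (1 + R) * ((1 + (R : ℝ)) * ‖co (cx h) n‖) := by
            field_simp
        _ ≤ _ := by
            apply mul_le_mul_of_nonneg_left _ (by positivity)
            exact mul_le_mul_of_nonneg_right h4 (norm_nonneg _)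
  have hle := tsum_of_norm_bounded (hs.hasSum.mul_left (2 / (1 + (R : ℝ)))) hterm
  refine hle.trans ?_
  rw [← hS]
  have h5 : 2 * S / η ≤ 1 + R := by
    have : (R0 : ℝ) ≤ R := by exact_mod_cast hR
    linarith
  rw [div_le_iff₀ hη] at h5
  rw [div_mul_eq_mul_div, div_le_iff₀ hRpos]
  linarith

theorem massAs (h4 : S_Four) : MassAs := by
  intro h g hh hg η hη
  obtain ⟨hs, _⟩ := h4 (cx h) (sm_cx hh)
  obtain ⟨gs, gsum⟩ := h4 (cx g) (sm_cx hg)
  set S : ℝ := ∑' n : ℤ, (1 + |(n : ℝ)|) * ‖co (cx h) n‖ with hS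
  have gs' : Summable (fun n : ℤ => ‖co (cx g) n‖) := by
    refine Summable.of_nonneg_of_le (fun n => norm_nonneg _) (fun n => ?_) gs
    have : 1 * ‖co (cx g) n‖ ≤ (1 + |(n : ℝ)|) * ‖co (cx g) n‖ := by
      apply mul_le_mul_of_nonneg_right _ (norm_nonneg _)
      have := abs_nonneg (n : ℝ)
      linarith
    linarith
  set Gs : ℝ := ∑' n : ℤ, ‖co (cx g) n‖ with hGs
  have hSnn : 0 ≤ S := tsum_nonneg fun n => by positivity
  have hGnn : 0 ≤ Gs := tsum_nonneg fun n => norm_nonneg _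
  obtain ⟨k0, hk0⟩ := exists_nat_ge (S * Gs / η)
  refine ⟨k0, fun k hk θ => ?_⟩
  have hkpos : (0 : ℝ) < 1 + k := by positivity
  -- bound for `h`
  have hcont : Continuous h := hh.1.continuous
  obtain ⟨B, hB⟩ : ∃ B, ∀ x ∈ Icc (0 : ℝ) 1, ‖h x‖ ≤ B :=
    isCompact_Icc.exists_bound_of_continuousOn hcont.continuousOn
  -- the expansion
  have key : HasSum (fun m : ℤ => ∫ x in (0 : ℝ)..1, (cx h x * (co (cx g) m * ee m ((k : ℝ) * x + θ))))
      (∫ x in (0 : ℝ)..1, cx h x * cx g ((k : ℝ) * x + θ)) := by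
    apply intervalIntegral.hasSum_integral_of_dominated_convergence
      (bound := fun m _ => B * ‖co (cx g) m‖)
    · intro m
      apply Continuous.aestronglyMeasurable
      apply Continuous.mul
      · exact Complex.continuous_ofReal.comp hcont
      · exact continuous_const.mul ((continuous_ee m).comp (by fun_prop))
    · intro m
      refine Filter.Eventually.of_forall fun x hx => ?_
      rw [uIoc_of_le zero_le_one] at hx
      rw [norm_mul, norm_mul, norm_ee, mul_one]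
      apply mul_le_mul_of_nonneg_right _ (norm_nonneg _)
      have := hB x ⟨hx.1.le, hx.2⟩
      unfold cx
      rw [Complex.norm_real]
      exact this
    · refine Filter.Eventually.of_forall fun x _ => ?_
      exact gs'.mul_left B
    · exact intervalIntegrable_const
    · refine Filter.Eventually.of_forall fun x _ => ?_
      exact (gsum ((k : ℝ) * x + θ)).mul_left (cx h x)
  have hmass : (∫ x in (0 : ℝ)..1, cx h x * cx g ((k : ℝ) * x + θ)) =
      ((mass (tens h g k θ) : ℝ) : ℂ) := by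
    unfold mass tens cx
    rw [← intervalIntegral.integral_ofReal]
    congr 1
    funext x
    push_cast
    rfl
  have hint : ∀ m : ℤ, (∫ x in (0 : ℝ)..1, (cx h x * (co (cx g) m * ee m ((k : ℝ) * x + θ)))) =
      co (cx g) m * ee m θ * co (cx h) (-((k : ℤ) * m)) := by
    intro m
    unfold co
    rw [← intervalIntegral.integral_const_mul]
    congr 1
    funext x
    rw [ee_add, ee_mul, neg_neg]
    ring
  simp only [hint] at key
  rw [hmass] at key
  -- remove the term `m = 0`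
  have h0 : HasSum (fun m : ℤ => if m = 0 then ((mass h * mass g : ℝ) : ℂ) else 0)
      ((mass h * mass g : ℝ) : ℂ) := by
    have := hasSum_ite_eq (0 : ℤ) ((mass h * mass g : ℝ) : ℂ)
    exact this
  have hdiff := key.sub h0
  have hterm : ∀ m : ℤ, ‖co (cx g) m * ee m θ * co (cx h) (-((k : ℤ) * m)) -
      (if m = 0 then ((mass h * mass g : ℝ) : ℂ) else 0)‖ ≤ S / (1 + k) * ‖co (cx g) m‖ := by
    intro m
    by_cases hm : m = 0
    · subst hm
      rw [if_pos rfl, mul_zero, neg_zero, ee_zero, co_zero, co_zero]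
      have : ((mass g : ℝ) : ℂ) * 1 * ((mass h : ℝ) : ℂ) - ((mass h * mass g : ℝ) : ℂ) = 0 := by
        push_cast; ring
      rw [this, norm_zero]
      positivity
    · rw [if_neg hm, sub_zero, norm_mul, norm_mul, norm_ee, mul_one]
      have h1 : (1 + |((-((k : ℤ) * m) : ℤ) : ℝ)|) * ‖co (cx h) (-((k : ℤ) * m))‖ ≤ S :=
        hs.le_tsum (-((k : ℤ) * m)) (fun n _ => by positivity)
      have h2 : (1 + (k : ℝ)) ≤ 1 + |((-((k : ℤ) * m) : ℤ) : ℝ)| := by
        push_cast
        rw [abs_neg, abs_mul, Nat.abs_cast]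
        have h3 : (1 : ℝ) ≤ |(m : ℝ)| := by
          have : (1 : ℤ) ≤ |m| := Int.one_le_abs hm
          have h4 : ((1 : ℤ) : ℝ) ≤ ((|m| : ℤ) : ℝ) := by exact_mod_cast this
          rw [Int.cast_abs, Int.cast_one] at h4
          exact h4
        have h5 : (k : ℝ) * 1 ≤ k * |(m : ℝ)| := mul_le_mul_of_nonneg_left h3 (by positivity)
        linarith
      have h6 : ‖co (cx h) (-((k : ℤ) * m))‖ ≤ S / (1 + k) := by
        rw [le_div_iff₀ hkpos]
        calc ‖co (cx h) (-((k : ℤ) * m))‖ * (1 + k) = (1 + k) * ‖co (cx h) (-((k : ℤ) * m))‖ := by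
              ring
          _ ≤ (1 + |((-((k : ℤ) * m) : ℤ) : ℝ)|) * ‖co (cx h) (-((k : ℤ) * m))‖ :=
              mul_le_mul_of_nonneg_right h2 (norm_nonneg _)
          _ ≤ S := h1
      calc ‖co (cx g) m‖ * ‖co (cx h) (-((k : ℤ) * m))‖ ≤ ‖co (cx g) m‖ * (S / (1 + k)) :=
            mul_le_mul_of_nonneg_left h6 (norm_nonneg _)
        _ = _ := by ring
  have hle := tsum_of_norm_bounded (gs'.hasSum.mul_left (S / (1 + (k : ℝ)))) hterm
  rw [hdiff.tsum_eq, ← hGs, ← Complex.ofReal_sub, Complex.norm_real, Real.norm_eq_abs] at hle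
  refine hle.trans ?_
  have h5 : S * Gs / η ≤ 1 + k := by
    have : (k0 : ℝ) ≤ k := by exact_mod_cast hk
    linarith
  rw [div_le_iff₀ hη] at h5
  rw [div_mul_eq_mul_div, div_le_iff₀ hkpos]
  linarith

end PMassAux

/-- **PM.** -/
theorem c_PM : S_PM := fun h4 hM => ⟨PMassAux.pm h4 hM, PMassAux.massAs h4⟩

end Pool.Agent.MP777
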