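import Pool.Agent.Lib.MP_777af9_an.Spec

/-!
# MP_777af9_an: `phi1` defines a Lorentz space
-/

open MeasureTheory Set Filter Topology
open scoped ENNReal

noncomputable section

namespace Pool.Agent.MP777

namespace PhiAux

theorem phi1_eq {t : ℝ} (ht : 0 ≤ t) : phi1 t = t + Real.negMulLog t := by
  unfold phi1 Real.negMulLog
  rcases eq_or_lt_of_le ht with h | h
  · rw [← h]; simp
  · rw [Real.log_div (Real.exp_ne_zero 1) h.ne', Real.log_exp]
    ring

theorem mono_aux : MonotoneOn (fun t : ℝ => t + Real.negMulLog t) (Icc 0 1) := by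
  apply monotoneOn_of_deriv_nonneg (convex_Icc 0 1)
  · exact (continuous_id.add Real.continuous_negMulLog).continuousOn
  · intro x hx
    rw [interior_Icc] at hx
    exact (differentiableAt_id.add
      (Real.differentiableAt_negMulLog_iff.mpr hx.1.ne')).differentiableWithinAt
  · intro x hx
    rw [interior_Icc] at hx
    have h1 : HasDerivAt (fun t : ℝ => t + Real.negMulLog t) (1 + (-Real.log x - 1)) x :=
      (hasDerivAt_id x).add (Real.hasDerivAt_negMulLog hx.1.ne')
    rw [h1.deriv]
    have := Real.log_nonpos hx.1.le hx.2.le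
    linarith

theorem lor : LorFun phi1 where
  mono := by
    intro s hs t ht hst
    rw [phi1_eq hs.1, phi1_eq ht.1]
    exact mono_aux hs ht hst
  conc := by
    have h1 : ConcaveOn ℝ (Icc (0 : ℝ) 1) (fun t : ℝ => t + Real.negMulLog t) := by
      apply ConcaveOn.add
      · exact concaveOn_id (convex_Icc 0 1)
      · exact Real.concaveOn_negMulLog.subset (fun x hx => hx.1) (convex_Icc 0 1)
    refine h1.congr ?_
    intro x hx
    exact (phi1_eq hx.1).symm
  zero := by
    unfold phi1
    rw [zero_mul]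

end PhiAux

open PhiAux in
/-- **Phi.** -/
theorem c_Phi : S_Phi := by
  refine ⟨PhiAux.lor, ?_⟩
  intro t s ht hts hs1
  have hs : 0 < s := lt_of_lt_of_le ht hts
  have h1 : t * Real.log (8 / t) = phi1 t + t * (Real.log 8 - 1) := by
    rw [phi1_eq ht.le]
    unfold Real.negMulLog
    rw [Real.log_div (by norm_num) ht.ne']
    ring
  have h8 : Real.log 8 = 3 * Real.log 2 := by
    rw [show (8 : ℝ) = 2 ^ 3 by norm_num, Real.log_pow]
    norm_num
  have hl := Real.log_two_gt_d9
  have hu := Real.log_two_lt_d9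
  have h2 : phi1 t ≤ phi1 s :=
    PhiAux.lor.mono ⟨ht.le, hts.trans hs1⟩ ⟨hs.le, hs1⟩ hts
  have h3 : t * (Real.log 8 - 1) ≤ s * (Real.log 8 - 1) := by
    apply mul_le_mul_of_nonneg_right hts
    rw [h8]; linarith
  have h4 : s * (Real.log 8 - 1) ≤ s * (3 / 2) := by
    apply mul_le_mul_of_nonneg_left _ hs.le
    rw [h8]; linarith
  have h5 : s ≤ phi1 s := by
    rw [phi1_eq hs.le]
    have := Real.negMulLog_nonneg hs.le hs1
    linarith
  rw [h1]
  linarith

end Pool.Agent.MP777
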