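import Pool.Agent.Lib.MP_777af9_an.Spec

/-!
# MP_777af9_an, task Pos: `rr 2` is positive
-/

open MeasureTheory Set Filter Topology
open scoped ENNReal

noncomputable section

namespace Pool.Agent.MP777

/-- the test function: it is `1` if `cos (2 π u) ≥ -5/8` and `0` if `cos (2 π u) ≤ -3/4` -/
private def tf (u : ℝ) : ℝ := Real.smoothTransition (8 * Real.cos (2 * Real.pi * u) + 6)

private theorem tf_nonneg (u : ℝ) : 0 ≤ tf u := Real.smoothTransition.nonneg _

private theorem tf_le (u : ℝ) : tf u ≤ 1 := Real.smoothTransition.le_one _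

private theorem tf_zero {u : ℝ} (h : Real.cos (2 * Real.pi * u) ≤ -3 / 4) : tf u = 0 :=
  Real.smoothTransition.zero_of_nonpos (by linarith)

private theorem tf_one {u : ℝ} (h : -1 / 2 ≤ Real.cos (2 * Real.pi * u)) : tf u = 1 :=
  Real.smoothTransition.one_of_one_le (by linarith)

private theorem tf_sm : SmR tf := by
  refine ⟨?_, fun u => ?_⟩
  · refine Real.smoothTransition.contDiff.comp ?_
    exact (contDiff_const.mul (Real.contDiff_cos.comp (contDiff_const.mul contDiff_id))).add
      contDiff_const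
  · unfold tf
    rw [mul_add, mul_one, Real.cos_add_two_pi]

private theorem cos_third : Real.cos (2 * Real.pi * (1 / 3)) = -1 / 2 := by
  have h : 2 * Real.pi * (1 / 3) = Real.pi - Real.pi / 3 := by ring
  rw [h, Real.cos_pi_sub, Real.cos_pi_div_three]
  norm_num

private theorem tf_left {u : ℝ} (h0 : 0 ≤ u) (h1 : u ≤ 1 / 3) : tf u = 1 := by
  refine tf_one ?_
  rw [← cos_third]
  have hp := Real.pi_pos
  refine Real.cos_le_cos_of_nonneg_of_le_pi (by positivity) (by nlinarith) (by nlinarith)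

private theorem tf_right {u : ℝ} (h0 : 2 / 3 ≤ u) (h1 : u ≤ 1) : tf u = 1 := by
  have h2 : tf u = tf (1 - u) := by
    unfold tf
    have : 2 * Real.pi * (1 - u) = 2 * Real.pi - 2 * Real.pi * u := by ring
    rw [this, Real.cos_two_pi_sub]
  rw [h2]
  exact tf_left (by linarith) (by linarith)

private theorem tf_mass : 2 / 3 ≤ mass tf := by
  have hc : Continuous tf := tf_sm.1.continuous
  have hi : ∀ a b : ℝ, IntervalIntegrable tf volume a b := fun a b => hc.intervalIntegrable a b
  have e1 : ∫ x in (0 : ℝ)..(1 / 3), tf x = 1 / 3 := by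
    rw [intervalIntegral.integral_congr (g := fun _ => (1 : ℝ))]
    · simp
    · intro u hu
      rw [uIcc_of_le (by norm_num)] at hu
      exact tf_left hu.1 hu.2
  have e2 : 0 ≤ ∫ x in (1 / 3 : ℝ)..(2 / 3), tf x :=
    intervalIntegral.integral_nonneg (by norm_num) fun u _ => tf_nonneg u
  have e3 : ∫ x in (2 / 3 : ℝ)..1, tf x = 1 / 3 := by
    rw [intervalIntegral.integral_congr (g := fun _ => (1 : ℝ))]
    · simp
      norm_num
    · intro u hu
      rw [uIcc_of_le (by norm_num)] at hu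
      exact tf_right hu.1 hu.2
  unfold mass
  rw [← intervalIntegral.integral_add_adjacent_intervals (hi 0 (1 / 3)) (hi (1 / 3) 1),
    ← intervalIntegral.integral_add_adjacent_intervals (hi (1 / 3) (2 / 3)) (hi (2 / 3) 1), e1, e3]
  linarith

private theorem tf_cls : Cls 2 tf := by
  have h := tf_mass
  refine ⟨tf_sm, tf_nonneg, by linarith, fun x => ?_⟩
  have := tf_le x
  linarith

private theorem sm_cx {h : ℝ → ℝ} (hh : SmR h) : Sm (cx h) := by
  refine ⟨?_, fun x => ?_⟩
  · exact Complex.ofRealCLM.contDiff.comp hh.1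
  · unfold cx
    rw [hh.2 x]

private theorem ee_norm (n : ℤ) (x : ℝ) : ‖ee n x‖ = 1 := by
  unfold ee
  have : 2 * (Real.pi : ℂ) * Complex.I * (n : ℂ) * (x : ℂ) =
      ((2 * Real.pi * n * x : ℝ) : ℂ) * Complex.I := by push_cast; ring
  rw [this, Complex.norm_exp_ofReal_mul_I]

private theorem ee_add (m n : ℤ) (x : ℝ) : ee (m + n) x = ee m x * ee n x := by
  unfold ee
  rw [← Complex.exp_add]
  congr 1
  push_cast
  ring

private theorem ee_zero (x : ℝ) : ee 0 x = 1 := by
  unfold ee
  simp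

private theorem ee_conj (n : ℤ) (x : ℝ) : (starRingEnd ℂ) (ee n x) = ee (-n) x := by
  unfold ee
  rw [← Complex.exp_conj]
  congr 1
  have h2 : (starRingEnd ℂ) 2 = 2 := Complex.conj_ofReal 2
  simp [h2]

private theorem ee_ne (n : ℤ) (x : ℝ) : ee n x ≠ 0 := by
  intro h
  have := ee_norm n x
  rw [h, norm_zero] at this
  exact zero_ne_one this

private theorem co_conj (h : ℝ → ℝ) (n : ℤ) : co (cx h) (-n) = (starRingEnd ℂ) (co (cx h) n) := by
  unfold co
  rw [intervalIntegral.integral_of_le zero_le_one, intervalIntegral.integral_of_le zero_le_one,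
    ← integral_conj]
  refine integral_congr_ae (ae_of_all _ fun t => ?_)
  show cx h t * ee (- -n) t = (starRingEnd ℂ) (cx h t * ee (-n) t)
  rw [map_mul, ee_conj]
  congr 1
  unfold cx
  rw [Complex.conj_ofReal]

/-- the difference of two consecutive `CN` -/
private theorem cn_diff (h4 : S_Four) (hM : MultCN) {f : ℝ → ℂ} (hf : Sm f) (N : ℤ) (x : ℝ) :
    CN (N + 1) f x - CN N f x =
      Complex.I * (co f N * ee N x + co f (N + 1) * ee (N + 1) x) := by
  obtain ⟨hs, hx⟩ := h4 f hf
  have hs1 : Summable fun n : ℤ => ‖co f n‖ := by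
    refine Summable.of_nonneg_of_le (fun n => norm_nonneg _) (fun n => ?_) hs
    have : 0 ≤ |(n : ℝ)| := abs_nonneg _
    nlinarith [norm_nonneg (co f n)]
  have hsg : ∀ m : ℤ, Summable fun n : ℤ => co f n * ((Int.sign (m - n) : ℤ) : ℂ) * ee n x := by
    intro m
    refine Summable.of_norm_bounded hs1 fun n => ?_
    rw [norm_mul, norm_mul, ee_norm, mul_one]
    have : ‖((Int.sign (m - n) : ℤ) : ℂ)‖ ≤ 1 := by
      rcases lt_trichotomy (m - n) 0 with h | h | h
      · rw [Int.sign_eq_neg_one_of_neg h]; simp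
      · rw [h]; simp
      · rw [Int.sign_eq_one_of_pos h]; simp
    nlinarith [norm_nonneg (co f n)]
  rw [hM ℤ (co f) id f hs hx (N + 1) x, hM ℤ (co f) id f hs hx N x, ← mul_sub]
  congr 1
  simp only [id]
  rw [← (hsg (N + 1)).tsum_sub (hsg N), tsum_eq_sum (s := {N, N + 1})]
  · rw [Finset.sum_pair (by omega)]
    have e1 : Int.sign (N + 1 - N) = 1 := by
      rw [Int.sign_eq_one_of_pos (by omega)]
    have e2 : Int.sign (N - N) = 0 := by simp
    have e3 : Int.sign (N + 1 - (N + 1)) = 0 := by simp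
    have e4 : Int.sign (N - (N + 1)) = -1 := by
      rw [Int.sign_eq_neg_one_of_neg (by omega)]
    rw [e1, e2, e3, e4]
    push_cast
    ring
  · intro n hn
    simp only [Finset.mem_insert, Finset.mem_singleton, not_or] at hn
    have : Int.sign (N + 1 - n) = Int.sign (N - n) := by
      rcases lt_or_gt_of_ne hn.1 with h | h
      · rw [Int.sign_eq_one_of_pos (by omega), Int.sign_eq_one_of_pos (by omega)]
      · rw [Int.sign_eq_neg_one_of_neg (by omega), Int.sign_eq_neg_one_of_neg (by omega)]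
    rw [this]
    ring

theorem c_Pos : S_Pos := by
  intro h4 hM hC
  by_contra hr
  rw [not_lt, nonpos_iff_eq_zero] at hr
  have hsm := sm_cx tf_sm
  have hm := tf_mass
  -- the open set where the function vanishes
  let U : Set ℝ := {x | Real.cos (2 * Real.pi * x) < -3 / 4} ∩ Ioo 0 1
  have hU : IsOpen U := by
    refine IsOpen.inter ?_ isOpen_Ioo
    exact isOpen_lt (by fun_prop) continuous_const
  have hUz : U ⊆ zer tf := fun x hx => ⟨⟨hx.2.1, hx.2.2.le⟩, tf_zero (le_of_lt hx.1)⟩
  have hhalf : (1 / 2 : ℝ) ∈ U := by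
    refine ⟨?_, by norm_num, by norm_num⟩
    show Real.cos (2 * Real.pi * (1 / 2)) < -3 / 4
    have : 2 * Real.pi * (1 / 2) = Real.pi := by ring
    rw [this, Real.cos_pi]
    norm_num
  have hL : ∀ L : ℕ, ∫⁻ x in zer tf, CLm L (cx tf) x = 0 := by
    intro L
    have h1 : (∫⁻ x in zer tf, CLm L (cx tf) x) / ENNReal.ofReal (mass tf) ≤ rr 2 := by
      unfold rr
      exact le_iSup_of_le tf (le_iSup_of_le tf_cls (le_iSup_of_le L le_rfl))
    rw [hr, nonpos_iff_eq_zero, ENNReal.div_eq_zero_iff] at h1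
    rcases h1 with h1 | h1
    · exact h1
    · exact absurd h1 ENNReal.ofReal_ne_top
  have hCN : ∀ N : ℕ, 1 ≤ N → ∀ x ∈ U, CN (N : ℤ) (cx tf) x = 0 := by
    intro N hN x hx
    by_contra hne
    have hcont := hC.cont (N : ℤ) (cx tf) hsm
    have hopen : IsOpen (U ∩ {y | CN (N : ℤ) (cx tf) y ≠ 0}) :=
      hU.inter (isOpen_ne_fun hcont continuous_const)
    have hpos : 0 < volume (U ∩ {y | CN (N : ℤ) (cx tf) y ≠ 0}) :=
      hopen.measure_pos volume ⟨x, hx, hne⟩
    have h0 : ∫⁻ y in U, ‖CN (N : ℤ) (cx tf) y‖ₑ = 0 := by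
      refine le_antisymm ?_ zero_le
      calc ∫⁻ y in U, ‖CN (N : ℤ) (cx tf) y‖ₑ ≤ ∫⁻ y in zer tf, ‖CN (N : ℤ) (cx tf) y‖ₑ :=
            lintegral_mono_set hUz
        _ ≤ ∫⁻ y in zer tf, CLm N (cx tf) y := by
            refine lintegral_mono fun y => ?_
            exact le_iSup₂_of_le N (Finset.mem_Icc.2 ⟨hN, le_rfl⟩) le_rfl
        _ = 0 := hL N
    rw [lintegral_eq_zero_iff hcont.measurable.enorm] at h0
    have h1 : (volume.restrict U) {y | CN (N : ℤ) (cx tf) y ≠ 0} = 0 := by
      refine measure_mono_null (fun y hy => ?_) h0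
      show ¬ (‖CN (N : ℤ) (cx tf) y‖ₑ = 0)
      rw [enorm_eq_zero]
      exact hy
    rw [Measure.restrict_apply' hU.measurableSet, inter_comm] at h1
    exact absurd h1 hpos.ne'
  -- two points with different values of `ee 1`
  obtain ⟨y, hyU, hy⟩ : ∃ y ∈ U, ee 1 y ≠ ee 1 (1 / 2) := by
    obtain ⟨δ, hδ, hb⟩ := Metric.isOpen_iff.1 hU (1 / 2) hhalf
    have hmin : 0 < min δ (1 / 2) := lt_min hδ (by norm_num)
    have hm1 : min δ (1 / 2) ≤ δ := min_le_left _ _
    have hm2 : min δ (1 / 2) ≤ 1 / 2 := min_le_right _ _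
    refine ⟨1 / 2 + min δ (1 / 2) / 2, hb ?_, ?_⟩
    · rw [Metric.mem_ball, Real.dist_eq, add_sub_cancel_left, abs_of_pos (by linarith)]
      linarith
    · intro he
      unfold ee at he
      rw [Complex.exp_eq_exp_iff_exists_int] at he
      obtain ⟨n, hn⟩ := he
      have hpi : (Real.pi : ℂ) ≠ 0 := by exact_mod_cast Real.pi_ne_zero
      have h2 : (((min δ (1 / 2) / 2 : ℝ) : ℂ)) = ((n : ℝ) : ℂ) := by
        have h3 : 2 * (Real.pi : ℂ) * Complex.I ≠ 0 :=
          mul_ne_zero (mul_ne_zero two_ne_zero hpi) Complex.I_ne_zero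
        apply mul_left_cancel₀ h3
        push_cast at hn ⊢
        linear_combination hn
      have h3 : min δ (1 / 2) / 2 = (n : ℝ) := by exact_mod_cast h2
      have h4' : (0 : ℝ) < (n : ℝ) := by rw [← h3]; linarith
      have h5 : (n : ℝ) < 1 := by rw [← h3]; linarith
      have h6 : 0 < n := by exact_mod_cast h4'
      have h7 : n < 1 := by exact_mod_cast h5
      omega
  have hco : ∀ N : ℕ, 1 ≤ N → co (cx tf) N = 0 := by
    intro N hN
    have hx : ∀ x ∈ U, co (cx tf) N + co (cx tf) (N + 1) * ee 1 x = 0 := by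
      intro x hx
      have h1 := cn_diff h4 hM hsm (N : ℤ) x
      have h2 := hCN N hN x hx
      have h3 := hCN (N + 1) (by omega) x hx
      push_cast at h3
      rw [h3, h2, sub_zero, ee_add] at h1
      have h5 := (mul_eq_zero.1 h1.symm).resolve_left Complex.I_ne_zero
      have h6 : ee N x * (co (cx tf) N + co (cx tf) (N + 1) * ee 1 x) = 0 := by
        rw [← h5]; ring
      exact (mul_eq_zero.1 h6).resolve_left (ee_ne _ _)
    have h1 := hx y hyU
    have h2 := hx (1 / 2) hhalf
    have h3 : co (cx tf) (N + 1) * (ee 1 y - ee 1 (1 / 2)) = 0 := by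
      linear_combination h1 - h2
    have h5 := (mul_eq_zero.1 h3).resolve_right (sub_ne_zero.2 hy)
    rw [h5, zero_mul, add_zero] at h1
    exact h1
  have hco' : ∀ n : ℤ, n ≠ 0 → co (cx tf) n = 0 := by
    intro n hn
    rcases lt_or_gt_of_ne hn with h | h
    · obtain ⟨k, rfl⟩ : ∃ k : ℕ, n = -(k : ℤ) := ⟨n.natAbs, by omega⟩
      rw [co_conj, hco k (by omega), map_zero]
    · obtain ⟨k, rfl⟩ : ∃ k : ℕ, n = (k : ℤ) := ⟨n.natAbs, by omega⟩
      exact hco k (by omega)
  have hval : ∀ x, cx tf x = co (cx tf) 0 := by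
    intro x
    have h1 := (h4 (cx tf) hsm).2 x
    have h2 : HasSum (fun n : ℤ => co (cx tf) n * ee n x) (co (cx tf) 0 * ee 0 x) :=
      hasSum_single 0 fun n hn => by rw [hco' n hn, zero_mul]
    rw [h1.unique h2, ee_zero, mul_one]
  have e0 : cx tf 0 = 1 := by
    unfold cx
    rw [tf_left le_rfl (by norm_num)]
    simp
  have e1 : cx tf (1 / 2) = 0 := by
    unfold cx
    rw [(hUz hhalf).2]
    simp
  rw [hval 0] at e0
  rw [hval (1 / 2), e0] at e1
  exact one_ne_zero e1

end Pool.Agent.MP777
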