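import Pool.Agent.Lib.MP_777af9_an.Spec

/-!
# MP_777af9_an: asymptotics of `CN` on tensor products
-/

open MeasureTheory Set Filter Topology
open scoped ENNReal

noncomputable section

namespace Pool.Agent.MP777

namespace ProdAux

theorem norm_ee (n : ℤ) (x : ℝ) : ‖ee n x‖ = 1 := by
  unfold ee
  have : (2 * Real.pi * Complex.I * (n : ℂ) * (x : ℂ)) = ((2 * Real.pi * n * x : ℝ) : ℂ) * Complex.I := by
    push_cast; ring
  rw [this, Complex.norm_exp_ofReal_mul_I]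

theorem ee_split (m n : ℤ) (k : ℕ) (θ x : ℝ) :
    ee m ((k : ℝ) * x + θ) * ee n x = ee m θ * ee (n + (k : ℤ) * m) x := by
  unfold ee
  rw [← Complex.exp_add, ← Complex.exp_add]
  congr 1
  push_cast
  ring

theorem norm_sgn (m : ℤ) : ‖((Int.sign m : ℤ) : ℂ)‖ ≤ 1 := by
  rcases Int.lt_trichotomy m 0 with h | h | h
  · rw [Int.sign_eq_neg_one_of_neg h]; simp
  · rw [h]; simp
  · rw [Int.sign_eq_one_of_pos h]; simp

theorem smR_cx {h : ℝ → ℝ} (hh : SmR h) : Sm (cx h) := by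
  refine ⟨?_, ?_⟩
  · exact Complex.ofRealCLM.contDiff.comp hh.1
  · intro x
    simp [cx, hh.2 x]

theorem summ (hF : S_Four) {f : ℝ → ℂ} (hf : Sm f) : Summable (fun n : ℤ => ‖co f n‖) := by
  refine Summable.of_nonneg_of_le (fun a => norm_nonneg _) (fun a => ?_) (hF f hf).1
  have : 0 ≤ |(a : ℝ)| := abs_nonneg _
  have := norm_nonneg (co f a)
  nlinarith

theorem CN_eq (hF : S_Four) (M : MultCN) {f : ℝ → ℂ} (hf : Sm f) (N : ℤ) (x : ℝ) :
    CN N f x = Complex.I * ∑' n : ℤ, co f n * ((Int.sign (N - n) : ℤ) : ℂ) * ee n x :=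
  M ℤ (co f) (fun n => n) f (hF f hf).1 (hF f hf).2 N x

theorem term_le {f : ℝ → ℂ} (N n : ℤ) (x : ℝ) :
    ‖co f n * ((Int.sign (N - n) : ℤ) : ℂ) * ee n x‖ ≤ ‖co f n‖ := by
  rw [norm_mul, norm_mul, norm_ee, mul_one]
  exact mul_le_of_le_one_right (norm_nonneg _) (norm_sgn _)

theorem summ_term_norm (hF : S_Four) {f : ℝ → ℂ} (hf : Sm f) (N : ℤ) (x : ℝ) :
    Summable (fun n : ℤ => ‖co f n * ((Int.sign (N - n) : ℤ) : ℂ) * ee n x‖) :=
  Summable.of_nonneg_of_le (fun _ => norm_nonneg _) (fun n => term_le N n x) (summ hF hf)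

theorem hasSum_mulZ {a b : ℤ → ℂ} {s t : ℂ} (ha : HasSum a s) (hb : HasSum b t)
    (na : Summable fun n => ‖a n‖) (nb : Summable fun n => ‖b n‖) :
    HasSum (fun p : ℤ × ℤ => a p.1 * b p.2) (s * t) :=
  ha.mul hb (summable_mul_of_summable_norm na nb)

theorem summ_mulZ {a b : ℤ → ℝ} (na : Summable a) (nb : Summable b) (ha : ∀ n, 0 ≤ a n)
    (hb : ∀ n, 0 ≤ b n) :
    Summable (fun p : ℤ × ℤ => a p.1 * b p.2) :=
  na.mul_of_nonneg nb ha hb

theorem hasSum_mulR {a b : ℤ → ℝ} {s t : ℝ} (ha : HasSum a s) (hb : HasSum b t) (a0 : ∀ n, 0 ≤ a n)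
    (b0 : ∀ n, 0 ≤ b n) :
    HasSum (fun p : ℤ × ℤ => a p.1 * b p.2) (s * t) :=
  ha.mul hb (summ_mulZ ha.summable hb.summable a0 b0)

/-- the coefficient family of the tensor product -/
def cc (h g : ℝ → ℝ) (θ : ℝ) (p : ℤ × ℤ) : ℂ := co (cx g) p.1 * ee p.1 θ * co (cx h) p.2

theorem norm_cc (h g : ℝ → ℝ) (θ : ℝ) (p : ℤ × ℤ) :
    ‖cc h g θ p‖ = ‖co (cx g) p.1‖ * ‖co (cx h) p.2‖ := by
  unfold cc
  rw [norm_mul, norm_mul, norm_ee, mul_one]

theorem hasSum_tens (hF : S_Four) {h g : ℝ → ℝ} (hh : SmR h) (hg : SmR g) (k : ℕ) (θ x : ℝ) :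
    HasSum (fun p : ℤ × ℤ => cc h g θ p * ee (p.2 + (k : ℤ) * p.1) x) (cx (tens h g k θ) x) := by
  have h1 := (hF (cx g) (smR_cx hg)).2 ((k : ℝ) * x + θ)
  have h2 := (hF (cx h) (smR_cx hh)).2 x
  have n1 : Summable (fun n : ℤ => ‖co (cx g) n * ee n ((k : ℝ) * x + θ)‖) := by
    simp only [norm_mul, norm_ee, mul_one]; exact summ hF (smR_cx hg)
  have n2 : Summable (fun n : ℤ => ‖co (cx h) n * ee n x‖) := by
    simp only [norm_mul, norm_ee, mul_one]; exact summ hF (smR_cx hh)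
  have h3 := hasSum_mulZ h1 h2 n1 n2
  have e : cx (tens h g k θ) x = cx g ((k : ℝ) * x + θ) * cx h x := by
    simp only [cx, tens]; push_cast; ring
  have e2 : (fun p : ℤ × ℤ => cc h g θ p * ee (p.2 + (k : ℤ) * p.1) x)
      = fun p : ℤ × ℤ => (co (cx g) p.1 * ee p.1 ((k : ℝ) * x + θ)) * (co (cx h) p.2 * ee p.2 x) := by
    ext p
    unfold cc
    have h4 := ee_split p.1 p.2 k θ x
    linear_combination (-(co (cx g) p.1 * co (cx h) p.2)) * h4
  rw [e, e2]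
  exact h3

theorem summ_cc (hF : S_Four) {h g : ℝ → ℝ} (hh : SmR h) (hg : SmR g) (θ : ℝ) :
    Summable (fun p : ℤ × ℤ => ‖cc h g θ p‖) := by
  simp only [norm_cc]
  exact (summ hF (smR_cx hg)).mul_of_nonneg (summ hF (smR_cx hh)) (fun _ => norm_nonneg _)
    (fun _ => norm_nonneg _)

theorem summ_w (hF : S_Four) {h g : ℝ → ℝ} (hh : SmR h) (hg : SmR g) (k : ℕ) (θ : ℝ) :
    Summable (fun p : ℤ × ℤ => (1 + |((p.2 + (k : ℤ) * p.1 : ℤ) : ℝ)|) * ‖cc h g θ p‖) := by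
  have h1 := (hF (cx g) (smR_cx hg)).1.mul_of_nonneg (hF (cx h) (smR_cx hh)).1
    (fun n => mul_nonneg (by positivity) (norm_nonneg _))
    (fun n => mul_nonneg (by positivity) (norm_nonneg _))
  refine Summable.of_nonneg_of_le (fun p => mul_nonneg (by positivity) (norm_nonneg _))
    (fun p => ?_) (h1.mul_left (1 + (k : ℝ)))
  rw [norm_cc]
  have hA := norm_nonneg (co (cx g) p.1)
  have hB := norm_nonneg (co (cx h) p.2)
  have h2 : 1 + |((p.2 + (k : ℤ) * p.1 : ℤ) : ℝ)|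
      ≤ (1 + (k : ℝ)) * ((1 + |(p.1 : ℝ)|) * (1 + |(p.2 : ℝ)|)) := by
    push_cast
    have h3 := abs_add_le (p.2 : ℝ) ((k : ℝ) * (p.1 : ℝ))
    rw [abs_mul, Nat.abs_cast] at h3
    have h4 := abs_nonneg (p.1 : ℝ)
    have h5 := abs_nonneg (p.2 : ℝ)
    have h6 : (0 : ℝ) ≤ k := Nat.cast_nonneg k
    have h7 : 0 ≤ (k : ℝ) * |(p.1 : ℝ)| * |(p.2 : ℝ)| := by positivity
    have h8 : 0 ≤ |(p.1 : ℝ)| * |(p.2 : ℝ)| := by positivity
    have h9 : 0 ≤ (k : ℝ) * |(p.2 : ℝ)| := by positivity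
    nlinarith
  calc (1 + |((p.2 + (k : ℤ) * p.1 : ℤ) : ℝ)|) * (‖co (cx g) p.1‖ * ‖co (cx h) p.2‖)
      ≤ ((1 + (k : ℝ)) * ((1 + |(p.1 : ℝ)|) * (1 + |(p.2 : ℝ)|)))
        * (‖co (cx g) p.1‖ * ‖co (cx h) p.2‖) := by gcongr
    _ = _ := by ring

/-- the sign bracket -/
def br (k : ℕ) (N r : ℤ) (p : ℤ × ℤ) : ℂ :=
  ((Int.sign ((k : ℤ) * N + r - (p.2 + (k : ℤ) * p.1)) : ℤ) : ℂ)
    - ((Int.sign (N - p.1) : ℤ) : ℂ)
    - (if p.1 = N then ((Int.sign (r - p.2) : ℤ) : ℂ) else 0)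

theorem br_bound (k : ℕ) (N r : ℤ) (p : ℤ × ℤ) :
    ‖br k N r p‖ ≤ if (k : ℤ) - |r| ≤ |p.2| then 2 else 0 := by
  unfold br
  by_cases hp : p.1 = N
  · rw [if_pos hp, hp, sub_self, Int.sign_zero]
    have : (k : ℤ) * N + r - (p.2 + (k : ℤ) * N) = r - p.2 := by ring
    rw [this]
    simp only [Int.cast_zero, sub_zero, sub_self, norm_zero]
    split_ifs <;> norm_num
  · rw [if_neg hp, sub_zero]
    split_ifs with hc
    · refine (norm_sub_le _ _).trans ?_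
      have := norm_sgn ((k : ℤ) * N + r - (p.2 + (k : ℤ) * p.1))
      have := norm_sgn (N - p.1)
      linarith
    · push Not at hc
      have h1 : |r - p.2| < k := by
        have := abs_sub r p.2
        omega
      have h2 : (k : ℤ) * N + r - (p.2 + (k : ℤ) * p.1) = (k : ℤ) * (N - p.1) + (r - p.2) := by ring
      rw [h2]
      rw [abs_lt] at h1
      rcases lt_or_gt_of_ne hp with h3 | h3
      · have h4 : 1 ≤ N - p.1 := by omega
        have h5 : 0 < (k : ℤ) * (N - p.1) + (r - p.2) := by nlinarith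
        rw [Int.sign_eq_one_of_pos h5, Int.sign_eq_one_of_pos (by omega)]
        simp
      · have h4 : N - p.1 ≤ -1 := by omega
        have h5 : (k : ℤ) * (N - p.1) + (r - p.2) < 0 := by nlinarith
        rw [Int.sign_eq_neg_one_of_neg h5, Int.sign_eq_neg_one_of_neg (by omega)]
        simp

/-- the tail -/
def tail (h : ℝ → ℝ) (r : ℤ) (k : ℕ) : ℝ :=
  ∑' n : ℤ, if (k : ℤ) - |r| ≤ |n| then ‖co (cx h) n‖ else 0

theorem tail_tendsto (hF : S_Four) {h : ℝ → ℝ} (hh : SmR h) (r : ℤ) :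
    Tendsto (tail h r) atTop (𝓝 0) := by
  have h0 : (0 : ℝ) = ∑' n : ℤ, (0 : ℝ) := tsum_zero.symm
  rw [h0]
  unfold tail
  refine tendsto_tsum_of_dominated_convergence (bound := fun n : ℤ => ‖co (cx h) n‖)
    (summ hF (smR_cx hh)) ?_ ?_
  · intro n
    refine tendsto_const_nhds.congr' ?_
    filter_upwards [eventually_gt_atTop ((|n| + |r|).toNat)] with k hk
    rw [if_neg]
    push Not
    have h1 : (|n| + |r|) < k := by
      have := Int.self_le_toNat (|n| + |r|)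
      omega
    omega
  · refine Eventually.of_forall fun k n => ?_
    split_ifs
    · rw [norm_norm]
    · rw [norm_zero]; exact norm_nonneg _

theorem diff_eq (hF : S_Four) (M : MultCN) {h g : ℝ → ℝ} (hh : SmR h) (hg : SmR g) (N r : ℤ)
    (k : ℕ) (θ x : ℝ) :
    CN ((k : ℤ) * N + r) (cx (tens h g k θ)) x
        - ((h x : ℂ) * CN N (cx g) ((k : ℝ) * x + θ)
            + co (cx g) N * ee N ((k : ℝ) * x + θ) * CN r (cx h) x)
      = Complex.I * ∑' p : ℤ × ℤ, cc h g θ p * ee (p.2 + (k : ℤ) * p.1) x * br k N r p := by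
  have sg := smR_cx hg
  have sh := smR_cx hh
  -- first term
  have A := M (ℤ × ℤ) (cc h g θ) (fun p => p.2 + (k : ℤ) * p.1) (cx (tens h g k θ))
    (summ_w hF hh hg k θ) (hasSum_tens hF hh hg k θ) ((k : ℤ) * N + r) x
  -- summability of bounded multiples
  have hbs : ∀ w : ℤ × ℤ → ℂ, (∀ p, ‖w p‖ ≤ 1) →
      Summable (fun p : ℤ × ℤ => cc h g θ p * ee (p.2 + (k : ℤ) * p.1) x * w p) := by
    intro w hw
    refine Summable.of_norm_bounded (summ_cc hF hh hg θ) fun p => ?_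
    rw [norm_mul, norm_mul, norm_ee, mul_one]
    exact mul_le_of_le_one_right (norm_nonneg _) (hw p)
  -- second term
  have B : (h x : ℂ) * CN N (cx g) ((k : ℝ) * x + θ)
      = Complex.I * ∑' p : ℤ × ℤ, cc h g θ p * ee (p.2 + (k : ℤ) * p.1) x
          * ((Int.sign (N - p.1) : ℤ) : ℂ) := by
    rw [CN_eq hF M sg]
    have h1 : HasSum (fun n : ℤ => co (cx g) n * ((Int.sign (N - n) : ℤ) : ℂ)
        * ee n ((k : ℝ) * x + θ)) (∑' n : ℤ, co (cx g) n * ((Int.sign (N - n) : ℤ) : ℂ)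
        * ee n ((k : ℝ) * x + θ)) := (summ_term_norm hF sg N _).of_norm.hasSum
    have h2 := (hF (cx h) sh).2 x
    have n2 : Summable (fun n : ℤ => ‖co (cx h) n * ee n x‖) := by
      simp only [norm_mul, norm_ee, mul_one]; exact summ hF sh
    have h3 := hasSum_mulZ h1 h2 (summ_term_norm hF sg N _) n2
    have e2 : (fun p : ℤ × ℤ => cc h g θ p * ee (p.2 + (k : ℤ) * p.1) x
          * ((Int.sign (N - p.1) : ℤ) : ℂ))
        = fun p : ℤ × ℤ => (co (cx g) p.1 * ((Int.sign (N - p.1) : ℤ) : ℂ)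
          * ee p.1 ((k : ℝ) * x + θ)) * (co (cx h) p.2 * ee p.2 x) := by
      ext p
      unfold cc
      have h4 := ee_split p.1 p.2 k θ x
      linear_combination (-(co (cx g) p.1 * co (cx h) p.2 * ((Int.sign (N - p.1) : ℤ) : ℂ))) * h4
    rw [e2, h3.tsum_eq]
    have : cx h x = (h x : ℂ) := rfl
    rw [this]
    ring
  -- third term
  have C : co (cx g) N * ee N ((k : ℝ) * x + θ) * CN r (cx h) x
      = Complex.I * ∑' p : ℤ × ℤ, cc h g θ p * ee (p.2 + (k : ℤ) * p.1) x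
          * (if p.1 = N then ((Int.sign (r - p.2) : ℤ) : ℂ) else 0) := by
    rw [CN_eq hF M sh]
    have h1 : HasSum (fun n : ℤ => if n = N then co (cx g) N * ee N ((k : ℝ) * x + θ) else 0)
        (co (cx g) N * ee N ((k : ℝ) * x + θ)) := hasSum_ite_eq N _
    have n1 : Summable (fun n : ℤ => ‖if n = N then co (cx g) N * ee N ((k : ℝ) * x + θ) else 0‖) := by
      have : (fun n : ℤ => ‖if n = N then co (cx g) N * ee N ((k : ℝ) * x + θ) else 0‖)
          = fun n : ℤ => if n = N then ‖co (cx g) N * ee N ((k : ℝ) * x + θ)‖ else 0 := by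
        ext n; split_ifs <;> simp
      rw [this]
      exact (hasSum_ite_eq N _).summable
    have h2 : HasSum (fun n : ℤ => co (cx h) n * ((Int.sign (r - n) : ℤ) : ℂ) * ee n x)
        (∑' n : ℤ, co (cx h) n * ((Int.sign (r - n) : ℤ) : ℂ) * ee n x) :=
      (summ_term_norm hF sh r _).of_norm.hasSum
    have h3 := hasSum_mulZ h1 h2 n1 (summ_term_norm hF sh r _)
    have e2 : (fun p : ℤ × ℤ => cc h g θ p * ee (p.2 + (k : ℤ) * p.1) x
          * (if p.1 = N then ((Int.sign (r - p.2) : ℤ) : ℂ) else 0))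
        = fun p : ℤ × ℤ => (if p.1 = N then co (cx g) N * ee N ((k : ℝ) * x + θ) else 0)
          * (co (cx h) p.2 * ((Int.sign (r - p.2) : ℤ) : ℂ) * ee p.2 x) := by
      ext p
      by_cases hp : p.1 = N
      · rw [if_pos hp, if_pos hp, ← hp]
        unfold cc
        have h4 := ee_split p.1 p.2 k θ x
        linear_combination (-(co (cx g) p.1 * co (cx h) p.2 * ((Int.sign (r - p.2) : ℤ) : ℂ))) * h4
      · rw [if_neg hp, if_neg hp]; ring
    rw [e2, h3.tsum_eq]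
    ring
  rw [A, B, C]
  have e3 : ∀ p : ℤ × ℤ, cc h g θ p * ((Int.sign ((k : ℤ) * N + r - (p.2 + (k : ℤ) * p.1)) : ℤ) : ℂ)
      * ee (p.2 + (k : ℤ) * p.1) x = cc h g θ p * ee (p.2 + (k : ℤ) * p.1) x
      * ((Int.sign ((k : ℤ) * N + r - (p.2 + (k : ℤ) * p.1)) : ℤ) : ℂ) := fun p => by ring
  simp only [e3]
  have s1 := hbs (fun p => ((Int.sign ((k : ℤ) * N + r - (p.2 + (k : ℤ) * p.1)) : ℤ) : ℂ))
    (fun p => norm_sgn _)
  have s2 := hbs (fun p => ((Int.sign (N - p.1) : ℤ) : ℂ)) (fun p => norm_sgn _)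
  have s3 := hbs (fun p => if p.1 = N then ((Int.sign (r - p.2) : ℤ) : ℂ) else 0) (fun p => by
    split_ifs
    · exact norm_sgn _
    · simp)
  rw [← mul_add, ← s2.tsum_add s3, ← mul_sub, ← s1.tsum_sub (s2.add s3)]
  congr 1
  refine tsum_congr fun p => ?_
  unfold br
  ring

/-- the truncated coefficient -/
def tc (h : ℝ → ℝ) (r : ℤ) (k : ℕ) (n : ℤ) : ℝ :=
  if (k : ℤ) - |r| ≤ |n| then ‖co (cx h) n‖ else 0

theorem tc_nonneg (h : ℝ → ℝ) (r : ℤ) (k : ℕ) (n : ℤ) : 0 ≤ tc h r k n := by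
  unfold tc
  split_ifs
  · exact norm_nonneg _
  · exact le_rfl

theorem tc_le (h : ℝ → ℝ) (r : ℤ) (k : ℕ) (n : ℤ) : tc h r k n ≤ ‖co (cx h) n‖ := by
  unfold tc
  split_ifs
  · exact le_rfl
  · exact norm_nonneg _

theorem tc_summ (hF : S_Four) {h : ℝ → ℝ} (hh : SmR h) (r : ℤ) (k : ℕ) :
    Summable (tc h r k) :=
  Summable.of_nonneg_of_le (tc_nonneg h r k) (tc_le h r k) (summ hF (smR_cx hh))

theorem term_bound (h g : ℝ → ℝ) (N r : ℤ) (k : ℕ) (θ x : ℝ) (p : ℤ × ℤ) :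
    ‖cc h g θ p * ee (p.2 + (k : ℤ) * p.1) x * br k N r p‖
      ≤ 2 * (‖co (cx g) p.1‖ * tc h r k p.2) := by
  rw [norm_mul, norm_mul, norm_ee, mul_one, norm_cc]
  have h1 := br_bound k N r p
  have hA := norm_nonneg (co (cx g) p.1)
  have hB := norm_nonneg (co (cx h) p.2)
  unfold tc
  by_cases hc : (k : ℤ) - |r| ≤ |p.2|
  · rw [if_pos hc] at h1 ⊢
    calc ‖co (cx g) p.1‖ * ‖co (cx h) p.2‖ * ‖br k N r p‖
        ≤ ‖co (cx g) p.1‖ * ‖co (cx h) p.2‖ * 2 := by gcongr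
      _ = _ := by ring
  · rw [if_neg hc] at h1 ⊢
    have : ‖br k N r p‖ = 0 := le_antisymm h1 (norm_nonneg _)
    rw [this]
    simp

theorem sum_bound (hF : S_Four) {h g : ℝ → ℝ} (hh : SmR h) (hg : SmR g) (N r : ℤ)
    (k : ℕ) (θ x : ℝ) :
    ‖∑' p : ℤ × ℤ, cc h g θ p * ee (p.2 + (k : ℤ) * p.1) x * br k N r p‖
      ≤ 2 * ((∑' n : ℤ, ‖co (cx g) n‖) * tail h r k) := by
  have hsum := hasSum_mulR (summ hF (smR_cx hg)).hasSum (tc_summ hF hh r k).hasSum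
    (fun n => norm_nonneg (co (cx g) n)) (tc_nonneg h r k)
  have hsum2 := hsum.mul_left 2
  have hle := term_bound h g N r k θ x
  have hsn : Summable (fun p : ℤ × ℤ => ‖cc h g θ p * ee (p.2 + (k : ℤ) * p.1) x * br k N r p‖) :=
    Summable.of_nonneg_of_le (fun _ => norm_nonneg _) hle hsum2.summable
  refine (norm_tsum_le_tsum_norm hsn).trans ?_
  refine (Summable.tsum_le_tsum hle hsn hsum2.summable).trans ?_
  rw [hsum2.tsum_eq]
  exact le_rfl

end ProdAux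

open ProdAux

theorem c_Prod : S_Prod := by
  intro hF M h g hh hg N r η hη
  have ht := tail_tendsto hF hh r
  have hlim : Tendsto (fun k : ℕ => 2 * ((∑' n : ℤ, ‖co (cx g) n‖) * tail h r k)) atTop
      (𝓝 (2 * ((∑' n : ℤ, ‖co (cx g) n‖) * 0))) := (ht.const_mul _).const_mul _
  rw [mul_zero, mul_zero] at hlim
  obtain ⟨k0, hk0⟩ := (hlim.eventually (gt_mem_nhds hη)).exists_forall_of_atTop
  refine ⟨k0, fun k hk θ x => ?_⟩
  rw [diff_eq hF M hh hg N r k θ x, norm_mul, Complex.norm_I, one_mul]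
  exact (sum_bound hF hh hg N r k θ x).trans (hk0 k hk).le

end Pool.Agent.MP777
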