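import Pool.Agent.Lib.MP_777af9_an.Spec

/-!
# MP_777af9_an: pointwise lower bounds on the zero set of a tensor product
-/

open MeasureTheory Set Filter Topology
open scoped ENNReal

noncomputable section

namespace Pool.Agent.MP777

namespace PtSAux

theorem ee_zero (x : ℝ) : ee 0 x = 1 := by simp [ee]

theorem norm_ee (n : ℤ) (x : ℝ) : ‖ee n x‖ = 1 := by
  unfold ee
  have : (2 * Real.pi * Complex.I * (n : ℂ) * (x : ℂ)) = ((2 * Real.pi * n * x : ℝ) : ℂ) * Complex.I := by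
    push_cast; ring
  rw [this, Complex.norm_exp_ofReal_mul_I]

theorem co_zero (g : ℝ → ℝ) : co (cx g) 0 = ((mass g : ℝ) : ℂ) := by
  unfold co mass
  rw [← intervalIntegral.integral_ofReal]
  refine intervalIntegral.integral_congr fun t _ => ?_
  simp [cx, ee_zero]

theorem norm_co_le {g : ℝ → ℝ} (g0 : ∀ x, 0 ≤ g x) (n : ℤ) : ‖co (cx g) n‖ ≤ mass g := by
  unfold co mass
  refine (intervalIntegral.norm_integral_le_integral_norm zero_le_one).trans (le_of_eq ?_)
  refine intervalIntegral.integral_congr fun t _ => ?_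
  simp only [norm_mul, norm_ee, mul_one, cx, Complex.norm_real, Real.norm_of_nonneg (g0 t)]

theorem le_CLm {N L : ℕ} (h1 : 1 ≤ N) (hL : N ≤ L) (f : ℝ → ℂ) (x : ℝ) :
    ‖CN ((N : ℕ) : ℤ) f x‖ₑ ≤ CLm L f x := by
  have h : N ∈ Finset.Icc 1 L := Finset.mem_Icc.2 ⟨h1, hL⟩
  unfold CLm
  exact le_biSup (f := fun N : ℕ => ‖CN ((N : ℕ) : ℤ) f x‖ₑ) h

end PtSAux

open PtSAux

theorem c_PtS : S_PtS := by
  intro pr pm h g L η hh hg h0 g0 hη
  have hG : 0 ≤ mass g := intervalIntegral.integral_nonneg zero_le_one fun x _ => g0 x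
  set G := mass g with hGdef
  set e := η / (G + 1) with he
  have he0 : 0 < e := by positivity
  have heG : (G + 1) * e = η := by rw [he]; field_simp
  obtain ⟨R, hR⟩ := pm h hh e he0
  have hR' := hR R le_rfl
  have hA := fun r : ℕ => pr h g hh hg 0 (r : ℤ) e he0
  have hB := fun N : ℕ => pr h g hh hg (N : ℤ) (R : ℤ) e he0
  have hC := fun N : ℕ => pr h g hh hg (N : ℤ) (-(R : ℤ)) e he0
  choose kA hA using hA
  choose kB hB using hB
  choose kC hC using hC
  refine ⟨R, (R + 1) ⊔ ((Finset.Icc 1 L).sup kA ⊔ ((Finset.Icc 1 L).sup kB ⊔ (Finset.Icc 1 L).sup kC)),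
    fun k hk θ x => ?_⟩
  have hk1 : R + 1 ≤ k := le_sup_left.trans hk
  have hk2 : ((Finset.Icc 1 L).sup kA ⊔ ((Finset.Icc 1 L).sup kB ⊔ (Finset.Icc 1 L).sup kC)) ≤ k :=
    le_sup_right.trans hk
  have hkA : ∀ r ∈ Finset.Icc 1 L, kA r ≤ k := fun r hr =>
    (Finset.le_sup hr).trans (le_sup_left.trans hk2)
  have hkB : ∀ r ∈ Finset.Icc 1 L, kB r ≤ k := fun r hr =>
    (Finset.le_sup hr).trans (le_sup_left.trans (le_sup_right.trans hk2))
  have hkC : ∀ r ∈ Finset.Icc 1 L, kC r ≤ k := fun r hr =>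
    (Finset.le_sup hr).trans (le_sup_right.trans (le_sup_right.trans hk2))
  set F := cx (tens h g k θ) with hF
  have hLk : ∀ N : ℕ, N ≤ L → k * N ≤ k * L := fun N hN => Nat.mul_le_mul_left k hN
  have hk0 : 1 ≤ k := by omega
  constructor
  · intro hx
    unfold CLm
    simp only [ENNReal.mul_iSup]
    refine iSup₂_le fun r hr => ?_
    have hr' := Finset.mem_Icc.1 hr
    have h1 := hA r k (hkA r hr) θ x
    rw [mul_zero, zero_add, ee_zero, mul_one, co_zero, hx, Complex.ofReal_zero, zero_mul,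
      zero_add] at h1
    have h2 : G * ‖CN (r : ℤ) (cx h) x‖ ≤ ‖CN (r : ℤ) F x‖ + η := by
      have h3 : ‖((G : ℝ) : ℂ) * CN (r : ℤ) (cx h) x‖ = G * ‖CN (r : ℤ) (cx h) x‖ := by
        rw [norm_mul, Complex.norm_real, Real.norm_of_nonneg hG]
      rw [← h3]
      have h4 : ‖((G : ℝ) : ℂ) * CN (r : ℤ) (cx h) x‖
          ≤ ‖CN (r : ℤ) F x‖ + ‖CN (r : ℤ) F x - ((G : ℝ) : ℂ) * CN (r : ℤ) (cx h) x‖ := by
        calc ‖((G : ℝ) : ℂ) * CN (r : ℤ) (cx h) x‖
            = ‖CN (r : ℤ) F x - (CN (r : ℤ) F x - ((G : ℝ) : ℂ) * CN (r : ℤ) (cx h) x)‖ := by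
              congr 1; ring
          _ ≤ _ := norm_sub_le _ _
      nlinarith
    have h5 : r ≤ k * L + R := by
      have : r ≤ L := hr'.2
      have : L ≤ k * L := Nat.le_mul_of_pos_left L (by omega)
      omega
    have h6 := le_CLm hr'.1 h5 F x
    calc ENNReal.ofReal G * ‖CN (r : ℤ) (cx h) x‖ₑ
        = ENNReal.ofReal (G * ‖CN (r : ℤ) (cx h) x‖) := by
          rw [ENNReal.ofReal_mul hG, ofReal_norm]
      _ ≤ ENNReal.ofReal (‖CN (r : ℤ) F x‖ + η) := ENNReal.ofReal_le_ofReal h2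
      _ = ‖CN (r : ℤ) F x‖ₑ + ENNReal.ofReal η := by
          rw [ENNReal.ofReal_add (norm_nonneg _) hη.le, ofReal_norm]
      _ ≤ _ := by gcongr; exact h6
  · intro _
    unfold CLm
    simp only [ENNReal.mul_iSup]
    refine iSup₂_le fun N hN => ?_
    have hN' := Finset.mem_Icc.1 hN
    have h1 := hB N k (hkB N hN) θ x
    have h2 := hC N k (hkC N hN) θ x
    have h3 := hR' x
    have h4 := norm_co_le g0 (N : ℤ)
    set a := CN (N : ℤ) (cx g) ((k : ℝ) * x + θ)
    set c := co (cx g) (N : ℤ) * ee (N : ℤ) ((k : ℝ) * x + θ)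
    have hc : ‖c‖ ≤ G := by
      simp only [c, norm_mul, norm_ee, mul_one]
      exact h4
    set b1 := CN (R : ℤ) (cx h) x
    set b2 := CN (-(R : ℤ)) (cx h) x
    have hkN : R ≤ k * N := by
      have : k ≤ k * N := Nat.le_mul_of_pos_right k hN'.1
      omega
    have ep : ((k : ℤ) * (N : ℤ) + (R : ℤ)) = ((k * N + R : ℕ) : ℤ) := by push_cast; ring
    have eq : ((k : ℤ) * (N : ℤ) + -(R : ℤ)) = ((k * N - R : ℕ) : ℤ) := by
      rw [Nat.cast_sub hkN]; push_cast; ring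
    rw [ep] at h1
    rw [eq] at h2
    set p := CN ((k * N + R : ℕ) : ℤ) F x
    set q := CN ((k * N - R : ℕ) : ℤ) F x
    have h5 : 2 * (h x * ‖a‖) ≤ ‖p‖ + ‖q‖ + (G + 2) * e := by
      have h6 : (2 : ℂ) * ((h x : ℂ) * a)
          = p + q - ((p - ((h x : ℂ) * a + c * b1)) + (q - ((h x : ℂ) * a + c * b2)))
            - c * (b1 + b2) := by ring
      have h7 : ‖(2 : ℂ) * ((h x : ℂ) * a)‖ = 2 * (h x * ‖a‖) := by
        rw [norm_mul, norm_mul, Complex.norm_real, Real.norm_of_nonneg (h0 x)]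
        simp
      rw [← h7, h6]
      refine (norm_sub_le _ _).trans ?_
      have h8 : ‖c * (b1 + b2)‖ ≤ G * e := by
        rw [norm_mul]
        exact mul_le_mul hc h3 (norm_nonneg _) hG
      have h9 : ‖p + q - ((p - ((h x : ℂ) * a + c * b1)) + (q - ((h x : ℂ) * a + c * b2)))‖
          ≤ (‖p‖ + ‖q‖) + (e + e) := by
        refine (norm_sub_le _ _).trans (add_le_add (norm_add_le _ _) ?_)
        exact (norm_add_le _ _).trans (add_le_add h1 h2)
      nlinarith
    have h10 : h x * ‖a‖ ≤ max ‖p‖ ‖q‖ + η := by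
      have := le_max_left ‖p‖ ‖q‖
      have := le_max_right ‖p‖ ‖q‖
      nlinarith
    have h11 : ENNReal.ofReal (max ‖p‖ ‖q‖) ≤ CLm (k * L + R) F x := by
      have h12 : 1 ≤ k * N + R := by
        have : k ≤ k * N := Nat.le_mul_of_pos_right k hN'.1
        omega
      have h13 : 1 ≤ k * N - R := by
        have : k ≤ k * N := Nat.le_mul_of_pos_right k hN'.1
        omega
      have h14 : k * N ≤ k * L := hLk N hN'.2
      rcases max_choice ‖p‖ ‖q‖ with h15 | h15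
      · rw [h15, ofReal_norm]
        exact le_CLm h12 (by omega) F x
      · rw [h15, ofReal_norm]
        exact le_CLm h13 (by omega) F x
    calc ENNReal.ofReal (h x) * ‖a‖ₑ
        = ENNReal.ofReal (h x * ‖a‖) := by
          rw [ENNReal.ofReal_mul (h0 x), ofReal_norm]
      _ ≤ ENNReal.ofReal (max ‖p‖ ‖q‖ + η) := ENNReal.ofReal_le_ofReal h10
      _ = ENNReal.ofReal (max ‖p‖ ‖q‖) + ENNReal.ofReal η := by
          rw [ENNReal.ofReal_add (le_max_of_le_left (norm_nonneg _)) hη.le]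
      _ ≤ _ := by gcongr; exact h11

end Pool.Agent.MP777
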