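import Pool.Agent.Lib.MP_777af9_an.Spec

/-!
# MP_777af9_an: quasi-concavity of `aa`
-/

open MeasureTheory Set Filter Topology
open scoped ENNReal

noncomputable section

namespace Pool.Agent.MP777

namespace QCAux

theorem smR_cx {h : ℝ → ℝ} (hh : SmR h) : Sm (cx h) := by
  refine ⟨?_, ?_⟩
  · exact Complex.ofRealCLM.contDiff.comp hh.1
  · intro x
    simp [cx, hh.2 x]

theorem zero_of_mass {h : ℝ → ℝ} (hh : SmR h) (h0 : ∀ x, 0 ≤ h x) (hm : mass h ≤ 0) (x : ℝ) :
    h x = 0 := by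
  obtain ⟨y, hy, hxy⟩ := hh.2.exists_mem_Ico₀ one_pos x
  rw [hxy]
  by_contra hne
  have hpos : 0 < h y := lt_of_le_of_ne (h0 y) (Ne.symm hne)
  have : 0 < ∫ x in (0:ℝ)..1, h x := by
    refine intervalIntegral.integral_pos one_pos hh.1.continuous.continuousOn
      (fun x _ => h0 x) ⟨y, ⟨hy.1, hy.2.le⟩, hpos⟩
  unfold mass at hm
  linarith

end QCAux

open QCAux

theorem c_QC : S_QC := by
  intro cl
  refine ⟨?_, ?_, ?_⟩
  · intro s u hsu
    unfold aa
    refine iSup₂_le fun h hh => ?_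
    exact le_iSup₂_of_le (f := fun (h : ℝ → ℝ) (_ : Unit1 u h) => CL1 (cx h)) h
      ⟨hh.1, hh.2.1, hh.2.2.trans hsu⟩ le_rfl
  · intro s u hs hsu
    have hu : 0 < u := hs.trans_le hsu
    unfold aa
    simp only [ENNReal.mul_iSup]
    refine iSup₂_le fun h hh => ?_
    have hr0 : 0 ≤ s / u := by positivity
    have hr1 : s / u ≤ 1 := by rw [div_le_one hu]; exact hsu
    have hU : Unit1 s (fun x => s / u * h x) := by
      refine ⟨⟨contDiff_const.mul hh.1.1, fun x => ?_⟩, fun x => ⟨?_, ?_⟩, ?_⟩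
      · simp only
        rw [hh.1.2 x]
      · exact mul_nonneg hr0 (hh.2.1 x).1
      · exact mul_le_one₀ hr1 (hh.2.1 x).1 (hh.2.1 x).2
      · unfold mass
        rw [intervalIntegral.integral_const_mul]
        have : (∫ x in (0:ℝ)..1, h x) ≤ u := hh.2.2
        calc s / u * (∫ x in (0:ℝ)..1, h x) ≤ s / u * u := by gcongr
          _ = s := by field_simp
    refine le_iSup₂_of_le (f := fun (h : ℝ → ℝ) (_ : Unit1 s h) => CL1 (cx h)) _ hU ?_
    have e1 : cx (fun x => s / u * h x) = fun y => ((s / u : ℝ) : ℂ) * cx h y := by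
      ext y
      simp [cx]
    rw [e1, cl.smul (cx h) _ (smR_cx hh.1), ← ofReal_norm, Complex.norm_real,
      Real.norm_of_nonneg hr0]
  · unfold aa
    rw [← le_zero_iff]
    refine iSup₂_le fun h hh => ?_
    have hz := zero_of_mass hh.1 (fun x => (hh.2.1 x).1) hh.2.2
    have e1 : cx h = fun y => (0 : ℂ) * cx h y := by
      ext y
      simp [cx, hz]
    rw [e1, cl.smul (cx h) _ (smR_cx hh.1)]
    simp

end Pool.Agent.MP777
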