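import Pool.Agent.Lib.MP_777af9_an.Spec

/-!
# MP_777af9_an: the auxiliary even function (`S_RevG`)
-/

set_option autoImplicit false

open MeasureTheory Set Filter Topology
open scoped ENNReal

noncomputable section

namespace Pool.Agent.MP777

namespace RevGAux

/-- the auxiliary function -/
def g (u : ℝ) : ℝ := Real.smoothTransition (2 * Real.cos (2 * Real.pi * u))

theorem g_contDiff : ContDiff ℝ (⊤ : ℕ∞) g := by
  unfold g
  refine Real.smoothTransition.contDiff.comp ?_
  exact contDiff_const.mul (Real.contDiff_cos.comp (contDiff_const.mul contDiff_id))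

theorem g_per : Function.Periodic g 1 := by
  intro u
  unfold g
  rw [show 2 * Real.pi * (u + 1) = 2 * Real.pi * u + 2 * Real.pi by ring, Real.cos_add_two_pi]

theorem g_even (u : ℝ) : g (-u) = g u := by
  unfold g
  rw [show 2 * Real.pi * (-u) = -(2 * Real.pi * u) by ring, Real.cos_neg]

theorem g_sub (u : ℝ) : g (1 - u) = g u := by
  have h := g_per (-u)
  rw [g_even, show -u + 1 = 1 - u by ring] at h
  exact h

theorem g_one {u : ℝ} (h0 : 0 ≤ u) (h1 : u ≤ 1 / 6) : g u = 1 := by
  unfold g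
  apply Real.smoothTransition.one_of_one_le
  have hpi := Real.pi_pos
  have h2 : Real.cos (Real.pi / 3) ≤ Real.cos (2 * Real.pi * u) := by
    apply Real.cos_le_cos_of_nonneg_of_le_pi
    · positivity
    · linarith
    · nlinarith
  rw [Real.cos_pi_div_three] at h2
  linarith

theorem g_zero {u : ℝ} (h0 : 1 / 4 ≤ u) (h1 : u ≤ 3 / 4) : g u = 0 := by
  unfold g
  apply Real.smoothTransition.zero_of_nonpos
  have hpi := Real.pi_pos
  have h2 : Real.cos (2 * Real.pi * u) ≤ 0 := by
    apply Real.cos_nonpos_of_pi_div_two_le_of_le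
    · nlinarith
    · nlinarith
  linarith

theorem g_pos {u : ℝ} (h0 : 0 ≤ u) (h1 : u < 1 / 4) : g u ≠ 0 := by
  unfold g
  apply ne_of_gt
  apply Real.smoothTransition.pos_of_pos
  have hpi := Real.pi_pos
  have h2 : 0 < Real.cos (2 * Real.pi * u) := by
    apply Real.cos_pos_of_mem_Ioo
    constructor
    · nlinarith
    · nlinarith
  linarith

theorem zer_eq : zer g = Icc (1 / 4) (3 / 4) := by
  ext u
  constructor
  · rintro ⟨⟨h0, h1⟩, h2⟩
    constructor
    · by_contra h
      push Not at h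
      exact g_pos h0.le h h2
    · by_contra h
      push Not at h
      rw [← g_sub] at h2
      exact g_pos (by linarith) (by linarith) h2
  · rintro ⟨h0, h1⟩
    exact ⟨⟨by linarith, by linarith⟩, g_zero h0 h1⟩

theorem mass_g : 1 / 3 ≤ mass g := by
  unfold mass
  have hi : ∀ a b : ℝ, IntervalIntegrable g volume a b := fun a b =>
    g_contDiff.continuous.intervalIntegrable a b
  have h1 : ∫ x in (0 : ℝ)..1, g x = (∫ x in (0 : ℝ)..(1 / 6), g x) +
      (∫ x in (1 / 6 : ℝ)..(5 / 6), g x) + ∫ x in (5 / 6 : ℝ)..1, g x := by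
    rw [intervalIntegral.integral_add_adjacent_intervals (hi _ _) (hi _ _),
      intervalIntegral.integral_add_adjacent_intervals (hi _ _) (hi _ _)]
  have h2 : ∫ x in (0 : ℝ)..(1 / 6), g x = 1 / 6 := by
    have h : ∫ x in (0 : ℝ)..(1 / 6), g x = ∫ x in (0 : ℝ)..(1 / 6), (1 : ℝ) := by
      apply intervalIntegral.integral_congr
      intro x hx
      rw [uIcc_of_le (by norm_num)] at hx
      exact g_one hx.1 hx.2
    rw [h]
    simp
  have h3 : 0 ≤ ∫ x in (1 / 6 : ℝ)..(5 / 6), g x :=
    intervalIntegral.integral_nonneg (by norm_num) fun x _ => Real.smoothTransition.nonneg _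
  have h4 : ∫ x in (5 / 6 : ℝ)..1, g x = 1 / 6 := by
    have h : ∫ x in (5 / 6 : ℝ)..1, g x = ∫ x in (5 / 6 : ℝ)..1, (1 : ℝ) := by
      apply intervalIntegral.integral_congr
      intro x hx
      rw [uIcc_of_le (by norm_num)] at hx
      change g x = 1
      rw [← g_sub]
      exact g_one (by linarith [hx.2]) (by linarith [hx.1])
    rw [h]
    simp
    norm_num
  rw [h1, h2, h4]
  linarith

/-- the function as a complex function -/
theorem sm_cx : Sm (cx g) := by
  constructor
  · exact Complex.ofRealCLM.contDiff.comp g_contDiff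
  · intro x
    unfold cx
    rw [g_per]

theorem cot_neg' (x : ℝ) : Real.cot (-x) = -Real.cot x := by
  rw [Real.cot_eq_cos_div_sin, Real.cot_eq_cos_div_sin, Real.cos_neg, Real.sin_neg, div_neg]

theorem ee_zero (x : ℝ) : ee 0 x = 1 := by
  unfold ee
  simp

/-- the truncated integrals are odd -/
theorem trunc_neg (u ε : ℝ) :
    trunc 0 (cx g) (-u) ε = trunc 0 (fun y => (-1) * cx g y) u ε := by
  unfold trunc
  have hS : Neg.neg ⁻¹' {t : ℝ | ε < |t| ∧ |t| ≤ 1 / 2} = {t : ℝ | ε < |t| ∧ |t| ≤ 1 / 2} := by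
    ext t
    simp
  have h := (Measure.measurePreserving_neg (volume : Measure ℝ)).setIntegral_preimage_emb
    (MeasurableEquiv.neg ℝ).measurableEmbedding
    (fun t => ((Real.cot (Real.pi * t) : ℝ) : ℂ) * ee 0 t * cx g (-u - t))
    {t : ℝ | ε < |t| ∧ |t| ≤ 1 / 2}
  rw [hS] at h
  rw [← h]
  congr 1
  funext t
  have h1 : cx g (-u - -t) = cx g (u - t) := by
    unfold cx
    rw [show -u - -t = -(u - t) by ring, g_even]
  rw [h1, show Real.pi * -t = -(Real.pi * t) by ring, cot_neg', ee_zero, ee_zero]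
  push_cast
  ring

theorem CN_neg (h : CNprops) (u : ℝ) : CN 0 (cx g) (-u) = -CN 0 (cx g) u := by
  have h1 : CN 0 (cx g) (-u) = CN 0 (fun y => (-1) * cx g y) u := by
    unfold CN
    congr 1
    funext ε
    exact trunc_neg u ε
  rw [h1, h.smul 0 (cx g) (-1) sm_cx u]
  ring

theorem CN_sub (h : CNprops) (u : ℝ) : CN 0 (cx g) (1 - u) = -CN 0 (cx g) u := by
  rw [← CN_neg h, show 1 - u = -u + 1 by ring]
  exact h.per 0 (cx g) sm_cx (-u)

theorem odd_g (h : CNprops) : ∫ u in zer g, CN 0 (cx g) u = 0 := by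
  rw [zer_eq, integral_Icc_eq_integral_Ioc,
    ← intervalIntegral.integral_of_le (by norm_num : (1 / 4 : ℝ) ≤ 3 / 4)]
  have h1 := intervalIntegral.integral_comp_sub_left (a := (1 / 4 : ℝ)) (b := 3 / 4)
    (CN 0 (cx g)) 1
  rw [show (1 : ℝ) - 3 / 4 = 1 / 4 by norm_num, show (1 : ℝ) - 1 / 4 = 3 / 4 by norm_num] at h1
  simp only [CN_sub h] at h1
  rw [intervalIntegral.integral_neg] at h1
  have h2 : (2 : ℂ) * ∫ u in (1 / 4 : ℝ)..(3 / 4), CN 0 (cx g) u = 0 := by
    linear_combination -h1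
  exact (mul_eq_zero.mp h2).resolve_left two_ne_zero

end RevGAux

open RevGAux in
theorem c_RevG : S_RevG := by
  intro h
  refine ⟨g, ⟨⟨g_contDiff, g_per⟩, fun x => ⟨Real.smoothTransition.nonneg _,
    Real.smoothTransition.le_one _⟩, mass_g, ?_, odd_g h⟩⟩
  rw [zer_eq, Real.volume_Icc]
  norm_num

end Pool.Agent.MP777
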