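import Pool.Agent.Lib.MP_777af9_an.Spec

/-!
# MP_777af9_an: sublinearity and measurability
-/

open MeasureTheory Set Filter Topology
open scoped ENNReal

noncomputable section

namespace Pool.Agent.MP777

namespace SubAux

theorem meas_CLm (cp : CNprops) (L : ℕ) (f : ℝ → ℂ) (hf : Sm f) : Measurable (CLm L f) := by
  unfold CLm
  refine Measurable.iSup fun N => Measurable.iSup fun _ => ?_
  exact (cp.cont _ f hf).enorm.measurable

theorem meas_Cf (cp : CNprops) (f : ℝ → ℂ) (hf : Sm f) : Measurable (Cf f) := by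
  unfold Cf
  refine Measurable.iSup fun N => Measurable.iSup fun _ => ?_
  exact (cp.cont _ f hf).enorm.measurable

theorem CLm_mono {L L' : ℕ} (hL : L ≤ L') (f : ℝ → ℂ) (x : ℝ) : CLm L f x ≤ CLm L' f x := by
  unfold CLm
  refine iSup₂_le fun N hN => ?_
  refine le_iSup₂_of_le N ?_ le_rfl
  rw [Finset.mem_Icc] at hN ⊢
  exact ⟨hN.1, hN.2.trans hL⟩

theorem le_CLm {N L : ℕ} (h1 : 1 ≤ N) (hL : N ≤ L) (f : ℝ → ℂ) (x : ℝ) :
    ‖CN ((N : ℕ) : ℤ) f x‖ₑ ≤ CLm L f x := by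
  have h : N ∈ Finset.Icc 1 L := Finset.mem_Icc.2 ⟨h1, hL⟩
  unfold CLm
  exact le_biSup (f := fun N : ℕ => ‖CN ((N : ℕ) : ℤ) f x‖ₑ) h

theorem le_Cf {N : ℕ} (h1 : 1 ≤ N) (f : ℝ → ℂ) (x : ℝ) :
    ‖CN ((N : ℕ) : ℤ) f x‖ₑ ≤ Cf f x := by
  unfold Cf
  exact le_iSup_of_le N (le_iSup_of_le h1 le_rfl)

theorem Cf_eq (f : ℝ → ℂ) (x : ℝ) : Cf f x = ⨆ L : ℕ, CLm L f x := by
  refine le_antisymm ?_ ?_
  · unfold Cf
    refine iSup₂_le fun N hN => ?_
    exact le_iSup_of_le N (le_CLm hN le_rfl f x)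
  · refine iSup_le fun L => ?_
    unfold CLm
    refine iSup₂_le fun N hN => ?_
    rw [Finset.mem_Icc] at hN
    exact le_Cf hN.1 f x

end SubAux

open SubAux

theorem c_Sub : S_Sub := by
  intro cp
  refine ⟨fun f hf => meas_Cf cp f hf, fun L f hf => meas_CLm cp L f hf, ?_, ?_, ?_⟩
  · intro f g hf hg
    unfold CL1
    rw [← lintegral_add_left (meas_Cf cp f hf)]
    refine lintegral_mono fun x => ?_
    rw [Cf]
    refine iSup₂_le fun N hN => ?_
    rw [cp.add N f g hf hg x]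
    exact (enorm_add_le _ _).trans (add_le_add (le_Cf hN f x) (le_Cf hN g x))
  · intro f c hf
    unfold CL1
    rw [← lintegral_const_mul _ (meas_Cf cp f hf)]
    refine lintegral_congr fun x => ?_
    unfold Cf
    simp only [ENNReal.mul_iSup, cp.smul _ f c hf x, enorm_mul]
  · intro f hf
    unfold CL1
    rw [← lintegral_iSup]
    · exact lintegral_congr fun x => Cf_eq f x
    · exact fun L => meas_CLm cp L f hf
    · intro L L' hL x
      exact CLm_mono hL f x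

end Pool.Agent.MP777
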