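import Pool.Agent.Lib.MP_777af9_an.Spec

/-!
# MP_777af9_an: superadditivity of `rr`
-/

open MeasureTheory Set Filter Topology
open scoped ENNReal

noncomputable section

namespace Pool.Agent.MP777

namespace SupAux

theorem smR_cx {h : ℝ → ℝ} (hh : SmR h) : Sm (cx h) := by
  refine ⟨?_, ?_⟩
  · exact Complex.ofRealCLM.contDiff.comp hh.1
  · intro x
    simp [cx, hh.2 x]

theorem per_shift {g : ℝ → ℝ} (hg : Function.Periodic g 1) (k : ℕ) (θ x : ℝ) :
    g ((k : ℝ) * (x + 1) + θ) = g ((k : ℝ) * x + θ) := by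
  have h1 := hg.nat_mul k ((k : ℝ) * x + θ)
  rw [← h1]
  congr 1
  ring

theorem tens_smR {h g : ℝ → ℝ} (hh : SmR h) (hg : SmR g) (k : ℕ) (θ : ℝ) :
    SmR (tens h g k θ) := by
  refine ⟨?_, ?_⟩
  · refine hh.1.mul (hg.1.comp ?_)
    fun_prop
  · intro x
    simp only [tens]
    rw [hh.2 x, per_shift hg.2]

theorem zer_meas {h : ℝ → ℝ} (hh : Continuous h) : MeasurableSet (zer h) := by
  have : zer h = Ioc (0 : ℝ) 1 ∩ {x | h x = 0} := rfl
  rw [this]
  exact measurableSet_Ioc.inter (measurableSet_eq_fun hh.measurable measurable_const)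

/-- the quotient in the definition of `rr` -/
def qq (L : ℕ) (h : ℝ → ℝ) : ℝ≥0∞ := (∫⁻ x in zer h, CLm L (cx h) x) / ENNReal.ofReal (mass h)

theorem rr_eq (m : ℝ) : rr m = ⨆ p : {h : ℝ → ℝ // Cls m h} × ℕ, qq p.2 p.1.1 := by
  rw [rr, iSup_prod, iSup_subtype]
  rfl

theorem le_rr {m : ℝ} {h : ℝ → ℝ} (hC : Cls m h) (L : ℕ) : qq L h ≤ rr m :=
  le_iSup_of_le h (le_iSup_of_le hC (le_iSup_of_le L le_rfl))

theorem CLm_mono {L L' : ℕ} (hL : L ≤ L') (f : ℝ → ℂ) (x : ℝ) : CLm L f x ≤ CLm L' f x := by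
  unfold CLm
  refine iSup₂_le fun N hN => ?_
  refine le_iSup₂_of_le N ?_ le_rfl
  rw [Finset.mem_Icc] at hN ⊢
  exact ⟨hN.1, hN.2.trans hL⟩

theorem qq_mono {L L' : ℕ} (hL : L ≤ L') (h : ℝ → ℝ) : qq L h ≤ qq L' h := by
  unfold qq
  gcongr
  exact CLm_mono hL _ _

theorem cls_one {m : ℝ} (hm : 1 < m) : Cls m (fun _ => 1) := by
  have h1 : mass (fun _ => (1 : ℝ)) = 1 := by simp [mass]
  refine ⟨⟨contDiff_const, fun x => rfl⟩, fun x => zero_le_one, ?_, fun x => ?_⟩
  · rw [h1]; exact one_pos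
  · rw [h1]; linarith

theorem bound_attained {h : ℝ → ℝ} (hh : SmR h) {b : ℝ} (hb : ∀ x, h x < b) :
    ∃ b' < b, ∀ x, h x ≤ b' := by
  obtain ⟨x0, hx0⟩ := (isCompact_Icc (a := (0:ℝ)) (b := 1)).exists_isMaxOn ⟨0, by simp⟩
    hh.1.continuous.continuousOn
  refine ⟨h x0, hb x0, fun x => ?_⟩
  obtain ⟨y, hy, hxy⟩ := hh.2.exists_mem_Ico₀ one_pos x
  rw [hxy]
  exact hx0.2 ⟨hy.1, hy.2.le⟩

theorem fin_CLm (cp : CNprops) {h : ℝ → ℝ} (hh : SmR h) (L : ℕ) :
    ∫⁻ x in zer h, CLm L (cx h) x ≠ ⊤ := by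
  obtain ⟨B, hB⟩ := cp.bdd (cx h) (smR_cx hh)
  have h1 : ∀ x, CLm L (cx h) x ≤ ENNReal.ofReal B := by
    intro x
    refine iSup₂_le fun N _ => ?_
    rw [← ofReal_norm]
    exact ENNReal.ofReal_le_ofReal (hB _ _)
  have h2 : ∫⁻ x in zer h, CLm L (cx h) x ≤ ∫⁻ x in Ioc (0:ℝ) 1, ENNReal.ofReal B := by
    refine (lintegral_mono_set (fun x hx => hx.1)).trans ?_
    exact lintegral_mono h1
  refine ne_top_of_le_ne_top ?_ h2
  simp

theorem mass_nonneg' {h : ℝ → ℝ} (h0 : ∀ x, 0 ≤ h x) : 0 ≤ mass h := by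
  unfold mass
  exact intervalIntegral.integral_nonneg zero_le_one fun x _ => h0 x

/-- integral of a nonnegative smooth function as a lower integral -/
theorem lint_mass {h : ℝ → ℝ} (hh : SmR h) (h0 : ∀ x, 0 ≤ h x) :
    ∫⁻ x in Ioc (0:ℝ) 1, ENNReal.ofReal (h x) = ENNReal.ofReal (mass h) := by
  unfold mass
  rw [intervalIntegral.integral_of_le zero_le_one]
  rw [ofReal_integral_eq_lintegral_ofReal]
  · exact (hh.1.continuous.integrableOn_Icc).mono_set Ioc_subset_Icc_self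
  · exact Eventually.of_forall h0

/-- the kernel for averaging -/
def Phi0 (L : ℕ) (h g : ℝ → ℝ) (x u : ℝ) : ℝ≥0∞ :=
  ENNReal.ofReal (h x) * {v : ℝ | g v = 0}.indicator (CLm L (cx g)) u

theorem Phi0_meas (cl : CLprops) {h g : ℝ → ℝ} (hh : SmR h) (hg : SmR g) (L : ℕ) :
    Measurable (Function.uncurry (Phi0 L h g)) := by
  have h1 : MeasurableSet {v : ℝ | g v = 0} :=
    measurableSet_eq_fun hg.1.continuous.measurable measurable_const
  have h2 : Measurable ({v : ℝ | g v = 0}.indicator (CLm L (cx g))) :=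
    (cl.measL L (cx g) (smR_cx hg)).indicator h1
  have h3 : Measurable (fun x => ENNReal.ofReal (h x)) := hh.1.continuous.measurable.ennreal_ofReal
  exact (h3.comp measurable_fst).mul (h2.comp measurable_snd)

theorem CLm_per (cp : CNprops) {g : ℝ → ℝ} (hg : SmR g) (L : ℕ) :
    Function.Periodic (CLm L (cx g)) 1 := by
  intro x
  unfold CLm
  refine iSup_congr fun N => iSup_congr fun _ => ?_
  rw [cp.per (N : ℤ) (cx g) (smR_cx hg) x]

theorem Phi0_per (cp : CNprops) {h g : ℝ → ℝ} (hg : SmR g) (L : ℕ) (x : ℝ) :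
    Function.Periodic (Phi0 L h g x) 1 := by
  intro u
  unfold Phi0
  congr 1
  by_cases hu : g u = 0
  · have hu' : g (u + 1) = 0 := by rw [hg.2 u]; exact hu
    rw [indicator_of_mem (show u + 1 ∈ {v : ℝ | g v = 0} from hu'),
      indicator_of_mem (show u ∈ {v : ℝ | g v = 0} from hu), CLm_per cp hg L u]
  · have hu' : ¬ g (u + 1) = 0 := by rw [hg.2 u]; exact hu
    rw [indicator_of_notMem (show u + 1 ∉ {v : ℝ | g v = 0} from hu'),
      indicator_of_notMem (show u ∉ {v : ℝ | g v = 0} from hu)]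

theorem Phi0_int (cl : CLprops) {h g : ℝ → ℝ} (hh : SmR h) (h0 : ∀ x, 0 ≤ h x) (hg : SmR g)
    (L : ℕ) :
    ∫⁻ x in Ioc (0 : ℝ) 1, ∫⁻ u in Ioc (0 : ℝ) 1, Phi0 L h g x u
      = ENNReal.ofReal (mass h) * ∫⁻ x in zer g, CLm L (cx g) x := by
  have h1 : MeasurableSet {v : ℝ | g v = 0} :=
    measurableSet_eq_fun hg.1.continuous.measurable measurable_const
  have hm : Measurable (CLm L (cx g)) := cl.measL L (cx g) (smR_cx hg)
  have h2 : ∀ x, ∫⁻ u in Ioc (0 : ℝ) 1, Phi0 L h g x u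
      = ENNReal.ofReal (h x) * ∫⁻ x in zer g, CLm L (cx g) x := by
    intro x
    unfold Phi0
    rw [lintegral_const_mul _ (hm.indicator h1), lintegral_indicator h1]
    congr 1
    rw [Measure.restrict_restrict h1]
    congr 2
    ext v
    simp only [zer, mem_inter_iff, mem_ofPred_eq]
    tauto
  simp_rw [h2]
  rw [lintegral_mul_const _ hh.1.continuous.measurable.ennreal_ofReal, lint_mass hh h0]

theorem zer_tens (h g : ℝ → ℝ) (k : ℕ) (θ : ℝ) :
    zer (tens h g k θ) = zer h ∪ {x ∈ Ioc (0:ℝ) 1 | h x ≠ 0 ∧ g ((k:ℝ) * x + θ) = 0} := by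
  ext x
  simp only [zer, tens, mem_union, mem_ofPred_eq, mul_eq_zero]
  tauto

theorem step (cp : CNprops) (cl : CLprops) (avg : S_Avg) {h g : ℝ → ℝ} (hh : SmR h) (hg : SmR g)
    (h0 : ∀ x, 0 ≤ h x) {L : ℕ} {η : ℝ} {R k : ℕ}
    (hpt : ∀ θ x : ℝ,
      (h x = 0 → ENNReal.ofReal (mass g) * CLm L (cx h) x
        ≤ CLm (k * L + R) (cx (tens h g k θ)) x + ENNReal.ofReal η) ∧
      (g ((k : ℝ) * x + θ) = 0 → ENNReal.ofReal (h x) * CLm L (cx g) ((k : ℝ) * x + θ)
        ≤ CLm (k * L + R) (cx (tens h g k θ)) x + ENNReal.ofReal η)) :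
    ∃ θ : ℝ, ENNReal.ofReal (mass g) * (∫⁻ x in zer h, CLm L (cx h) x)
        + ENNReal.ofReal (mass h) * (∫⁻ x in zer g, CLm L (cx g) x)
      ≤ (∫⁻ x in zer (tens h g k θ), CLm (k * L + R) (cx (tens h g k θ)) x)
        + ENNReal.ofReal η := by
  have : IsProbabilityMeasure (volume.restrict (Ioc (0:ℝ) 1)) := ⟨by simp⟩
  set B := ∫⁻ x in zer g, CLm L (cx g) x with hB
  have hav := avg (Phi0 L h g) (Phi0_meas cl hh hg L) (Phi0_per cp hg L) k
  rw [Phi0_int cl hh h0 hg L] at hav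
  have hfin : ENNReal.ofReal (mass h) * B ≠ ⊤ :=
    ENNReal.mul_ne_top ENNReal.ofReal_ne_top (fin_CLm cp hg L)
  obtain ⟨θ, hθ⟩ := exists_lintegral_le (μ := volume.restrict (Ioc (0:ℝ) 1))
    (f := fun θ => ∫⁻ x in Ioc (0 : ℝ) 1, Phi0 L h g x ((k : ℝ) * x + θ)) (by rw [hav]; exact hfin)
  rw [hav] at hθ
  refine ⟨θ, ?_⟩
  set F := tens h g k θ with hF
  have hFs : SmR F := tens_smR hh hg k θ
  set S2 := {x ∈ Ioc (0:ℝ) 1 | h x ≠ 0 ∧ g ((k:ℝ) * x + θ) = 0} with hS2
  have mS1 : MeasurableSet (zer h) := zer_meas hh.1.continuous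
  have cg : Continuous (fun x : ℝ => g ((k:ℝ) * x + θ)) := hg.1.continuous.comp (by fun_prop)
  have mS2 : MeasurableSet S2 := by
    have : S2 = Ioc (0 : ℝ) 1 ∩ ({x | h x = 0}ᶜ ∩ {x | g ((k:ℝ) * x + θ) = 0}) := by
      ext x; simp [hS2]
    rw [this]
    exact measurableSet_Ioc.inter
      ((measurableSet_eq_fun hh.1.continuous.measurable measurable_const).compl.inter
        (measurableSet_eq_fun cg.measurable measurable_const))
  have hdis : Disjoint (zer h) S2 := by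
    rw [Set.disjoint_left]
    intro x hx hx2
    exact hx2.2.1 hx.2
  have mF : Measurable (CLm (k * L + R) (cx F)) := cl.measL _ _ (smR_cx hFs)
  -- split
  rw [zer_tens, lintegral_union mS2 hdis]
  -- first part
  have e1 : ENNReal.ofReal (mass g) * (∫⁻ x in zer h, CLm L (cx h) x)
      ≤ (∫⁻ x in zer h, CLm (k * L + R) (cx F) x) + ENNReal.ofReal η * volume (zer h) := by
    rw [← lintegral_const_mul _ (cl.measL L (cx h) (smR_cx hh))]
    calc ∫⁻ x in zer h, ENNReal.ofReal (mass g) * CLm L (cx h) x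
        ≤ ∫⁻ x in zer h, (CLm (k * L + R) (cx F) x + ENNReal.ofReal η) := by
          refine setLIntegral_mono' mS1 fun x hx => ?_
          exact (hpt θ x).1 hx.2
      _ = _ := by
          rw [lintegral_add_left mF, setLIntegral_const]
  -- second part
  have e2 : ∫⁻ x in Ioc (0 : ℝ) 1, Phi0 L h g x ((k : ℝ) * x + θ)
      ≤ (∫⁻ x in S2, CLm (k * L + R) (cx F) x) + ENNReal.ofReal η * volume S2 := by
    have hsub : S2 ⊆ Ioc (0:ℝ) 1 := fun x hx => hx.1
    calc ∫⁻ x in Ioc (0 : ℝ) 1, Phi0 L h g x ((k : ℝ) * x + θ)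
        = ∫⁻ x in Ioc (0 : ℝ) 1, S2.indicator (fun x => Phi0 L h g x ((k : ℝ) * x + θ)) x := by
          refine setLIntegral_congr_fun measurableSet_Ioc ?_
          intro x hx
          by_cases hx2 : x ∈ S2
          · simp only [indicator_of_mem hx2]
          · simp only [indicator_of_notMem hx2]
            unfold Phi0
            by_cases hz : h x = 0
            · simp [hz]
            · have : ¬ g ((k:ℝ) * x + θ) = 0 := fun hg0 => hx2 ⟨hx, hz, hg0⟩
              rw [indicator_of_notMem (show (k:ℝ) * x + θ ∉ {v : ℝ | g v = 0} from this), mul_zero]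
      _ = ∫⁻ x in S2, Phi0 L h g x ((k : ℝ) * x + θ) := by
          rw [lintegral_indicator mS2, Measure.restrict_restrict mS2, inter_eq_left.2 hsub]
      _ ≤ ∫⁻ x in S2, (CLm (k * L + R) (cx F) x + ENNReal.ofReal η) := by
          refine setLIntegral_mono' mS2 fun x hx => ?_
          unfold Phi0
          rw [indicator_of_mem (show (k:ℝ) * x + θ ∈ {v : ℝ | g v = 0} from hx.2.2)]
          exact (hpt θ x).2 hx.2.2
      _ = _ := by
          rw [lintegral_add_left mF, setLIntegral_const]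
  have hvol : volume (zer h) + volume S2 ≤ 1 := by
    rw [← measure_union hdis mS2]
    calc volume (zer h ∪ S2) ≤ volume (Ioc (0:ℝ) 1) := by
          refine measure_mono ?_
          rintro x (hx | hx)
          · exact hx.1
          · exact hx.1
      _ = 1 := by simp
  calc ENNReal.ofReal (mass g) * (∫⁻ x in zer h, CLm L (cx h) x) + ENNReal.ofReal (mass h) * B
      ≤ ((∫⁻ x in zer h, CLm (k * L + R) (cx F) x) + ENNReal.ofReal η * volume (zer h))
        + ((∫⁻ x in S2, CLm (k * L + R) (cx F) x) + ENNReal.ofReal η * volume S2) :=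
        add_le_add e1 (hθ.trans e2)
    _ = ((∫⁻ x in zer h, CLm (k * L + R) (cx F) x) + (∫⁻ x in S2, CLm (k * L + R) (cx F) x))
        + ENNReal.ofReal η * (volume (zer h) + volume S2) := by ring
    _ ≤ ((∫⁻ x in zer h, CLm (k * L + R) (cx F) x) + (∫⁻ x in S2, CLm (k * L + R) (cx F) x))
        + ENNReal.ofReal η * 1 := by gcongr
    _ = _ := by rw [mul_one]

end SupAux

open SupAux

theorem c_Sup : S_Sup := by
  intro cp cl pt ma avg m n hm hn
  by_cases htop : rr (m * n) = ⊤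
  · rw [htop]; exact le_top
  rw [rr_eq m, rr_eq n]
  have : Nonempty ({h : ℝ → ℝ // Cls m h} × ℕ) := ⟨(⟨_, cls_one hm⟩, 0)⟩
  have : Nonempty ({h : ℝ → ℝ // Cls n h} × ℕ) := ⟨(⟨_, cls_one hn⟩, 0)⟩
  refine ENNReal.iSup_add_iSup_le ?_
  rintro ⟨⟨h, hC⟩, L1⟩ ⟨⟨g, gC⟩, L2⟩
  simp only
  set L := max L1 L2 with hL
  refine (add_le_add (qq_mono (le_max_left L1 L2) h) (qq_mono (le_max_right L1 L2) g)).trans ?_
  obtain ⟨hh, h0, hH, hb⟩ := hC
  obtain ⟨hg, g0, hG, gb⟩ := gC
  obtain ⟨b, hbm, hb'⟩ := bound_attained hh hb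
  obtain ⟨c, hcn, hc'⟩ := bound_attained hg gb
  set H := mass h with hHdef
  set G := mass g with hGdef
  have hb0 : 0 ≤ b := (h0 0).trans (hb' 0)
  have hc0 : 0 ≤ c := (g0 0).trans (hc' 0)
  have m0 : 0 < m := by linarith
  have n0 : 0 < n := by linarith
  have hbc : b * c < m * n * (H * G) := by
    have h1 : b * c ≤ b * (n * G) := by gcongr
    have h2 : b * (n * G) < (m * H) * (n * G) := by gcongr
    nlinarith
  have hHG : 0 < H * G := mul_pos hH hG
  set A := ∫⁻ x in zer h, CLm L (cx h) x with hA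
  set B := ∫⁻ x in zer g, CLm L (cx g) x with hB
  -- the inequality with error
  have key : ∀ᶠ η in 𝓝[>] (0:ℝ), ENNReal.ofReal G * A + ENNReal.ofReal H * B
      ≤ rr (m * n) * ENNReal.ofReal (H * G + η) + ENNReal.ofReal η := by
    have hlim : Tendsto (fun η : ℝ => m * n * (H * G - η)) (𝓝[>] 0) (𝓝 (m * n * (H * G - 0))) := by
      refine Tendsto.mono_left ?_ nhdsWithin_le_nhds
      exact (continuous_const.mul (continuous_const.sub continuous_id)).tendsto 0
    rw [sub_zero] at hlim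
    have ev1 := hlim.eventually (lt_mem_nhds hbc)
    filter_upwards [ev1, self_mem_nhdsWithin] with η h1 h2
    have hη : 0 < η := h2
    obtain ⟨R, k0, hk0⟩ := pt h g L η hh hg h0 g0 hη
    obtain ⟨k1, hk1⟩ := ma h g hh hg η hη
    set k := max k0 k1 with hk
    obtain ⟨θ, hθ⟩ := step cp cl avg hh hg h0 (hk0 k (le_max_left _ _))
    have hmass := hk1 k (le_max_right _ _) θ
    rw [abs_le] at hmass
    set F := tens h g k θ with hF
    have hF1 : H * G - η ≤ mass F := by linarith [hmass.1]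
    have hF2 : mass F ≤ H * G + η := by linarith [hmass.2]
    have hmn : 0 < m * n := mul_pos m0 n0
    have hpos : 0 < H * G - η := by
      by_contra hcon
      push Not at hcon
      have : m * n * (H * G - η) ≤ 0 := mul_nonpos_of_nonneg_of_nonpos hmn.le hcon
      have : 0 ≤ b * c := mul_nonneg hb0 hc0
      linarith
    have hFC : Cls (m * n) F := by
      refine ⟨tens_smR hh hg k θ, fun x => mul_nonneg (h0 _) (g0 _), by linarith, fun x => ?_⟩
      have h3 : F x ≤ b * c := mul_le_mul (hb' _) (hc' _) (g0 _) hb0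
      have h4 : m * n * (H * G - η) ≤ m * n * mass F := by gcongr
      linarith
    have hq := le_rr hFC (k * L + R)
    unfold qq at hq
    have hFpos : 0 < mass F := by linarith
    rw [ENNReal.div_le_iff (by simpa using hFpos) ENNReal.ofReal_ne_top] at hq
    refine hθ.trans ?_
    gcongr
    refine hq.trans ?_
    gcongr
  have lim : Tendsto (fun η : ℝ => rr (m * n) * ENNReal.ofReal (H * G + η) + ENNReal.ofReal η)
      (𝓝[>] 0) (𝓝 (rr (m * n) * ENNReal.ofReal (H * G + 0) + ENNReal.ofReal 0)) := by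
    refine Tendsto.add ?_ ?_
    · refine ENNReal.Tendsto.const_mul ?_ (Or.inr htop)
      refine ENNReal.tendsto_ofReal ?_
      refine Tendsto.mono_left ?_ nhdsWithin_le_nhds
      exact (continuous_const.add continuous_id).tendsto 0
    · refine ENNReal.tendsto_ofReal ?_
      exact Tendsto.mono_left (continuous_id.tendsto 0) nhdsWithin_le_nhds
  have fin := ge_of_tendsto lim key
  rw [add_zero, ENNReal.ofReal_zero, add_zero] at fin
  have eH : ENNReal.ofReal H ≠ 0 := by simpa using hH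
  have eG : ENNReal.ofReal G ≠ 0 := by simpa using hG
  have e1 : A / ENNReal.ofReal H = (ENNReal.ofReal G * A) / (ENNReal.ofReal G * ENNReal.ofReal H) :=
    (ENNReal.mul_div_mul_left A _ eG ENNReal.ofReal_ne_top).symm
  have e2 : B / ENNReal.ofReal G = (ENNReal.ofReal H * B) / (ENNReal.ofReal H * ENNReal.ofReal G) :=
    (ENNReal.mul_div_mul_left B _ eH ENNReal.ofReal_ne_top).symm
  change A / ENNReal.ofReal H + B / ENNReal.ofReal G ≤ rr (m * n)
  rw [e1, e2, mul_comm (ENNReal.ofReal H) (ENNReal.ofReal G), ENNReal.div_add_div_same,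
    ENNReal.div_le_iff (mul_ne_zero eG eH) (ENNReal.mul_ne_top ENNReal.ofReal_ne_top
      ENNReal.ofReal_ne_top)]
  refine fin.trans ?_
  rw [ENNReal.ofReal_mul hH.le, mul_comm (ENNReal.ofReal H)]

end Pool.Agent.MP777
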