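import Pool.Agent.Lib.MP_777af9_an.Asm
import Pool.Agent.Lib.MP_777af9_an.Avg
import Pool.Agent.Lib.MP_777af9_an.Back
import Pool.Agent.Lib.MP_777af9_an.CNb
import Pool.Agent.Lib.MP_777af9_an.Char
import Pool.Agent.Lib.MP_777af9_an.Comp
import Pool.Agent.Lib.MP_777af9_an.ContStj
import Pool.Agent.Lib.MP_777af9_an.Cot
import Pool.Agent.Lib.MP_777af9_an.Dec
import Pool.Agent.Lib.MP_777af9_an.DecA
import Pool.Agent.Lib.MP_777af9_an.Dich
import Pool.Agent.Lib.MP_777af9_an.Fek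
import Pool.Agent.Lib.MP_777af9_an.Four
import Pool.Agent.Lib.MP_777af9_an.Jen
import Pool.Agent.Lib.MP_777af9_an.Max
import Pool.Agent.Lib.MP_777af9_an.Mult
import Pool.Agent.Lib.MP_777af9_an.Off
import Pool.Agent.Lib.MP_777af9_an.PMass
import Pool.Agent.Lib.MP_777af9_an.Phi
import Pool.Agent.Lib.MP_777af9_an.Pos
import Pool.Agent.Lib.MP_777af9_an.Prod
import Pool.Agent.Lib.MP_777af9_an.PtS
import Pool.Agent.Lib.MP_777af9_an.QC
import Pool.Agent.Lib.MP_777af9_an.Rev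
import Pool.Agent.Lib.MP_777af9_an.RevG
import Pool.Agent.Lib.MP_777af9_an.Sub
import Pool.Agent.Lib.MP_777af9_an.Sup

/-!
# MP_777af9_an: the final theorem
-/

namespace Pool.Agent.MP777

theorem final : Final :=
  asm c_Cot c_Four c_Mult c_CNb c_Sub c_QC c_DecA c_Dec c_Jen c_Char c_Max c_Cont c_Prod c_PM
    c_Avg c_PtS c_Sup c_RevG c_Rev c_Pos c_Comp c_Fek c_Phi c_Back c_Dich c_Off

end Pool.Agent.MP777
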