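import Pool.Agent.Lib.MP_777af9_an.Spec

/-!
# MP_777af9_an: the reverse inequality
-/

open MeasureTheory Set Filter Topology
open scoped ENNReal

noncomputable section

namespace Pool.Agent.MP777

namespace RevAux

theorem smR_cx {h : ℝ → ℝ} (hh : SmR h) : Sm (cx h) := by
  refine ⟨?_, ?_⟩
  · exact Complex.ofRealCLM.contDiff.comp hh.1
  · intro x
    simp [cx, hh.2 x]

theorem per_shift {g : ℝ → ℝ} (hg : Function.Periodic g 1) (k : ℕ) (θ x : ℝ) :
    g ((k : ℝ) * (x + 1) + θ) = g ((k : ℝ) * x + θ) := by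
  have h1 := hg.nat_mul k ((k : ℝ) * x + θ)
  rw [← h1]
  congr 1
  ring

theorem tens_smR {h g : ℝ → ℝ} (hh : SmR h) (hg : SmR g) (k : ℕ) (θ : ℝ) :
    SmR (tens h g k θ) := by
  refine ⟨?_, ?_⟩
  · refine hh.1.mul (hg.1.comp ?_)
    fun_prop
  · intro x
    simp only [tens]
    rw [hh.2 x, per_shift hg.2]

theorem bound_attained {h : ℝ → ℝ} (hh : SmR h) {b : ℝ} (hb : ∀ x, h x < b) :
    ∃ b' < b, ∀ x, h x ≤ b' := by
  obtain ⟨x0, hx0⟩ := (isCompact_Icc (a := (0:ℝ)) (b := 1)).exists_isMaxOn ⟨0, by simp⟩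
    hh.1.continuous.continuousOn
  refine ⟨h x0, hb x0, fun x => ?_⟩
  obtain ⟨y, hy, hxy⟩ := hh.2.exists_mem_Ico₀ one_pos x
  rw [hxy]
  exact hx0.2 ⟨hy.1, hy.2.le⟩

theorem fin_CLm (cp : CNprops) {h : ℝ → ℝ} (hh : SmR h) (L : ℕ) (S : Set ℝ)
    (hS : S ⊆ Ioc (0 : ℝ) 1) :
    ∫⁻ x in S, CLm L (cx h) x ≠ ⊤ := by
  obtain ⟨B, hB⟩ := cp.bdd (cx h) (smR_cx hh)
  have h1 : ∀ x, CLm L (cx h) x ≤ ENNReal.ofReal B := by
    intro x
    refine iSup₂_le fun N _ => ?_
    rw [← ofReal_norm]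
    exact ENNReal.ofReal_le_ofReal (hB _ _)
  have h2 : ∫⁻ x in S, CLm L (cx h) x ≤ ∫⁻ x in Ioc (0:ℝ) 1, ENNReal.ofReal B := by
    refine (lintegral_mono_set hS).trans ?_
    exact lintegral_mono h1
  refine ne_top_of_le_ne_top ?_ h2
  simp

/-- the pointwise kernel -/
def ker (L : ℕ) (h g : ℝ → ℝ) (x u : ℝ) : ℝ≥0∞ :=
  ⨆ r ∈ Finset.Icc 1 L,
    ‖(h x : ℂ) * CN 0 (cx g) u + (mass g : ℂ) * CN ((r : ℕ) : ℤ) (cx h) x‖ₑ

def Phi0 (L : ℕ) (h g : ℝ → ℝ) (x u : ℝ) : ℝ≥0∞ :=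
  {v : ℝ | g v = 0}.indicator (ker L h g x) u

theorem ker_meas (cp : CNprops) {h g : ℝ → ℝ} (hh : SmR h) (hg : SmR g) (L : ℕ) :
    Measurable (Function.uncurry (ker L h g)) := by
  unfold ker Function.uncurry
  refine Measurable.iSup fun r => Measurable.iSup fun _ => ?_
  have c1 : Continuous (CN 0 (cx g)) := cp.cont 0 _ (smR_cx hg)
  have c2 : Continuous (CN ((r : ℕ) : ℤ) (cx h)) := cp.cont _ _ (smR_cx hh)
  have c3 : Continuous h := hh.1.continuous
  have : Continuous (fun p : ℝ × ℝ =>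
      (h p.1 : ℂ) * CN 0 (cx g) p.2 + (mass g : ℂ) * CN ((r : ℕ) : ℤ) (cx h) p.1) := by
    fun_prop
  exact this.enorm.measurable

theorem Phi0_meas (cp : CNprops) {h g : ℝ → ℝ} (hh : SmR h) (hg : SmR g) (L : ℕ) :
    Measurable (Function.uncurry (Phi0 L h g)) := by
  have h1 : MeasurableSet {p : ℝ × ℝ | g p.2 = 0} :=
    measurableSet_eq_fun (hg.1.continuous.measurable.comp measurable_snd) measurable_const
  have : Function.uncurry (Phi0 L h g)
      = {p : ℝ × ℝ | g p.2 = 0}.indicator (Function.uncurry (ker L h g)) := by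
    ext p
    simp only [Function.uncurry, Phi0, indicator, mem_ofPred_eq]
  rw [this]
  exact (ker_meas cp hh hg L).indicator h1

theorem Phi0_per (cp : CNprops) {h g : ℝ → ℝ} (hg : SmR g) (L : ℕ) (x : ℝ) :
    Function.Periodic (Phi0 L h g x) 1 := by
  intro u
  unfold Phi0
  have hk : ker L h g x (u + 1) = ker L h g x u := by
    unfold ker
    rw [cp.per 0 (cx g) (smR_cx hg) u]
  by_cases hu : g u = 0
  · have hu' : g (u + 1) = 0 := by rw [hg.2 u]; exact hu
    rw [indicator_of_mem (show u + 1 ∈ {v : ℝ | g v = 0} from hu'),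
      indicator_of_mem (show u ∈ {v : ℝ | g v = 0} from hu), hk]
  · have hu' : ¬ g (u + 1) = 0 := by rw [hg.2 u]; exact hu
    rw [indicator_of_notMem (show u + 1 ∉ {v : ℝ | g v = 0} from hu'),
      indicator_of_notMem (show u ∉ {v : ℝ | g v = 0} from hu)]

/-- inner integral from below -/
theorem inner_ge (cp : CNprops) {h g : ℝ → ℝ} (rf : RevFun g) (L : ℕ) (x : ℝ) :
    ENNReal.ofReal (mass g / 2) * CLm L (cx h) x ≤ ∫⁻ u in Ioc (0 : ℝ) 1, Phi0 L h g x u := by
  have hmz : MeasurableSet {v : ℝ | g v = 0} :=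
    measurableSet_eq_fun rf.sm.1.continuous.measurable measurable_const
  have e1 : ∫⁻ u in Ioc (0 : ℝ) 1, Phi0 L h g x u = ∫⁻ u in zer g, ker L h g x u := by
    unfold Phi0
    rw [lintegral_indicator hmz, Measure.restrict_restrict hmz]
    congr 2
    ext v
    simp only [zer, mem_inter_iff, mem_ofPred_eq]
    tauto
  rw [e1]
  unfold CLm
  simp only [ENNReal.mul_iSup]
  refine iSup₂_le fun r hr => ?_
  have hzfin : IsFiniteMeasure (volume.restrict (zer g)) := by
    refine ⟨?_⟩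
    rw [Measure.restrict_apply_univ, rf.vol]
    exact ENNReal.ofReal_lt_top
  have ccont : Continuous (CN 0 (cx g)) := cp.cont 0 _ (smR_cx rf.sm)
  have cint : IntegrableOn (fun u => (h x : ℂ) * CN 0 (cx g) u) (zer g) := by
    have : IntegrableOn (fun u => (h x : ℂ) * CN 0 (cx g) u) (Icc (0:ℝ) 1) :=
      (continuous_const.mul ccont).integrableOn_Icc
    exact this.mono_set fun u hu => Ioc_subset_Icc_self hu.1
  have e2 : ∫ u in zer g, ((h x : ℂ) * CN 0 (cx g) u + (mass g : ℂ) * CN ((r : ℕ) : ℤ) (cx h) x)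
      = ((mass g / 2 : ℝ) : ℂ) * CN ((r : ℕ) : ℤ) (cx h) x := by
    rw [integral_add cint (integrable_const _), integral_const_mul, rf.odd, mul_zero, zero_add,
      setIntegral_const, Measure.real, rf.vol, ENNReal.toReal_ofReal (by norm_num)]
    rw [Complex.real_smul]
    push_cast
    ring
  calc ENNReal.ofReal (mass g / 2) * ‖CN ((r : ℕ) : ℤ) (cx h) x‖ₑ
      = ‖∫ u in zer g, ((h x : ℂ) * CN 0 (cx g) u
          + (mass g : ℂ) * CN ((r : ℕ) : ℤ) (cx h) x)‖ₑ := by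
        rw [e2, enorm_mul]
        congr 1
        have : (0 : ℝ) ≤ mass g / 2 := by have := rf.mass_ge; linarith
        rw [← ofReal_norm, Complex.norm_real, Real.norm_of_nonneg this]
    _ ≤ ∫⁻ u in zer g, ‖(h x : ℂ) * CN 0 (cx g) u
          + (mass g : ℂ) * CN ((r : ℕ) : ℤ) (cx h) x‖ₑ := enorm_integral_le_lintegral_enorm _
    _ ≤ ∫⁻ u in zer g, ker L h g x u := by
        refine lintegral_mono fun u => ?_
        exact le_iSup₂_of_le (f := fun r (_ : r ∈ Finset.Icc 1 L) =>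
          ‖(h x : ℂ) * CN 0 (cx g) u + (mass g : ℂ) * CN ((r : ℕ) : ℤ) (cx h) x‖ₑ) r hr le_rfl

theorem ee_zero (x : ℝ) : ee 0 x = 1 := by simp [ee]

theorem co_zero (g : ℝ → ℝ) : co (cx g) 0 = ((mass g : ℝ) : ℂ) := by
  unfold co mass
  rw [← intervalIntegral.integral_ofReal]
  refine intervalIntegral.integral_congr fun t _ => ?_
  simp [cx, ee_zero]

theorem pt_bound (pr : ProdAs) {h g : ℝ → ℝ} (hh : SmR h) (hg : SmR g) (L : ℕ) {η : ℝ}
    (hη : 0 < η) : ∃ k0 : ℕ, ∀ k : ℕ, k0 ≤ k → ∀ θ x : ℝ,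
      ker L h g x ((k : ℝ) * x + θ) ≤ CLm L (cx (tens h g k θ)) x + ENNReal.ofReal η := by
  have h1 := fun r : ℕ => pr h g hh hg 0 (r : ℤ) η hη
  choose k0 hk0 using h1
  refine ⟨(Finset.Icc 1 L).sup k0, fun k hk θ x => ?_⟩
  unfold ker
  refine iSup₂_le fun r hr => ?_
  have hkr : k0 r ≤ k := (Finset.le_sup hr).trans hk
  have h2 := hk0 r k hkr θ x
  rw [mul_zero, zero_add, ee_zero, mul_one, co_zero] at h2
  set a := (h x : ℂ) * CN 0 (cx g) ((k : ℝ) * x + θ) + ((mass g : ℝ) : ℂ) * CN (r : ℤ) (cx h) x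
  set b := CN (r : ℤ) (cx (tens h g k θ)) x
  have h3 : ‖a‖ₑ ≤ ‖b‖ₑ + ENNReal.ofReal η := by
    have h4 : ‖a‖ ≤ ‖b‖ + η := by
      have : ‖a‖ ≤ ‖b‖ + ‖b - a‖ := by
        calc ‖a‖ = ‖b - (b - a)‖ := by congr 1; ring
          _ ≤ _ := norm_sub_le _ _
      linarith
    rw [← ofReal_norm, ← ofReal_norm, ← ENNReal.ofReal_add (norm_nonneg _) hη.le]
    exact ENNReal.ofReal_le_ofReal h4
  refine h3.trans ?_
  gcongr
  exact le_iSup₂_of_le (f := fun r (_ : r ∈ Finset.Icc 1 L) =>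
    ‖CN ((r : ℕ) : ℤ) (cx (tens h g k θ)) x‖ₑ) r hr le_rfl

theorem step (cp : CNprops) (cl : CLprops) (avg : S_Avg) {h g : ℝ → ℝ} (hh : SmR h)
    (rf : RevFun g) {L : ℕ} {η : ℝ} {k : ℕ}
    (hpt : ∀ θ x : ℝ,
      ker L h g x ((k : ℝ) * x + θ) ≤ CLm L (cx (tens h g k θ)) x + ENNReal.ofReal η) :
    ∃ θ : ℝ, ENNReal.ofReal (mass g / 2) * (∫⁻ x in Ioc (0 : ℝ) 1, CLm L (cx h) x)
      ≤ (∫⁻ x in zer (tens h g k θ), CLm L (cx (tens h g k θ)) x) + ENNReal.ofReal η := by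
  have : IsProbabilityMeasure (volume.restrict (Ioc (0:ℝ) 1)) := ⟨by simp⟩
  have hg := rf.sm
  have hav := avg (Phi0 L h g) (Phi0_meas cp hh hg L) (Phi0_per cp hg L) k
  have hzm : ∀ θ : ℝ, MeasurableSet {x : ℝ | g ((k:ℝ) * x + θ) = 0} := fun θ => by
    have cg : Continuous (fun x : ℝ => g ((k:ℝ) * x + θ)) := hg.1.continuous.comp (by fun_prop)
    exact measurableSet_eq_fun cg.measurable measurable_const
  have zm : ∀ θ : ℝ, MeasurableSet (zer (tens h g k θ)) := fun θ => by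
    have : zer (tens h g k θ) = Ioc (0 : ℝ) 1 ∩ {x | tens h g k θ x = 0} := rfl
    rw [this]
    exact measurableSet_Ioc.inter
      (measurableSet_eq_fun (tens_smR hh hg k θ).1.continuous.measurable measurable_const)
  -- the bound for each θ
  have e2 : ∀ θ : ℝ, ∫⁻ x in Ioc (0 : ℝ) 1, Phi0 L h g x ((k : ℝ) * x + θ)
      ≤ (∫⁻ x in zer (tens h g k θ), CLm L (cx (tens h g k θ)) x) + ENNReal.ofReal η := by
    intro θ
    set F := tens h g k θ with hF
    have hFs : SmR F := tens_smR hh hg k θ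
    have mF : Measurable (CLm L (cx F)) := cl.measL _ _ (smR_cx hFs)
    have hsub : zer F ⊆ Ioc (0:ℝ) 1 := fun x hx => hx.1
    calc ∫⁻ x in Ioc (0 : ℝ) 1, Phi0 L h g x ((k : ℝ) * x + θ)
        ≤ ∫⁻ x in Ioc (0 : ℝ) 1, (zer F).indicator
            (fun x => CLm L (cx F) x + ENNReal.ofReal η) x := by
          refine setLIntegral_mono' measurableSet_Ioc fun x hx => ?_
          unfold Phi0
          by_cases hz : g ((k:ℝ) * x + θ) = 0
          · have hxF : x ∈ zer F := ⟨hx, by simp [hF, tens, hz]⟩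
            rw [indicator_of_mem (show (k:ℝ) * x + θ ∈ {v : ℝ | g v = 0} from hz),
              indicator_of_mem hxF]
            exact hpt θ x
          · rw [indicator_of_notMem (show (k:ℝ) * x + θ ∉ {v : ℝ | g v = 0} from hz)]
            exact zero_le
      _ = ∫⁻ x in zer F, (CLm L (cx F) x + ENNReal.ofReal η) := by
          rw [lintegral_indicator (zm θ), Measure.restrict_restrict (zm θ), inter_eq_left.2 hsub]
      _ = (∫⁻ x in zer F, CLm L (cx F) x) + ENNReal.ofReal η * volume (zer F) := by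
          rw [lintegral_add_left mF, setLIntegral_const]
      _ ≤ _ := by
          gcongr
          calc ENNReal.ofReal η * volume (zer F) ≤ ENNReal.ofReal η * volume (Ioc (0:ℝ) 1) := by
                gcongr
            _ = ENNReal.ofReal η := by simp
  have hfin : ∫⁻ θ in Ioc (0:ℝ) 1, ∫⁻ x in Ioc (0 : ℝ) 1, Phi0 L h g x ((k : ℝ) * x + θ) ≠ ⊤ := by
    rw [hav]
    obtain ⟨B1, hB1⟩ := cp.bdd (cx h) (smR_cx hh)
    obtain ⟨B2, hB2⟩ := cp.bdd (cx g) (smR_cx hg)
    obtain ⟨x0, hx0⟩ := (isCompact_Icc (a := (0:ℝ)) (b := 1)).exists_isMaxOn ⟨0, by simp⟩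
      hh.1.continuous.norm.continuousOn
    have hbd : ∀ x, ‖h x‖ ≤ ‖h x0‖ := by
      intro x
      obtain ⟨y, hy, hxy⟩ := hh.2.exists_mem_Ico₀ one_pos x
      rw [hxy]
      exact hx0.2 ⟨hy.1, hy.2.le⟩
    have hker : ∀ x u, Phi0 L h g x u ≤ ENNReal.ofReal (‖h x0‖ * B2 + |mass g| * B1) := by
      intro x u
      refine (indicator_le_self _ _ _).trans ?_
      unfold ker
      refine iSup₂_le fun r _ => ?_
      rw [← ofReal_norm]
      refine ENNReal.ofReal_le_ofReal ?_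
      refine (norm_add_le _ _).trans ?_
      rw [norm_mul, norm_mul, Complex.norm_real, Complex.norm_real]
      have hB2' : 0 ≤ B2 := (norm_nonneg _).trans (hB2 0 0)
      gcongr
      · exact hbd x
      · exact hB2 0 u
      · exact le_rfl
      · exact hB1 r x
    refine ne_top_of_le_ne_top (b := ENNReal.ofReal (‖h x0‖ * B2 + |mass g| * B1))
      ENNReal.ofReal_ne_top ?_
    calc ∫⁻ x in Ioc (0:ℝ) 1, ∫⁻ u in Ioc (0:ℝ) 1, Phi0 L h g x u
        ≤ ∫⁻ x in Ioc (0:ℝ) 1, ∫⁻ u in Ioc (0:ℝ) 1,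
            ENNReal.ofReal (‖h x0‖ * B2 + |mass g| * B1) := by
          exact lintegral_mono fun x => lintegral_mono fun u => hker x u
      _ = _ := by simp
  obtain ⟨θ, hθ⟩ := exists_lintegral_le (μ := volume.restrict (Ioc (0:ℝ) 1))
    (f := fun θ => ∫⁻ x in Ioc (0 : ℝ) 1, Phi0 L h g x ((k : ℝ) * x + θ)) hfin
  rw [hav] at hθ
  refine ⟨θ, ?_⟩
  refine le_trans ?_ (hθ.trans (e2 θ))
  rw [← lintegral_const_mul _ (cl.measL L (cx h) (smR_cx hh))]
  exact lintegral_mono fun x => inner_ge cp rf L x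

end RevAux

open RevAux

theorem c_Rev : S_Rev := by
  intro cp cl pr ma avg hg m h hm hC
  obtain ⟨g, rf⟩ := hg
  obtain ⟨hh, h0, hH, hb⟩ := hC
  have gs := rf.sm
  by_cases htop : rr (4 * m) = ⊤
  · rw [htop, ENNReal.mul_top]
    · exact le_top
    · simp [hH]
  obtain ⟨b, hbm, hb'⟩ := bound_attained hh hb
  have hG := rf.mass_ge
  set H := mass h with hHdef
  set G := mass g with hGdef
  have hb0 : 0 ≤ b := (h0 0).trans (hb' 0)
  have hHG : 0 < H * G := mul_pos hH (by linarith)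
  rw [cl.mono _ (smR_cx hh)]
  refine iSup_le fun L => ?_
  set A := ∫⁻ x in Ioc (0:ℝ) 1, CLm L (cx h) x with hA
  have hb3 : b < 4 * m * (H * G) := by
    have h1 : m * H ≤ 3 * G * (m * H) := by
      have : 0 ≤ m * H := by positivity
      nlinarith
    have h2 : 0 < G * (m * H) := by
      have : 0 < m * H := by positivity
      nlinarith
    nlinarith
  have key : ∀ᶠ η in 𝓝[>] (0:ℝ), ENNReal.ofReal (G / 2) * A
      ≤ rr (4 * m) * ENNReal.ofReal (H * G + η) + ENNReal.ofReal η := by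
    have hlim : Tendsto (fun η : ℝ => 4 * m * (H * G - η)) (𝓝[>] 0) (𝓝 (4 * m * (H * G - 0))) := by
      refine Tendsto.mono_left ?_ nhdsWithin_le_nhds
      exact (continuous_const.mul (continuous_const.sub continuous_id)).tendsto 0
    rw [sub_zero] at hlim
    have ev1 := hlim.eventually (lt_mem_nhds hb3)
    filter_upwards [ev1, self_mem_nhdsWithin] with η h1 h2
    have hη : 0 < η := h2
    obtain ⟨k0, hk0⟩ := pt_bound pr hh gs L hη
    obtain ⟨k1, hk1⟩ := ma h g hh gs η hη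
    set k := max k0 k1 with hk
    obtain ⟨θ, hθ⟩ := step cp cl avg hh rf (hk0 k (le_max_left _ _))
    have hmass := hk1 k (le_max_right _ _) θ
    rw [abs_le] at hmass
    set F := tens h g k θ with hF
    have hF1 : H * G - η ≤ mass F := by linarith [hmass.1]
    have hF2 : mass F ≤ H * G + η := by linarith [hmass.2]
    have hpos : 0 < H * G - η := by
      by_contra hcon
      push Not at hcon
      have : 4 * m * (H * G - η) ≤ 0 := mul_nonpos_of_nonneg_of_nonpos (by positivity) hcon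
      linarith
    have hFC : Cls (4 * m) F := by
      refine ⟨tens_smR hh gs k θ, fun x => mul_nonneg (h0 _) (rf.unit _).1, by linarith,
        fun x => ?_⟩
      have h3 : F x ≤ b * 1 := mul_le_mul (hb' _) (rf.unit _).2 (rf.unit _).1 hb0
      have h4 : 4 * m * (H * G - η) ≤ 4 * m * mass F := by gcongr
      linarith
    have hq : (∫⁻ x in zer F, CLm L (cx F) x) / ENNReal.ofReal (mass F) ≤ rr (4 * m) :=
      le_iSup_of_le F (le_iSup_of_le hFC (le_iSup_of_le L le_rfl))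
    have hFpos : 0 < mass F := by linarith
    rw [ENNReal.div_le_iff (by simpa using hFpos) ENNReal.ofReal_ne_top] at hq
    refine hθ.trans ?_
    gcongr
    refine hq.trans ?_
    gcongr
  have lim : Tendsto (fun η : ℝ => rr (4 * m) * ENNReal.ofReal (H * G + η) + ENNReal.ofReal η)
      (𝓝[>] 0) (𝓝 (rr (4 * m) * ENNReal.ofReal (H * G + 0) + ENNReal.ofReal 0)) := by
    refine Tendsto.add ?_ ?_
    · refine ENNReal.Tendsto.const_mul ?_ (Or.inr htop)
      refine ENNReal.tendsto_ofReal ?_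
      refine Tendsto.mono_left ?_ nhdsWithin_le_nhds
      exact (continuous_const.add continuous_id).tendsto 0
    · refine ENNReal.tendsto_ofReal ?_
      exact Tendsto.mono_left (continuous_id.tendsto 0) nhdsWithin_le_nhds
  have fin := ge_of_tendsto lim key
  rw [add_zero, ENNReal.ofReal_zero, add_zero] at fin
  have hG0 : 0 < G := by linarith
  have eG : ENNReal.ofReal (G / 2) ≠ 0 := by simpa using hG0
  have e1 : rr (4 * m) * ENNReal.ofReal (H * G)
      = ENNReal.ofReal (G / 2) * (2 * ENNReal.ofReal H * rr (4 * m)) := by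
    have : H * G = (G / 2) * (2 * H) := by ring
    rw [this, ENNReal.ofReal_mul (by positivity), ENNReal.ofReal_mul (by norm_num)]
    rw [ENNReal.ofReal_ofNat]
    ring
  rw [e1] at fin
  exact (ENNReal.mul_le_mul_iff_right eG ENNReal.ofReal_ne_top).1 fin

end Pool.Agent.MP777
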