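import Pool.Agent.Lib.MP_777af9_an.Defs

/-!
# MP_777af9_an: statements with complete proofs in the docstrings

Every statement is a proposition `S_...`.  The task named `X` proves `theorem c_X : S_X`.
-/

open MeasureTheory Set Filter Topology
open scoped ENNReal

noncomputable section

namespace Pool.Agent.MP777

/-- **Cot**: the truncated integrals of `cot (π t) exp (2 π i m t)`.

Proof. Write `A = {ε < |t| ≤ 1/2}` and `ee m t = cos (2 π m t) + i sin (2 π m t)`.  On `A` the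
function `cot (π t)` is bounded by `cot (π ε)`, so everything is integrable.  The function
`cot (π t) cos (2 π m t)` is odd and `A` is symmetric, so this part of the integral is `0`.
Let `D_m t = cot (π t) sin (2 π m t)`; it is even in `t` and odd in `m`, so take `m ≥ 0`.  For
`sin (π t) ≠ 0` one has `D_{m+1} t - D_m t = cot (π t) * 2 cos (π (2 m + 1) t) sin (π t)
= 2 cos (π t) cos (π (2 m + 1) t) = cos (2 π m t) + cos (2 π (m+1) t)`, hence
`D_m t = ∑_{l < m} (cos (2 π l t) + cos (2 π (l+1) t))` for `0 < |t| ≤ 1/2`.  So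
`|D_m t| ≤ 2 m` and `∫_{-1/2}^{1/2} D_m = 1` for `m ≥ 1` (only `l = 0` contributes, with `1`)
and `0` for `m = 0`.  Therefore `∫_A D_m = sign m - ∫_{|t| ≤ ε} D_m` and the last integral is
at most `2 |m| * 2 ε` in absolute value. -/
def S_Cot : Prop :=
  ∀ (m : ℤ) (ε : ℝ), 0 < ε → ε < 1 / 2 →
    ‖(∫ t in {t : ℝ | ε < |t| ∧ |t| ≤ 1 / 2}, ((Real.cot (Real.pi * t) : ℝ) : ℂ) * ee m t)
      - Complex.I * ((Int.sign m : ℤ) : ℂ)‖ ≤ 4 * |(m : ℝ)| * ε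

/-- **Four**: Fourier series of a smooth function, with a weight.

Proof. For smooth `f` of period one, `deriv f` is again smooth of period one and integration
by parts gives `co (deriv f) n = 2 π i n * co f n`.  Three times: `‖co f n‖ ≤ M / (2 π |n|)^3`
for `n ≠ 0`, with `M` a bound of the third derivative on `[0,1]`.  Hence
`(1 + |n|) ‖co f n‖ ≤ C / n^2` for `n ≠ 0`: summable.  For the pointwise sum: lift `f` to a
continuous function on `AddCircle (1 : ℝ)` (`Function.Periodic.lift`), its `fourierCoeff` is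
`co f n` (`fourierCoeff_eq_intervalIntegral`, `fourier_coe_apply`), and use
`has_pointwise_sum_fourier_series_of_summable`. -/
def S_Four : Prop :=
  ∀ f : ℝ → ℂ, Sm f →
    Summable (fun n : ℤ => (1 + |(n : ℝ)|) * ‖co f n‖) ∧
    ∀ x : ℝ, HasSum (fun n : ℤ => co f n * ee n x) (f x)

/-- **Mult**: the multiplier formula for absolutely convergent exponential sums.

Proof. Fix `0 < ε < 1/2`, `A = {ε < |t| ≤ 1/2}`.  Since
`ee j t * ee (ν a) (x - t) = ee (ν a) x * ee (j - ν a) t`,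
`cot (π t) ee j t F (x - t) = ∑ a, c a * ee (ν a) x * (cot (π t) ee (j - ν a) t)`; on `A` the
`a`-th term is bounded by `‖c a‖ cot (π ε)`, so sum and integral may be exchanged
(`hasSum_integral_of_summable_integral_norm`):
`trunc j F x ε = ∑ a, c a * ee (ν a) x * J (j - ν a)`, `J m = ∫_A cot (π t) ee m t`.  By `S_Cot`
`‖J m - I sign m‖ ≤ 4 |m| ε`, so the distance of `trunc j F x ε` to
`I * ∑ c a * sign (j - ν a) * ee (ν a) x` is at most
`4 ε ∑ ‖c a‖ |j - ν a| ≤ 4 ε (1 + |j|) ∑ (1 + |ν a|) ‖c a‖`, which tends to zero. -/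
def S_Mult : Prop :=
  S_Cot → ∀ (ι : Type) [Countable ι] (c : ι → ℂ) (ν : ι → ℤ) (F : ℝ → ℂ),
    Summable (fun a => (1 + |(ν a : ℝ)|) * ‖c a‖) →
    (∀ x : ℝ, HasSum (fun a => c a * ee (ν a) x) (F x)) →
    ∀ (j : ℤ) (x : ℝ),
      Tendsto (trunc j F x) (𝓝[>] 0)
        (𝓝 (Complex.I * ∑' a, c a * ((Int.sign (j - ν a) : ℤ) : ℂ) * ee (ν a) x))

/-- The conclusion of `S_Mult` for `CN` (immediate from `Filter.Tendsto.limUnder_eq`); this is
the form used in the later statements. -/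
def MultCN : Prop :=
  ∀ (ι : Type) [Countable ι] (c : ι → ℂ) (ν : ι → ℤ) (F : ℝ → ℂ),
    Summable (fun a => (1 + |(ν a : ℝ)|) * ‖c a‖) →
    (∀ x : ℝ, HasSum (fun a => c a * ee (ν a) x) (F x)) →
    ∀ (j : ℤ) (x : ℝ),
      CN j F x = Complex.I * ∑' a, c a * ((Int.sign (j - ν a) : ℤ) : ℂ) * ee (ν a) x

/-- Basic properties of `CN` on smooth functions. -/
structure CNprops : Prop where
  cont : ∀ (N : ℤ) (f : ℝ → ℂ), Sm f → Continuous (CN N f)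
  per : ∀ (N : ℤ) (f : ℝ → ℂ), Sm f → Function.Periodic (CN N f) 1
  add : ∀ (N : ℤ) (f g : ℝ → ℂ), Sm f → Sm g → ∀ x, CN N (fun y => f y + g y) x = CN N f x + CN N g x
  smul : ∀ (N : ℤ) (f : ℝ → ℂ) (c : ℂ), Sm f → ∀ x, CN N (fun y => c * f y) x = c * CN N f x
  bdd : ∀ (f : ℝ → ℂ), Sm f → ∃ B : ℝ, ∀ (N : ℤ) (x : ℝ), ‖CN N f x‖ ≤ B
  shift : ∀ (N : ℤ) (f : ℝ → ℂ) (θ x : ℝ), CN N (fun y => f (y + θ)) x = CN N f (x + θ)

/-- **CNb**: basic properties of `CN`.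

Proof. By `S_Four` and `MultCN` (with index type `ℤ`, `ν = id`)
`CN N f x = I * ∑' n, co f n * sign (N - n) * ee n x` for smooth `f`, an absolutely convergent
series of continuous functions of period one with bound `‖co f n‖` (`continuous_tsum`): `cont`,
`per`, `bdd` with `B = ∑' ‖co f n‖`.  `add` and `smul`: `co` is linear on continuous functions
and the sums are summable.  `shift` holds for all `f` without any hypothesis:
`trunc N (fun y => f (y + θ)) x = trunc N f (x + θ)` by unfolding (`x - t + θ = x + θ - t`). -/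
def S_CNb : Prop := S_Four → MultCN → CNprops

/-- Sublinearity of `CL1` on smooth functions. -/
structure CLprops : Prop where
  meas : ∀ f : ℝ → ℂ, Sm f → Measurable (Cf f)
  measL : ∀ (L : ℕ) (f : ℝ → ℂ), Sm f → Measurable (CLm L f)
  add : ∀ f g : ℝ → ℂ, Sm f → Sm g → CL1 (fun y => f y + g y) ≤ CL1 f + CL1 g
  smul : ∀ (f : ℝ → ℂ) (c : ℂ), Sm f → CL1 (fun y => c * f y) = ‖c‖ₑ * CL1 f
  mono : ∀ f : ℝ → ℂ, Sm f → CL1 f = ⨆ L : ℕ, ∫⁻ x in Ioc (0 : ℝ) 1, CLm L f x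

/-- **Sub**: sublinearity and measurability.

Proof. `Cf f` is a countable supremum of the continuous functions `‖CN N f x‖ₑ`.  Pointwise
`Cf (f + g) ≤ Cf f + Cf g` (`enorm_add_le`, `iSup₂_le`), then `lintegral_mono` and
`lintegral_add_left`.  `Cf (c f) = ‖c‖ₑ Cf f` (`enorm_mul`, `ENNReal.mul_iSup`), then
`lintegral_const_mul`.  `mono`: `CLm L f` increases with `L` and its supremum is `Cf f`;
`lintegral_iSup`. -/
def S_Sub : Prop := CNprops → CLprops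

/-- Quasi-concavity of `aa`. -/
structure QC : Prop where
  mono : ∀ s u : ℝ, s ≤ u → aa s ≤ aa u
  star : ∀ s u : ℝ, 0 < s → s ≤ u → ENNReal.ofReal (s / u) * aa u ≤ aa s
  zero : aa 0 = 0

/-- **QC**: quasi-concavity of `aa`.

Proof. `mono`: `Unit1 s h → Unit1 u h`.  `star`: let `Unit1 u h`, `r = s / u ∈ (0, 1]`; then
`Unit1 s (r h)` and `CL1 (cx (r h)) = ofReal r * CL1 (cx h)` by `CLprops.smul`; take the
supremum over `h` (`ENNReal.mul_iSup`).  `zero`: if `Unit1 0 h` then `h` is continuous, `≥ 0`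
and has integral `≤ 0` over a period, so `h = 0`, `cx h = fun y => 0 * cx h y` and
`CL1 (cx h) = 0`. -/
def S_QC : Prop := CLprops → QC

/-- The bound for one layer. -/
def ClaimA : Prop :=
  ∀ (u : ℝ → ℂ) (ζ : ℝ → ℝ) (b : ℝ), Sm u → SmR ζ → 0 < b → (∀ x, 0 ≤ ζ x ∧ ζ x ≤ 1) →
    (∀ x, u x ≠ 0 → ζ x = 1) → (∀ x, ‖u x‖ ≤ b) →
    CL1 u ≤ 6 * ENNReal.ofReal b * aa (volume {x ∈ Ioc (0 : ℝ) 1 | ζ x ≠ 0}).toReal

/-- **DecA**: the bound for one layer.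

Proof. Let `s = |{x ∈ (0,1] : ζ x ≠ 0}|`.  `u = Re u + i Im u` (both real functions are smooth of
period one), `Re u = (Re u + b ζ) - b ζ`, and `(Re u + b ζ)/(2 b)` and `ζ` are smooth, between `0`
and `1` (`|Re u| ≤ b ζ` everywhere), and vanish where `ζ = 0`, so their masses are `≤ s`; so
`CL1 (Re u) ≤ 2 b aa s + b aa s` by `CLprops.add`, `CLprops.smul`; the same for `Im u`. -/
def S_DecA : Prop := CLprops → ClaimA

/-- **Dec**: smooth layer decomposition.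

Proof. Let `f` be smooth, `q x = ‖f x‖^2` (smooth), `σ s = Real.smoothTransition ((4 s - 1)/3)`:
smooth, values in `[0,1]`, `σ = 0` iff `s ≤ 1/4`, `σ = 1` for `s ≥ 1`.  For `λ > 0` put
`T_λ x = σ (q x / λ^2)`: it is `1` where `‖f‖ ≥ λ` and `0` where `‖f‖ ≤ λ/2`.
(b) For `j : ℤ` let `f_j = f (T_{2^j} - T_{2^(j+1)})`.  Where `‖f‖ ≥ 2^(j+1)` both factors are `1`
and `f_j = 0`; so `‖f_j‖ ≤ 2^(j+1)`; and `f_j ≠ 0` only where `‖f‖ > 2^(j-1)`.  With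
`ζ_j = T_{2^(j-1)}` (equal to `1` where `‖f‖ ≥ 2^(j-1)`, nonzero only where `‖f‖ > 2^(j-2)`)
`ClaimA` gives `CL1 f_j ≤ 12 * 2^j * aa (dfn f (2^(j-2)))`.  For `l < 2^(j-2)`,
`dfn f l ≥ dfn f (2^(j-2))`, so
`2^j aa (dfn f (2^(j-2))) ≤ 8 ∫_{2^(j-3)}^{2^(j-2)} aa (dfn f l) dl`.  So
`CL1 f_j ≤ 96 ∫_{(2^(j-3), 2^(j-2)]} aa (dfn f l) dl`.
(c) Choose `K` with `‖f‖ ≤ 2^(K-1)`; then `T_{2^K} = 0` and for every `J < K`
`f = f (1 - T_{2^J}) + ∑_{J ≤ j < K} f_j`.  The first function is bounded by `2^J`; `ClaimA` with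
`ζ = 1` bounds its `CL1` by `6 * 2^J * aa 1`.  The intervals in (b) are disjoint, so
`CL1 f ≤ 6 * 2^J * aa 1 + 96 ∫_0^∞ aa (dfn f l) dl`.
(d) If `aa 1 < ∞` let `J → -∞`.  If `aa 1 = ∞` then by `QC.star` (with `u = 1`) `aa s = ∞` for all
`s ∈ (0,1]`; if `f` is not zero then `dfn f l > 0` for all small `l > 0` (continuity), so the
right side is `∞`; if `f = 0` then `CL1 f = 0` by `CLprops.smul` with `c = 0`. -/
def S_Dec : Prop :=
  CLprops → QC → ClaimA → ∀ f : ℝ → ℂ, Sm f →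
    CL1 f ≤ 96 * ∫⁻ l in Ioi (0 : ℝ), aa (dfn f l)

/-- **Jen**: Jensen inequality for the Lorentz norm.

Proof. Let `s = mass h ∈ [0,1]`, `d l = dfn (cx h) l` (note `‖cx h x‖ = h x`).  `d l = 0` for
`l ≥ 1`, so `lor φ (cx h) = ∫⁻ l in (0,1), ofReal (φ (d l))`, and `∫_0^1 d = s` by the layer cake
formula (`Integrable.integral_eq_integral_meas_lt`).  There is `p` with
`φ t ≤ φ s + p (t - s)` for all `t ∈ [0,1]`, provided `s > 0`: if `s = 1` take `p = 0`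
(monotone); if `0 < s < 1` take `p` = infimum of the slopes `(φ s - φ t)/(s - t)`, `t ∈ [0,s)`
(concavity).  So `∫_0^1 φ (d l) dl ≤ φ s + p (s - s) = φ s` (`φ (d l) ≥ 0` and monotone in `l`,
bounded by `φ 1`, so integrable).  If `s = 0` then `h = 0` and both sides are `0`. -/
def S_Jen : Prop :=
  ∀ φ : ℝ → ℝ, LorFun φ → ∀ h : ℝ → ℝ, SmR h → (∀ x, 0 ≤ h x ∧ h x ≤ 1) →
    lor φ (cx h) ≤ ENNReal.ofReal (φ (mass h))

/-- Characterisation of strong admissibility by `aa`. -/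
def CharAdm : Prop :=
  ∀ φ : ℝ → ℝ, LorFun φ →
    (Adm φ ↔ ∃ c : ℝ, 0 < c ∧ ∀ s ∈ Ioc (0 : ℝ) 1, aa s ≤ ENNReal.ofReal (c * φ s))

/-- **Char**.

Proof. (→) With the constant `c` of `Adm`: for `Unit1 s h`, `s ∈ (0,1]`, `S_Jen` gives
`CL1 (cx h) ≤ ofReal c * ofReal (φ (mass h)) ≤ ofReal (c φ s)` (`0 ≤ mass h ≤ s ≤ 1`, monotone).
(←) By `S_Dec`, `CL1 f ≤ 96 ∫⁻ aa (dfn f l) ≤ 96 ∫⁻ ofReal (c φ (dfn f l)) = ofReal (96 c) lor φ f`,
since `dfn f l ∈ [0,1]` and for `dfn f l = 0` use `QC.zero`. -/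
def S_Char : Prop := QC → S_Jen → (∀ f : ℝ → ℂ, Sm f →
    CL1 f ≤ 96 * ∫⁻ l in Ioi (0 : ℝ), aa (dfn f l)) → CharAdm

/-- **Max**: there is a largest strongly admissible Lorentz function if there is one at all.

Proof. Let `φ₀` be admissible; `CharAdm` gives `aa u < ∞` for `u ∈ (0,1]`; put
`α u = (aa u).toReal`.  By `QC`, `α s ≤ α u` for `s ≤ u` and `α u ≤ (u/s) α s` for `0 < s ≤ u ≤ 1`.
Put `φ t = 0` for `t ≤ 0` and `φ t = inf_{u ∈ (0,1]} (1 + t/u) α u` for `t > 0` (all terms are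
`≥ 0`).  For `t ∈ (0,1]`: `α t ≤ φ t` (if `u ≥ t`: `α t ≤ α u`; if `u < t`: `α t ≤ (t/u) α u`) and
`φ t ≤ 2 α t` (take `u = t`).  An infimum of affine nondecreasing functions which are bounded
below is concave and nondecreasing on `(0,1]`, and lowering the value at the end point `0` to
`0` keeps concavity and monotonicity on `[0,1]`: `LorFun φ`.  `Adm φ` by `CharAdm` with `c = 1`
(`aa s = ofReal (α s)`).  If `φ'` is admissible, `CharAdm` gives `α t ≤ c φ' t` on `(0,1]`, so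
`φ t ≤ 2 c φ' t`, also at `t = 0`. -/
def S_Max : Prop := QC → CharAdm → (∃ φ : ℝ → ℝ, LorFun φ ∧ Adm φ) →
  ∃ φ : ℝ → ℝ, LorFun φ ∧ Adm φ ∧ ∀ φ' : ℝ → ℝ, LorFun φ' → Adm φ' →
    ∃ c : ℝ, 0 < c ∧ ∀ t ∈ Icc (0 : ℝ) 1, φ t ≤ c * φ' t

/-- **Cont** (part 1): domination of functions gives inclusion of spaces (`dfn f l ∈ [0,1]`, so
`lor φ f ≤ ofReal c * lor φ' f`). -/
def S_Cont : Prop := ∀ (φ φ' : ℝ → ℝ) (c : ℝ), 0 < c →
  (∀ t ∈ Icc (0 : ℝ) 1, φ t ≤ c * φ' t) → Contained φ' φ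

/-- **Stj** (part 2 of the same task): the layer cake norm is the integral of the decreasing
rearrangement against the Lebesgue-Stieltjes measure of `φ` (the measure with
`μ [0,t) = φ t`, which has an atom `φ(0+)` at `0`).

Proof. `dfn f` is antitone.  For `s ≥ 0`, `rea f s = ∫⁻ l in Ioi 0, indicator {l : s < dfn f l}`:
if `0 < l < rea f s` then `s < dfn f l` (otherwise `l` is in the set of the infimum), and if
`l > rea f s` then there is `l' < l` in that set, so `dfn f l ≤ dfn f l' ≤ s`; so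
`{l > 0 : s < dfn f l}` is the interval `(0, rea f s)` up to an end point.  By Tonelli
(`μ.restrict (Ico 0 1)` is finite; `{(s,l) : s < dfn f l}` is measurable)
`∫⁻ s in Ico 0 1, rea f s ∂μ = ∫⁻ l in Ioi 0, μ (Ico 0 1 ∩ {s : s < dfn f l}) =
∫⁻ l in Ioi 0, μ (Ico 0 (dfn f l)) = ∫⁻ l in Ioi 0, ofReal (φ (dfn f l))`
(`0 ≤ dfn f l ≤ 1`; both are `0` when `dfn f l = 0`). -/
def S_Stj : Prop := ∀ (φ : ℝ → ℝ) (f : ℝ → ℂ) (μ : Measure ℝ), LorFun φ →
  (∀ t ∈ Ioc (0 : ℝ) 1, μ (Ico 0 t) = ENNReal.ofReal (φ t)) →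
  lor φ f = ∫⁻ s in Ico (0 : ℝ) 1, rea f s ∂μ

/-- Asymptotics of `CN` on tensor products. -/
def ProdAs : Prop :=
  ∀ h g : ℝ → ℝ, SmR h → SmR g → ∀ (N r : ℤ) (η : ℝ), 0 < η →
    ∃ k0 : ℕ, ∀ k : ℕ, k0 ≤ k → ∀ θ x : ℝ,
      ‖CN ((k : ℤ) * N + r) (cx (tens h g k θ)) x
        - ((h x : ℂ) * CN N (cx g) ((k : ℝ) * x + θ)
            + co (cx g) N * ee N ((k : ℝ) * x + θ) * CN r (cx h) x)‖ ≤ η

/-- **Prod**.

Proof. Let `ĝ m = co (cx g) m`, `ĥ n = co (cx h) n`; by `S_Four` both series converge absolutely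
with weights.  `tens h g k θ x = ∑_{(m,n)} c_{m,n} ee (n + k m) x`, `c_{m,n} = ĝ m * ee m θ * ĥ n`
(`g (k x + θ) = ∑ ĝ m ee m (k x + θ)` and `ee m (k x + θ) = ee m θ * ee (k m) x`), and
`(1 + |n + k m|) ‖c_{m,n}‖ ≤ (1 + k) (1 + |m|) ‖ĝ m‖ (1 + |n|) ‖ĥ n‖` is summable over `ℤ × ℤ`.
`MultCN` with index type `ℤ × ℤ`:
`CN (k N + r) (cx (tens h g k θ)) x = I ∑ c_{m,n} sign (k (N - m) + r - n) ee (n + k m) x`.
In the same way (products of absolutely convergent series)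
`h x * CN N (cx g) (k x + θ) = I ∑_{(m,n)} c_{m,n} sign (N - m) ee (n + k m) x` and
`ĝ N * ee N (k x + θ) * CN r (cx h) x = I ∑_n c_{N,n} sign (r - n) ee (n + k N) x`.
For `m = N` the terms agree exactly (`sign 0 = 0`).  For `m ≠ N`:
`|sign (k (N - m) + r - n) - sign (N - m)| ≤ 2` and it is `0` unless `|r - n| ≥ k |N - m| ≥ k`,
which forces `|n| ≥ k - |r|`.  So the distance is at most
`2 (∑ ‖ĝ m‖) ∑_{|n| ≥ k - |r|} ‖ĥ n‖`, which tends to `0` as `k → ∞`, uniformly in `θ, x`. -/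
def S_Prod : Prop := S_Four → MultCN → ProdAs

/-- Large frequencies: `CN R h + CN (-R) h` tends to `0` uniformly. -/
def PM : Prop :=
  ∀ h : ℝ → ℝ, SmR h → ∀ η : ℝ, 0 < η → ∃ R0 : ℕ, ∀ R : ℕ, R0 ≤ R → ∀ x : ℝ,
    ‖CN (R : ℤ) (cx h) x + CN (-(R : ℤ)) (cx h) x‖ ≤ η

/-- Mass of tensor products. -/
def MassAs : Prop :=
  ∀ h g : ℝ → ℝ, SmR h → SmR g → ∀ η : ℝ, 0 < η → ∃ k0 : ℕ, ∀ k : ℕ, k0 ≤ k → ∀ θ : ℝ,
    |mass (tens h g k θ) - mass h * mass g| ≤ η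

/-- **PM** (one task with `MassAs`).

Proof. `CN R h x + CN (-R) h x = I ∑ ĥ n (sign (R - n) + sign (-R - n)) ee n x`; the bracket is
`0` for `|n| < R` and at most `2` in absolute value, so the norm is at most
`2 ∑_{|n| ≥ R} ‖ĥ n‖ → 0`.
`MassAs`: `mass (tens h g k θ) = ∑_m ĝ m ee m θ ∫_0^1 h x ee (k m) x dx = ∑_m ĝ m ee m θ ĥ (-k m)`
(exchange by absolute convergence); the term `m = 0` is `mass g * mass h` and the rest is at
most `(∑ ‖ĝ m‖) * sup_{|n| ≥ k} ‖ĥ n‖ → 0`. -/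
def S_PM : Prop := S_Four → MultCN → PM ∧ MassAs

/-- **Avg**: averaging over the phase `θ`.

Proof. Tonelli, and for fixed `x` the function `u ↦ Φ x u` has period one, so
`∫⁻ θ in Ioc 0 1, Φ x (k x + θ) = ∫⁻ u in Ioc 0 1, Φ x u` (translation and periodicity, for
instance through `isAddFundamentalDomain_Ioc`). -/
def S_Avg : Prop :=
  ∀ Φ : ℝ → ℝ → ℝ≥0∞, Measurable (Function.uncurry Φ) → (∀ x, Function.Periodic (Φ x) 1) →
    ∀ k : ℕ, ∫⁻ θ in Ioc (0 : ℝ) 1, ∫⁻ x in Ioc (0 : ℝ) 1, Φ x ((k : ℝ) * x + θ)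
      = ∫⁻ x in Ioc (0 : ℝ) 1, ∫⁻ u in Ioc (0 : ℝ) 1, Φ x u

/-- Superadditivity of `rr`. -/
def SupAdd : Prop := ∀ m n : ℝ, 1 < m → 1 < n → rr m + rr n ≤ rr (m * n)

/-- Pointwise lower bounds on the zero set of a tensor product. -/
def PtSup : Prop :=
  ∀ (h g : ℝ → ℝ) (L : ℕ) (η : ℝ), SmR h → SmR g → (∀ x, 0 ≤ h x) → (∀ x, 0 ≤ g x) → 0 < η →
    ∃ R k0 : ℕ, ∀ k : ℕ, k0 ≤ k → ∀ θ x : ℝ,
      (h x = 0 → ENNReal.ofReal (mass g) * CLm L (cx h) x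
        ≤ CLm (k * L + R) (cx (tens h g k θ)) x + ENNReal.ofReal η) ∧
      (g ((k : ℝ) * x + θ) = 0 → ENNReal.ofReal (h x) * CLm L (cx g) ((k : ℝ) * x + θ)
        ≤ CLm (k * L + R) (cx (tens h g k θ)) x + ENNReal.ofReal η)

/-- **PtS**.

Proof. Let `G = mass g`, `η' = η / (G + 1)`.  Choose `R` by `PM` for `h` and `η'`; then `k0 > R` so
large that `ProdAs` holds with error `η'` for all pairs `(N, r) = (0, r)`, `1 ≤ r ≤ L`, and
`(N, R), (N, -R)`, `1 ≤ N ≤ L` (finitely many).  Let `k ≥ k0`, `F = tens h g k θ`, `L' = k L + R`.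
(1) If `h x = 0`: `ProdAs` with `N = 0` gives `‖CN r F x - G * CN r h x‖ ≤ η'` for `1 ≤ r ≤ L`
(`co (cx g) 0 = G`, `ee 0 = 1`), and `r ≤ L ≤ L'` (if `L = 0` there is nothing to show).
(2) If `g (k x + θ) = 0` and `1 ≤ N ≤ L`: adding `ProdAs` for `(N, R)` and `(N, -R)` and using `PM`
and `‖co (cx g) N‖ ≤ G`:
`‖CN (k N + R) F x + CN (k N - R) F x‖ ≥ 2 h x ‖CN N g (k x + θ)‖ - G η' - 2 η'`, and both
frequencies are integers between `1` and `L'`; so one of the two norms is at least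
`h x ‖CN N g (k x + θ)‖ - (G/2 + 1) η'`. -/
def S_PtS : Prop := ProdAs → PM → PtSup

/-- **Sup**.

Proof. It is enough to show `A/H + B/G ≤ rr (m n)` for `Cls m h`, `Cls n g`, `L : ℕ` (`CLm` is
monotone in `L`, so one common `L` suffices), where `H = mass h`, `G = mass g`,
`A = ∫⁻ x in zer h, CLm L (cx h) x`, `B = ∫⁻ x in zer g, CLm L (cx g) x` (both finite by
`CNprops.bdd`).  Let `η > 0`, `R` and `k` (large) from `PtSup`, and `k` also so large that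
`|mass (tens h g k θ) - H G| ≤ η` for all `θ`.  Let `θ` be arbitrary, `F = tens h g k θ`,
`L' = k L + R`.  `zer F` is the union of `zer h` and `{x ∈ (0,1] : h x ≠ 0, g (k x + θ) = 0}`.
Integrate the two inequalities of `PtSup` over these two sets:
`∫⁻_{zer F} CLm L' F + η ≥ G A + ∫⁻ x in Ioc 0 1, h x * 1[g (k x + θ) = 0] * CLm L g (k x + θ)`
(where `h x = 0` the last integrand is `0`).  By `S_Avg` the average over `θ ∈ (0,1]` of the last
integral is `H B` (`CNprops.cont`, `CNprops.per` for measurability and periodicity), so for some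
`θ` it is at least `H B` (`exists_lintegral_le`).  Fix this `θ`.
`mass F ≤ H G + η`.  `Cls (m n) F`: there are `m' < m`, `n' < n` with `h ≤ m' H`, `g ≤ n' G`
(continuous periodic functions attain their supremum), so `F ≤ m' n' H G < m n mass F` if `η` is
small, because `mass F ≥ H G - η`.  So `rr (m n) ≥ (G A + H B - η)/(H G + η)`; let `η → 0`. -/
def S_Sup : Prop := CNprops → CLprops → PtSup → MassAs → S_Avg → SupAdd

/-- Reverse inequality. -/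
def RevIneq : Prop :=
  ∀ (m : ℝ) (h : ℝ → ℝ), 0 < m → Cls m h → CL1 (cx h) ≤ 2 * ENNReal.ofReal (mass h) * rr (4 * m)

/-- The auxiliary function for the reverse inequality. -/
structure RevFun (g : ℝ → ℝ) : Prop where
  sm : SmR g
  unit : ∀ x, 0 ≤ g x ∧ g x ≤ 1
  mass_ge : 1 / 3 ≤ mass g
  vol : volume (zer g) = ENNReal.ofReal (1 / 2)
  odd : ∫ u in zer g, CN 0 (cx g) u = 0

/-- **RevG**.

Proof. `g u = Real.smoothTransition (2 cos (2 π u))`: smooth, period one, `0 ≤ g ≤ 1`, even,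
`g u = 0` iff `cos (2 π u) ≤ 0`, `g u = 1` if `cos (2 π u) ≥ 1/2`; on `(0,1]` the set `zer g` is
`[1/4, 3/4]`, and `g = 1` on `(0,1/6]` and `[5/6,1]`, so `mass g ≥ 1/3`.  `CN 0 (cx g)` is odd:
`trunc 0 (cx g) (-u) ε = - trunc 0 (cx g) u ε` (`g` even, `cot` odd, substitute `t ↦ -t`), and it
has period one, so it is antisymmetric under `u ↦ 1 - u`, which preserves `[1/4, 3/4]`; so the
integral over `zer g` vanishes. -/
def S_RevG : Prop := CNprops → ∃ g : ℝ → ℝ, RevFun g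

/-- **Rev**.

Proof. Let `g` be as in `RevFun`, `G = mass g`.  Let `Cls m h`, `H = mass h`, `L : ℕ`, `η > 0`
small, `k` large (`ProdAs` for `(N, r) = (0, r)`, `1 ≤ r ≤ L`, and `MassAs`), `F = tens h g k θ`.
If `g (k x + θ) = 0` then `F x = 0` and
`‖CN r F x‖ ≥ ‖h x * CN 0 g (k x + θ) + G * CN r h x‖ - η`.  So
`∫⁻_{zer F} CLm L F + η ≥ ∫⁻ x in Ioc 0 1, 1[g (k x + θ) = 0] *
sup_{1 ≤ r ≤ L} ‖h x * CN 0 g (k x + θ) + G * CN r h x‖`; by `S_Avg` the average over `θ` of the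
right side is `∫⁻ x ∫⁻ u in zer g, sup_r ‖h x * CN 0 g u + G * CN r h x‖`, at least
`∫⁻ x, sup_r ‖∫ u in zer g, (h x * CN 0 g u + G * CN r h x)‖ = (G/2) ∫⁻ x, CLm L h x`.
So for some `θ` the left side is at least `(G/2) ∫⁻ CLm L h`.  `Cls (4 m) F` for small `η`:
`h ≤ m' H` with `m' < m`, `F ≤ m' H ≤ 3 G m' H < 4 m mass F` since `mass F ≥ H G - η`.  Hence
`rr (4 m) ≥ ((G/2) ∫⁻ CLm L h - η)/(H G + η)`; `η → 0` gives `∫⁻ CLm L h ≤ 2 H rr (4 m)`; let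
`L → ∞` (`CLprops.mono`). -/
def S_Rev : Prop :=
  CNprops → CLprops → ProdAs → MassAs → S_Avg → (∃ g : ℝ → ℝ, RevFun g) → RevIneq

/-- **Pos**: `rr 2 > 0`.

Proof. Let `h u = Real.smoothTransition (2 cos (2 π u) + 1)`: smooth, `0 ≤ h ≤ 1`, `h = 0` iff
`cos (2 π u) ≤ -1/2`, `h = 1` iff `cos (2 π u) ≥ 0`, so `mass h > 1/2` and `Cls 2 h`; and `h = 0`
on `U = (1/3, 2/3)`.  If `rr 2 = 0` then `∫⁻_{zer h} ‖CN N h‖ₑ = 0` for all `N ≥ 1`, so by
continuity `CN N h = 0` on `U` for all `N ≥ 1`.  By the multiplier formula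
`CN (N+1) h x - CN N h x = I (ĥ N * ee N x + ĥ (N+1) * ee (N+1) x)` (the difference of the signs
is `1` for `n = N, N+1` and `0` otherwise).  So `ĥ N + ĥ (N+1) * ee 1 x = 0` for all `x ∈ U`,
hence `ĥ N = ĥ (N+1) = 0` for all `N ≥ 1`.  Since `h` is real `ĥ (-n)` is the conjugate of
`ĥ n`, so `h` is constant, equal to `0` because of `U`: contradiction to `mass h > 1/2`. -/
def S_Pos : Prop := S_Four → MultCN → CNprops → 0 < rr 2

/-- Comparison of `rr` and `aa`. -/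
structure Comp : Prop where
  up : ∀ m : ℝ, 1 < m → rr m ≤ ENNReal.ofReal m * aa (1 / m)
  low : ∀ (s : ℝ) (h : ℝ → ℝ), s ≤ 1 → Unit1 s h → 0 < mass h →
    CL1 (cx h) ≤ 2 * ENNReal.ofReal (mass h) * rr (8 / mass h)

/-- **Comp**.

Proof. `up`: let `Cls m h`, `H = mass h`, `b = max h` (`0 < b < m H`, attained), `h' = h / b`,
`u = H / b ∈ (1/m, 1]`; `Unit1 u h'`.  `∫⁻_{zer h} CLm L (cx h) ≤ CL1 (cx h) = ofReal b * CL1 (cx h')
≤ ofReal b * aa u`, and by `QC.star` `ofReal ((1/m)/u) * aa u ≤ aa (1/m)`.  So the quotient by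
`H = b u` is at most `aa u / u ≤ m aa (1/m)`.
`low`: with `τ = mass h ∈ (0, s]`, `h ≤ 1 < 2 = (2/τ) τ`, so `Cls (2/τ) h`; use `RevIneq` with
`m = 2/τ`. -/
def S_Comp : Prop := CLprops → QC → RevIneq → Comp

/-- **Fek** (pure real analysis): consequences of superadditivity.

Proof. (1) `ρ` is nondecreasing on `(1, ∞)`: `ρ m' ≥ ρ m + ρ (m'/m)`.  (2) for `m > 1`, `k ≥ 1`:
`k * ρ m ≤ ρ (m^k)` by induction; so for `M ≥ m` and `k = ⌊log M / log m⌋ ≥ 1`,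
`k * ρ m ≤ ρ M`.  First claim: if `∃ᶠ M in atTop, ρ M ≤ ofReal (K (1 + log M))`, then for `m > 1`,
`ρ m ≤ ofReal (K (1 + log M)) / k` with `k ≥ log M / log m - 1`, along a sequence `M → ∞`, and
`(1 + log M)/k → log m`; so `ρ m ≤ ofReal (K log m)`.  Second claim: if `0 < ρ 2` let
`c = min (ρ 2) 1` as a real number; for `M ≥ 2`, `⌊log M / log 2⌋ ≥ (1/2) log M / log 2`, so
`ρ M ≥ ofReal ((c/2) log M)` (as `log 2 < 1`). -/
def S_Fek : Prop :=
  ∀ ρ : ℝ → ℝ≥0∞, (∀ m n : ℝ, 1 < m → 1 < n → ρ m + ρ n ≤ ρ (m * n)) →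
    (∀ K : ℝ, 0 < K → (∃ᶠ M : ℝ in atTop, ρ M ≤ ENNReal.ofReal (K * (1 + Real.log M))) →
      ∀ m : ℝ, 1 < m → ρ m ≤ ENNReal.ofReal (K * Real.log m)) ∧
    (0 < ρ 2 → ∃ c : ℝ, 0 < c ∧ ∀ M : ℝ, 2 ≤ M → ENNReal.ofReal (c * Real.log M) ≤ ρ M)

/-- **Phi**: `phi1` defines a Lorentz space, and two elementary inequalities.

Proof. On `(0, ∞)`, `phi1 t = t (1 - log t)` has derivative `-log t`, which is `≥ 0` on `(0,1]`
and decreasing; `phi1` is continuous at `0` with value `0` (`Real.continuous_mul_log`; or use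
`Real.concaveOn_negMulLog`).  Second: `t ↦ t log (8/t)` is nondecreasing on `(0, 1]`
(derivative `log (8/t) - 1 > 0`), and `log 8 ≥ 1`, `log 8 ≤ 5/2`, so for `0 < t ≤ s ≤ 1`
`t log (8/t) ≤ s (log 8 - log s) ≤ (5/2) s (1 - log s) = (5/2) phi1 s`. -/
def S_Phi : Prop :=
  LorFun phi1 ∧ ∀ t s : ℝ, 0 < t → t ≤ s → s ≤ 1 → t * Real.log (8 / t) ≤ 5 / 2 * phi1 s

/-- The bound `rr m ≤ K log m` for all `m > 1`. -/
def LogB (K : ℝ) : Prop := ∀ m : ℝ, 1 < m → rr m ≤ ENNReal.ofReal (K * Real.log m)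

/-- **Back**: a logarithmic bound for `rr` gives that `L log L` is strongly admissible.

Proof. Let `s ∈ (0,1]` and `Unit1 s h`.  If `mass h = 0` then `Unit1 0 h` and
`CL1 (cx h) ≤ aa 0 = 0`.  Otherwise `τ = mass h ∈ (0, s]` and by `Comp.low` and `LogB`
`CL1 (cx h) ≤ 2 ofReal τ * ofReal (K log (8/τ)) = ofReal (2 K τ log (8/τ)) ≤ ofReal (5 K phi1 s)`.
So `aa s ≤ ofReal (5 K phi1 s)`; `CharAdm` with `c = 5 K`. -/
def S_Back : Prop := QC → CharAdm → Comp → S_Phi → ∀ K : ℝ, 0 < K → LogB K → Adm phi1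

/-- **Dich**: the dichotomy and the inclusion in `L log L`.

Proof. Let `φ` be `LorFun` and admissible, `c` from `CharAdm`.  By `Comp.up`, for `m > 1`,
`rr m ≤ ofReal (m c φ (1/m))`.
(1) Inclusion: by the second part of `S_Fek` and `0 < rr 2` there is `c₀ > 0` with
`ofReal (c₀ log m) ≤ rr m` for `m ≥ 2`, so with `t = 1/m ≤ 1/2`: `c₀ t log (1/t) ≤ c φ t`, and
`phi1 t = t (1 + log (1/t)) ≤ 3 t log (1/t)` (`log 2 ≥ 1/2`); so `phi1 t ≤ (3 c/c₀) φ t` for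
`t ∈ (0, 1/2]`.  For `t ∈ [1/2, 1]`: `phi1 t ≤ 1` and `φ t ≥ φ (1/2) ≥ (c₀/(3 c)) phi1 (1/2) > 0`,
and `phi1 (1/2) ≥ 1/2`.  For `t = 0` both sides vanish.
(2) If `φ t / phi1 t` does not tend to infinity as `t → 0+`, there is `K > 0` with
`∃ᶠ t in 𝓝[>] 0, φ t ≤ K phi1 t`; with `M = 1/t`: `∃ᶠ M in atTop`,
`rr M ≤ ofReal (M c K (1/M) (1 + log M)) = ofReal (c K (1 + log M))`; the first part of `S_Fek`
gives `LogB (c K)`. -/
def S_Dich : Prop := CharAdm → Comp → S_Fek → SupAdd → 0 < rr 2 → ∀ φ : ℝ → ℝ, LorFun φ → Adm φ →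
  (∃ c : ℝ, 0 < c ∧ ∀ t ∈ Icc (0 : ℝ) 1, phi1 t ≤ c * φ t) ∧
  (Tendsto (fun t => φ t / phi1 t) (𝓝[>] 0) atTop ∨ ∃ K : ℝ, 0 < K ∧ LogB K)

/-- The sharp off-support inequality with constant `K`. -/
def OffIneq (K : ℝ) : Prop :=
  ∀ (h : ℝ → ℝ) (M : ℝ), SmR h → (∀ x, 0 ≤ h x) → 0 < mass h → (∀ x, h x ≤ M) →
    ∫⁻ x in zer h, Cf (cx h) x ≤ ENNReal.ofReal (K * mass h * Real.log (M / mass h))

/-- **Off**: `LogB K` is the same as the off-support inequality.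

Proof. (→) Let `h, M` be as in `OffIneq`, `H = mass h`; `H ≤ M`.  For every `m > M / H` (so
`m > 1`) `Cls m h`, so `∫⁻_{zer h} CLm L (cx h) ≤ ofReal H * ofReal (K log m)`; let `m` decrease to
`M / H` (continuity of `log` at `M / H ≥ 1`) and `L → ∞` (monotone convergence as in
`CLprops.mono`, on the set `zer h`).  (←) Let `Cls m h`, `H = mass h`, `M = max h < m H` (attained);
`M ≥ H > 0`; `∫⁻_{zer h} CLm L (cx h) ≤ ∫⁻_{zer h} Cf (cx h) ≤ ofReal (K H log (M/H)) ≤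
ofReal H * ofReal (K log m)`. -/
def S_Off : Prop := CLprops → ∀ K : ℝ, 0 < K → (LogB K ↔ OffIneq K)

/-- The final theorem. -/
def Final : Prop :=
  ((∃ φ : ℝ → ℝ, LorFun φ ∧ Adm φ) → ∃ φ : ℝ → ℝ, IsLargest φ) ∧
  (∀ φ : ℝ → ℝ, LorFun φ → Adm φ → Contained φ phi1) ∧
  (IsLargest phi1 ↔ Adm phi1) ∧
  (IsLargest phi1 ∨
    ∀ φ : ℝ → ℝ, LorFun φ → Adm φ → Tendsto (fun t => φ t / phi1 t) (𝓝[>] 0) atTop) ∧
  (IsLargest phi1 ↔ ∃ K : ℝ, 0 < K ∧ OffIneq K)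

end Pool.Agent.MP777
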